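import Pool.Agent.Helper45.DR.Main

set_option autoImplicit false
set_option linter.unusedSimpArgs false

/-!
# DG: the target graphs `H n`, connected, with `2 ^ h ≥ n ^ (1 - o(1))` tagged leaves
-/

namespace Pool.Agent.Helper57.DG

open Pool.Agent.Helper45.DR

/-- the oriented edges of the padded graph: a heap with `r` nodes hangs at the last vertex -/
def rel' (m h : ℕ) (π : Fin (2 ^ h) → Equiv.Perm (Fin m)) (r : ℕ) :
    V m h ⊕ Fin r → V m h ⊕ Fin r → Prop
  | .inl u, .inl v => (HG m h π).Adj u v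
  | .inl u, .inr i => u = .inr (.inr 1) ∧ (i : ℕ) = 0
  | .inr i, .inr j => ((i : ℕ) - 1) / 2 = j
  | .inr _, .inl _ => False

/-- the padded graph -/
def KG (m h : ℕ) (π : Fin (2 ^ h) → Equiv.Perm (Fin m)) (r : ℕ) :
    SimpleGraph (V m h ⊕ Fin r) := SimpleGraph.fromRel (rel' m h π r)

lemma KG_adj (m h : ℕ) (π : Fin (2 ^ h) → Equiv.Perm (Fin m)) (r : ℕ) (v w : V m h ⊕ Fin r) :
    (KG m h π r).Adj v w ↔ v ≠ w ∧ (rel' m h π r v w ∨ rel' m h π r w v) := by
  unfold KG
  rw [SimpleGraph.fromRel_adj]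

lemma KG_inl (m h : ℕ) (π : Fin (2 ^ h) → Equiv.Perm (Fin m)) (r : ℕ) (u v : V m h)
    (huv : (HG m h π).Adj u v) : (KG m h π r).Adj (.inl u) (.inl v) := by
  rw [KG_adj]
  exact ⟨fun h => huv.ne (Sum.inl.inj h), Or.inl huv⟩

/-- numerical codes -/
def code' (m h r : ℕ) : V m h ⊕ Fin r → ℕ × ℕ × ℕ × ℕ
  | .inl u => (0, vcode m h u)
  | .inr i => (1, i, 0, 0)

lemma code'_inj (m h r : ℕ) : Function.Injective (code' m h r) := by
  intro v w hvw
  rcases v with u | i <;> rcases w with u' | j <;> simp only [code', Prod.mk.injEq] at hvw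
  · exact congrArg Sum.inl (vcode_inj m h hvw.2)
  · omega
  · omega
  · exact congrArg Sum.inr (Fin.ext hvw.2.1)

lemma special_adj (m h : ℕ) (π : Fin (2 ^ h) → Equiv.Perm (Fin m)) (v : V m h)
    (hv : (HG m h π).Adj (.inr (.inr 1)) v) :
    vcode m h v = (0, 0, 0) ∨ vcode m h v = (2, 0, 0) := by
  rw [HG_adj] at hv
  obtain ⟨hne, hr⟩ := hv
  rcases v with i | p | z
  · simp only [rel, false_or] at hr
    left
    simp only [vcode, hr]
  · simp only [rel, or_self] at hr
  · right
    have hz : (z : ℕ) = 0 := by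
      have h1 : z ≠ 1 := fun h => hne (by rw [h])
      have := z.2
      omega
    simp only [vcode, hz]

theorem KG_deg (m h : ℕ) (π : Fin (2 ^ h) → Equiv.Perm (Fin m)) (r : ℕ) (v : V m h ⊕ Fin r) :
    ((KG m h π r).neighborSet v).ncard ≤ 3 := by
  classical
  rcases v with u | i
  · by_cases hu : u = .inr (.inr 1)
    · refine ncard_le_three (code' m h r) (code'_inj m h r) _ (0, 0, 0, 0) (0, 2, 0, 0)
        (1, 0, 0, 0) ?_
      intro w hw
      rw [SimpleGraph.mem_neighborSet, KG_adj] at hw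
      obtain ⟨hne, hr⟩ := hw
      rcases w with v | j
      · simp only [rel'] at hr
        have hadj : (HG m h π).Adj (.inr (.inr 1)) v := by
          rw [← hu]
          rcases hr with h1 | h1
          · exact h1
          · exact h1.symm
        rcases special_adj m h π v hadj with h1 | h1
        · left
          simp only [code', h1]
        · right; left
          simp only [code', h1]
      · simp only [rel', or_false] at hr
        right; right
        simp only [code', hr.2]
    · have e : (KG m h π r).neighborSet (.inl u) = Sum.inl '' (HG m h π).neighborSet u := by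
        ext w
        rw [SimpleGraph.mem_neighborSet, KG_adj]
        constructor
        · rintro ⟨hne, hr⟩
          rcases w with v | j
          · simp only [rel'] at hr
            refine ⟨v, ?_, rfl⟩
            rw [SimpleGraph.mem_neighborSet]
            rcases hr with h1 | h1
            · exact h1
            · exact h1.symm
          · simp only [rel', or_false] at hr
            exact absurd hr.1 hu
        · rintro ⟨v, hv, rfl⟩
          rw [SimpleGraph.mem_neighborSet] at hv
          exact ⟨fun h => hv.ne (Sum.inl.inj h), Or.inl hv⟩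
      rw [e, Set.ncard_image_of_injective _ Sum.inl_injective]
      exact HG_deg m h π u
  · refine ncard_le_three (code' m h r) (code'_inj m h r) _
      (if (i : ℕ) = 0 then (0, 2, 1, 0) else (1, ((i : ℕ) - 1) / 2, 0, 0))
      (1, 2 * (i : ℕ) + 1, 0, 0) (1, 2 * (i : ℕ) + 2, 0, 0) ?_
    intro w hw
    rw [SimpleGraph.mem_neighborSet, KG_adj] at hw
    obtain ⟨hne, hr⟩ := hw
    rcases w with v | j
    · simp only [rel', false_or] at hr
      left
      rw [if_pos hr.2, hr.1]
      rfl
    · simp only [rel'] at hr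
      have hij : (i : ℕ) ≠ j := fun h => hne (congrArg Sum.inr (Fin.ext h))
      rcases hr with h1 | h1
      · left
        have hi0 : (i : ℕ) ≠ 0 := by
          intro h0
          rw [h0] at h1 hij
          simp at h1
          exact hij h1
        rw [if_neg hi0]
        simp only [code', h1]
      · have hj0 : (j : ℕ) ≠ 0 := by
          intro h0
          rw [h0] at h1 hij
          simp at h1
          exact hij h1.symm
        have h2 : (j : ℕ) = 2 * i + 1 ∨ (j : ℕ) = 2 * i + 2 := by omega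
        right
        rcases h2 with h2 | h2
        · left
          simp only [code', h2]
        · right
          simp only [code', h2]

/-- everything is joined to the vertex `0` -/
lemma HG_reach (m h : ℕ) (π : Fin (2 ^ h) → Equiv.Perm (Fin m)) (v : V m h) :
    (HG m h π).Reachable v (.inl ⟨0, by positivity⟩) := by
  have hnode : ∀ n, ∀ hn : n < 2 ^ (h + 1),
      (HG m h π).Reachable (.inl ⟨n, hn⟩) (.inl ⟨0, by positivity⟩) := by
    intro n
    induction n using Nat.strong_induction_on with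
    | _ n ih =>
      intro hn
      by_cases h0 : n = 0
      · subst h0
        exact SimpleGraph.Reachable.refl _
      · have h1 : n / 2 < n := by omega
        refine SimpleGraph.Reachable.trans ?_ (ih (n / 2) h1 (by omega))
        apply SimpleGraph.Adj.reachable
        rw [HG_adj]
        refine ⟨?_, Or.inl rfl⟩
        intro h2
        have h3 := congrArg Fin.val (Sum.inl.inj h2)
        simp only at h3
        omega
  rcases v with i | ⟨a, s⟩ | z
  · exact hnode i i.2
  · obtain ⟨s, hs⟩ := s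
    induction s with
    | zero =>
      have hlt : 2 ^ h + (a : ℕ) < 2 ^ (h + 1) := by
        have := a.2
        have e : 2 ^ (h + 1) = 2 * 2 ^ h := by ring
        omega
      refine SimpleGraph.Reachable.trans ?_ (hnode (2 ^ h + a) hlt)
      apply SimpleGraph.Adj.reachable
      rw [HG_adj]
      exact ⟨by simp, Or.inr ⟨rfl, rfl⟩⟩
    | succ s ih =>
      refine SimpleGraph.Reachable.trans ?_ (ih (by omega))
      apply SimpleGraph.Adj.reachable
      rw [HG_adj]
      refine ⟨?_, Or.inr ⟨rfl, Or.inl rfl⟩⟩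
      intro h2
      simp at h2
  · apply SimpleGraph.Adj.reachable
    rw [HG_adj]
    exact ⟨by simp, Or.inr rfl⟩

theorem KG_connected (m h : ℕ) (π : Fin (2 ^ h) → Equiv.Perm (Fin m)) (r : ℕ) :
    (KG m h π r).Connected := by
  have hinl : ∀ u v : V m h, (HG m h π).Reachable u v →
      (KG m h π r).Reachable (.inl u) (.inl v) := by
    rintro u v ⟨p⟩
    induction p with
    | nil => exact SimpleGraph.Reachable.refl _
    | cons huv p ih =>
      exact SimpleGraph.Reachable.trans (KG_inl m h π r _ _ huv).reachable ih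
  have hinr : ∀ n, ∀ hn : n < r, (KG m h π r).Reachable (.inr ⟨n, hn⟩) (.inl (.inr (.inr 1))) := by
    intro n
    induction n using Nat.strong_induction_on with
    | _ n ih =>
      intro hn
      by_cases h0 : n = 0
      · subst h0
        apply SimpleGraph.Adj.reachable
        rw [KG_adj]
        exact ⟨by simp, Or.inr ⟨rfl, rfl⟩⟩
      · have h1 : (n - 1) / 2 < n := by omega
        refine SimpleGraph.Reachable.trans ?_ (ih ((n - 1) / 2) h1 (by omega))
        apply SimpleGraph.Adj.reachable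
        rw [KG_adj]
        refine ⟨?_, Or.inl rfl⟩
        intro h2
        have h3 := congrArg Fin.val (Sum.inr.inj h2)
        simp only at h3
        omega
  have hall : ∀ v : V m h ⊕ Fin r,
      (KG m h π r).Reachable v (.inl (.inl ⟨0, by positivity⟩)) := by
    rintro (u | i)
    · exact hinl _ _ (HG_reach m h π u)
    · exact (hinr i i.2).trans (hinl _ _ (HG_reach m h π _))
  have hne : Nonempty (V m h ⊕ Fin r) := ⟨.inl (.inl ⟨0, by positivity⟩)⟩
  exact ⟨fun u v => (hall u).trans (hall v).symm⟩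

/-- the distance to the vertex `0` -/
lemma KG_ecc (m h : ℕ) (π : Fin (2 ^ h) → Equiv.Perm (Fin m)) (r : ℕ) (v : V m h ⊕ Fin r) :
    ∃ p : (KG m h π r).Walk (.inl (.inl ⟨0, by positivity⟩)) v,
      p.length ≤ h + 2 * m + Nat.log 2 r + 4 := by
  have hadj : ∀ (u v w : V m h ⊕ Fin r) (c : ℕ), (KG m h π r).Adj v w →
      (∃ p : (KG m h π r).Walk u v, p.length ≤ c) →
      ∃ p : (KG m h π r).Walk u w, p.length ≤ c + 1 := by
    rintro u v w c hvw ⟨p, hp⟩
    refine ⟨p.concat hvw, ?_⟩
    rw [SimpleGraph.Walk.length_concat]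
    omega
  have hnode : ∀ s n, n < 2 ^ s → ∀ hn : n < 2 ^ (h + 1),
      ∃ p : (KG m h π r).Walk (.inl (.inl ⟨0, by positivity⟩)) (.inl (.inl ⟨n, hn⟩)),
        p.length ≤ s := by
    intro s
    induction s with
    | zero =>
      intro n hn0 hn
      obtain rfl : n = 0 := by
        rw [pow_zero] at hn0
        omega
      exact ⟨SimpleGraph.Walk.nil, by simp⟩
    | succ s ih =>
      intro n hns hn
      by_cases h0 : n = 0
      · subst h0
        exact ⟨SimpleGraph.Walk.nil, by simp⟩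
      · rw [pow_succ] at hns
        refine hadj _ _ _ s ?_ (ih (n / 2) (by omega) (by omega))
        apply SimpleGraph.Adj.symm
        apply KG_inl
        rw [HG_adj]
        refine ⟨?_, Or.inl rfl⟩
        intro h2
        have h3 := congrArg Fin.val (Sum.inl.inj h2)
        simp only at h3
        omega
  have hspec : ∃ p : (KG m h π r).Walk (.inl (.inl ⟨0, by positivity⟩))
      (.inl (.inr (.inr 1))), p.length ≤ 0 + 1 := by
    refine hadj _ _ _ 0 ?_ ⟨SimpleGraph.Walk.nil, by simp⟩
    apply KG_inl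
    rw [HG_adj]
    exact ⟨by simp, Or.inl rfl⟩
  rcases v with (i | ⟨a, s⟩ | z) | i
  · obtain ⟨p, hp⟩ := hnode (h + 1) i i.2 i.2
    exact ⟨p, by omega⟩
  · have htag : ∀ s, ∀ hs : s < 2 * m,
        ∃ p : (KG m h π r).Walk (.inl (.inl ⟨0, by positivity⟩))
          (.inl (.inr (.inl (a, ⟨s, hs⟩)))), p.length ≤ h + 1 + s + 1 := by
      intro s
      induction s with
      | zero =>
        intro hs
        have hlt : 2 ^ h + (a : ℕ) < 2 ^ (h + 1) := by
          have := a.2
          have e : 2 ^ (h + 1) = 2 * 2 ^ h := by ring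
          omega
        refine hadj _ _ _ (h + 1 + 0) ?_ (hnode (h + 1) (2 ^ h + a) hlt hlt)
        apply KG_inl
        rw [HG_adj]
        exact ⟨by simp, Or.inl ⟨rfl, rfl⟩⟩
      | succ s ih =>
        intro hs
        refine hadj _ _ _ (h + 1 + s + 1) ?_ (ih (by omega))
        apply KG_inl
        rw [HG_adj]
        refine ⟨?_, Or.inl ⟨rfl, Or.inl rfl⟩⟩
        intro h2
        simp at h2
    obtain ⟨p, hp⟩ := htag s s.2
    have := s.2
    exact ⟨p, by omega⟩
  · have h1 : ∃ p : (KG m h π r).Walk (.inl (.inl ⟨0, by positivity⟩))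
        (.inl (.inr (.inr z))), p.length ≤ 0 + 1 := by
      refine hadj _ _ _ 0 ?_ ⟨SimpleGraph.Walk.nil, by simp⟩
      apply KG_inl
      rw [HG_adj]
      exact ⟨by simp, Or.inl rfl⟩
    obtain ⟨p, hp⟩ := h1
    exact ⟨p, by omega⟩
  · have hheap : ∀ s n, n + 1 < 2 ^ (s + 1) → ∀ hn : n < r,
        ∃ p : (KG m h π r).Walk (.inl (.inl ⟨0, by positivity⟩)) (.inr ⟨n, hn⟩),
          p.length ≤ 0 + 1 + 1 + s := by
      intro s
      induction s with
      | zero =>
        intro n hn0 hn
        obtain rfl : n = 0 := by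
          rw [zero_add, pow_one] at hn0
          omega
        refine hadj _ _ _ (0 + 1) ?_ hspec
        rw [KG_adj]
        exact ⟨by simp, Or.inl ⟨rfl, rfl⟩⟩
      | succ s ih =>
        intro n hns hn
        by_cases h0 : n = 0
        · subst h0
          obtain ⟨p, hp⟩ := ih 0 (by
            have : 1 ≤ 2 ^ s := Nat.one_le_two_pow
            rw [pow_succ]
            omega) hn
          exact ⟨p, by omega⟩
        · rw [pow_succ] at hns
          refine hadj _ _ _ (0 + 1 + 1 + s) ?_ (ih ((n - 1) / 2) (by omega) (by omega))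
          rw [KG_adj]
          refine ⟨?_, Or.inr rfl⟩
          intro h2
          have h3 := congrArg Fin.val (Sum.inr.inj h2)
          simp only at h3
          omega
    have h1 : (i : ℕ) + 1 < 2 ^ (Nat.log 2 r + 1) := by
      have h2 := Nat.lt_pow_succ_log_self (b := 2) (by norm_num) r
      have := i.2
      rw [Nat.succ_eq_add_one] at h2
      omega
    obtain ⟨p, hp⟩ := hheap (Nat.log 2 r) i h1 i.2
    exact ⟨p, by omega⟩

lemma ex_mm (h : ℕ) : ∃ m : ℕ, 2 ^ h ≤ m.factorial := ⟨2 ^ h, Nat.self_le_factorial _⟩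

/-- the tag length for the height `h` -/
def mm (h : ℕ) : ℕ := Nat.find (ex_mm h)

lemma mm_spec (h : ℕ) : 2 ^ h ≤ (mm h).factorial := Nat.find_spec (ex_mm h)

lemma mm_pos (h : ℕ) (hh : 0 < h) : 0 < mm h := by
  by_contra hcon
  have h1 : mm h = 0 := by omega
  have h2 := mm_spec h
  rw [h1, Nat.factorial_zero] at h2
  have h3 : 2 ≤ 2 ^ h := by
    calc 2 = 2 ^ 1 := by norm_num
      _ ≤ 2 ^ h := Nat.pow_le_pow_right (by norm_num) hh
  omega

lemma mm_small (M : ℕ) : ∃ h₁, ∀ h ≥ h₁, M * mm h ≤ h := by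
  rcases Nat.eq_zero_or_pos M with rfl | hM
  · exact ⟨0, fun h _ => by omega⟩
  refine ⟨2 * M * 2 ^ (4 * M), ?_⟩
  intro h hh
  set j := h / (2 * M) with hj
  have h2M : 0 < 2 * M := by omega
  have hj1 : 2 ^ (4 * M) ≤ j := by
    rw [hj, Nat.le_div_iff_mul_le h2M, mul_comm]
    exact hh
  have hjpos : 1 ≤ j := Nat.one_le_two_pow.trans hj1
  have hjh : 2 * M * j ≤ h := Nat.mul_div_le _ _
  have hlt : h < 2 * M * (j + 1) := Nat.lt_mul_div_succ h h2M
  have h4 : h ≤ 4 * M * j := by nlinarith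
  have hfac : 2 ^ h ≤ (2 * j).factorial := by
    have e := Nat.factorial_mul_pow_le_factorial (m := j) (n := j)
    have e1 : 1 ≤ j.factorial := Nat.factorial_pos _
    calc 2 ^ h ≤ 2 ^ (4 * M * j) := Nat.pow_le_pow_right (by norm_num) h4
      _ = (2 ^ (4 * M)) ^ j := by rw [← pow_mul]
      _ ≤ (j + 1) ^ j := Nat.pow_le_pow_left (by omega) _
      _ ≤ j.factorial * (j + 1) ^ j := Nat.le_mul_of_pos_left _ e1
      _ ≤ (j + j).factorial := e
      _ = (2 * j).factorial := by rw [two_mul]
  have hmm : mm h ≤ 2 * j := Nat.find_min' _ hfac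
  calc M * mm h ≤ M * (2 * j) := Nat.mul_le_mul_left _ hmm
    _ = 2 * M * j := by ring
    _ ≤ h := hjh

/-- the size for the height `h` -/
def sz (h : ℕ) : ℕ := Fintype.card (V (mm h) h)

lemma sz_eq (h : ℕ) : sz h = 2 ^ (h + 1) + (2 ^ h * (2 * mm h) + 2) := card_V _ _

lemma sz_lower (h : ℕ) : 2 ^ h ≤ sz h := by
  rw [sz_eq, pow_succ]
  omega

/-- the height for `n` vertices -/
noncomputable def hh (n : ℕ) : ℕ := Nat.findGreatest (fun h => sz h ≤ n) n

lemma hh_spec (h₁ n : ℕ) (hn : sz h₁ ≤ n) :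
    h₁ ≤ hh n ∧ sz (hh n) ≤ n ∧ n < sz (hh n + 1) := by
  have hlow : ∀ r, r < sz r := fun r => lt_of_lt_of_le Nat.lt_two_pow_self (sz_lower r)
  have hr0n : h₁ ≤ n := (hlow h₁).le.trans hn
  have h1 : h₁ ≤ hh n := Nat.le_findGreatest hr0n hn
  have h2 : sz (hh n) ≤ n := Nat.findGreatest_spec (P := fun h => sz h ≤ n) hr0n hn
  refine ⟨h1, h2, ?_⟩
  by_contra h3
  push Not at h3
  have h4 := hlow (hh n + 1)
  have h5 := Nat.findGreatest_is_greatest (P := fun h => sz h ≤ n)
    (n := n) (k := hh n + 1) (Nat.lt_succ_self _) (by omega)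
  exact h5 h3

lemma poly (K : ℕ) : ∃ h₁, ∀ h ≥ h₁, (4 * h + 14) ^ K ≤ 2 ^ h := by
  rcases Nat.eq_zero_or_pos K with rfl | hK
  · exact ⟨0, fun h _ => by rw [pow_zero]; exact Nat.one_le_two_pow⟩
  refine ⟨K * (2 * (8 * K + 14)), ?_⟩
  intro h hh
  set q := h / K with hq
  have hq1 : 2 * (8 * K + 14) ≤ q := by
    rw [hq, Nat.le_div_iff_mul_le hK, mul_comm]
    exact hh
  have hlt : h < K * (q + 1) := Nat.lt_mul_div_succ h hK
  have hqh : K * q ≤ h := Nat.mul_div_le _ _
  have h1 : 4 * h + 14 ≤ 2 ^ q := by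
    obtain ⟨s, hs⟩ : ∃ s, s = q / 2 := ⟨_, rfl⟩
    have hs1 : 8 * K + 14 ≤ s := by omega
    have hs2 : 2 * s ≤ q := by omega
    have hs3 : q ≤ 2 * s + 1 := by omega
    have e1 : (s + 1) * (s + 1) ≤ 2 ^ q := by
      calc (s + 1) * (s + 1) ≤ 2 ^ s * 2 ^ s :=
            Nat.mul_le_mul Nat.lt_two_pow_self Nat.lt_two_pow_self
        _ = 2 ^ (2 * s) := by ring
        _ ≤ 2 ^ q := Nat.pow_le_pow_right (by norm_num) hs2
    have e2 : h ≤ K * (2 * s + 2) := hlt.le.trans (Nat.mul_le_mul_left _ (by omega))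
    have e3 : (8 * K + 14) * (s + 1) ≤ (s + 1) * (s + 1) := Nat.mul_le_mul_right _ (by omega)
    have e4 : (8 * K + 14) * (s + 1) = 4 * (K * (2 * s + 2)) + 14 * (s + 1) := by ring
    omega
  calc (4 * h + 14) ^ K ≤ (2 ^ q) ^ K := Nat.pow_le_pow_left h1 _
    _ = 2 ^ (K * q) := by rw [← pow_mul, mul_comm]
    _ ≤ 2 ^ h := Nat.pow_le_pow_right (by norm_num) hqh

/-- `n ≤ 2 ^ (h (1 + 1 / K))` -/
lemma upper (K : ℕ) : ∃ h₁, ∀ n, sz h₁ ≤ n → n ^ K ≤ 2 ^ (hh n * (K + 1)) := by
  obtain ⟨h₂, h2⟩ := poly K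
  obtain ⟨h₃, h3⟩ := mm_small 1
  refine ⟨max h₂ h₃, ?_⟩
  intro n hn
  obtain ⟨ha, -, hb⟩ := hh_spec _ _ hn
  have e1 : mm (hh n + 1) ≤ hh n + 1 := by
    have := h3 (hh n + 1) (((le_max_right _ _).trans ha).trans (Nat.le_succ _))
    omega
  have e2 : n ≤ 2 ^ hh n * (4 * hh n + 14) := by
    rw [sz_eq] at hb
    have e3 : 2 ^ (hh n + 1) * (2 * mm (hh n + 1)) ≤ 2 ^ (hh n + 1) * (2 * (hh n + 1)) :=
      Nat.mul_le_mul_left _ (by omega)
    have e4 : 2 ^ (hh n + 1 + 1) + (2 ^ (hh n + 1) * (2 * (hh n + 1)) + 2 * 2 ^ hh n) =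
        2 ^ hh n * (4 * hh n + 10) := by ring
    have e5 : 1 ≤ 2 ^ hh n := Nat.one_le_two_pow
    have e6 : 2 ^ hh n * (4 * hh n + 14) = 2 ^ hh n * (4 * hh n + 10) + 4 * 2 ^ hh n := by ring
    omega
  calc n ^ K ≤ (2 ^ hh n * (4 * hh n + 14)) ^ K := Nat.pow_le_pow_left e2 _
    _ = 2 ^ (hh n * K) * (4 * hh n + 14) ^ K := by rw [mul_pow, ← pow_mul]
    _ ≤ 2 ^ (hh n * K) * 2 ^ hh n := Nat.mul_le_mul_left _ (h2 _ ((le_max_left _ _).trans ha))
    _ = 2 ^ (hh n * (K + 1)) := by rw [← pow_add]; congr 1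

lemma path_deg (n : ℕ) (v : Fin n) : ((SimpleGraph.pathGraph n).neighborSet v).ncard ≤ 3 := by
  refine ncard_le_three (fun w : Fin n => (w : ℕ)) Fin.val_injective _ ((v : ℕ) + 1)
    ((v : ℕ) - 1) 0 ?_
  intro w hw
  rw [SimpleGraph.mem_neighborSet, SimpleGraph.pathGraph_adj] at hw
  omega

theorem exists_Hn (n : ℕ) : ∃ H : SimpleGraph (Fin n), (∀ v, (H.neighborSet v).ncard ≤ 3) ∧
    (0 < n → H.Connected) ∧ (sz (hh n) ≤ n →
      ∃ π : Fin (2 ^ hh n) → Equiv.Perm (Fin (mm (hh n))), Function.Injective π ∧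
      ∃ g : V (mm (hh n)) (hh n) → Fin n, Function.Injective g ∧
        (∀ u v, (HG (mm (hh n)) (hh n) π).Adj u v → H.Adj (g u) (g v)) ∧
        ∀ a v, ∃ p : H.Walk (g (pth (mm (hh n)) (hh n) a (hh n))) v,
          p.length ≤ hh n + 2 * mm (hh n) + Nat.log 2 n + 5) := by
  classical
  by_cases hn : sz (hh n) ≤ n
  · have h2 : Fintype.card (Fin (2 ^ hh n)) ≤ Fintype.card (Equiv.Perm (Fin (mm (hh n)))) := by
      rw [Fintype.card_fin, Fintype.card_perm, Fintype.card_fin]
      exact mm_spec _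
    obtain ⟨f⟩ := Function.Embedding.nonempty_of_card_le h2
    obtain ⟨r, hr⟩ := Nat.exists_eq_add_of_le hn
    have hc : Fintype.card (V (mm (hh n)) (hh n) ⊕ Fin r) = n := by
      rw [Fintype.card_sum, Fintype.card_fin]
      exact hr.symm
    let e : (V (mm (hh n)) (hh n) ⊕ Fin r) ≃ Fin n := Fintype.equivFinOfCardEq hc
    refine ⟨(KG (mm (hh n)) (hh n) f r).comap e.symm, ?_, ?_, fun _ =>
      ⟨f, f.injective, fun u => e (.inl u), ?_, ?_, ?_⟩⟩
    · intro v
      have h1 : ((KG (mm (hh n)) (hh n) f r).comap e.symm).neighborSet v =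
          e '' (KG (mm (hh n)) (hh n) f r).neighborSet (e.symm v) := by
        ext w
        rw [SimpleGraph.mem_neighborSet, SimpleGraph.comap_adj]
        constructor
        · intro h
          exact ⟨e.symm w, h, Equiv.apply_symm_apply _ _⟩
        · rintro ⟨w', hw', rfl⟩
          rw [Equiv.symm_apply_apply]
          exact hw'
      rw [h1, Set.ncard_image_of_injective _ e.injective]
      exact KG_deg _ _ _ _ _
    · intro _
      have hiso : (KG (mm (hh n)) (hh n) f r).comap e.symm ≃g KG (mm (hh n)) (hh n) f r :=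
        SimpleGraph.Iso.comap e.symm _
      exact hiso.connected_iff.2 (KG_connected _ _ _ _)
    · intro u v huv
      exact Sum.inl_injective (e.injective huv)
    · intro u v huv
      rw [SimpleGraph.comap_adj, Equiv.symm_apply_apply, Equiv.symm_apply_apply]
      exact KG_inl _ _ _ _ _ _ huv
    · intro a v
      obtain ⟨u, rfl⟩ := e.surjective v
      obtain ⟨p, hp⟩ := KG_ecc (mm (hh n)) (hh n) f r u
      have h1 : (KG (mm (hh n)) (hh n) f r).Adj (.inl (pth (mm (hh n)) (hh n) a (hh n)))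
          (.inl (.inl ⟨0, by positivity⟩)) := by
        apply KG_inl
        rw [HG_adj]
        have h2 : leaf (hh n) a / 2 ^ hh n = 1 := by
          have h3 : leaf (hh n) a = 2 ^ hh n + a := rfl
          have h4 := a.2
          rw [h3, Nat.div_eq_iff (by positivity)]
          omega
        refine ⟨?_, Or.inl ?_⟩
        · intro h3
          have h4 := congrArg Fin.val (Sum.inl.inj h3)
          simp only at h4
          omega
        · change leaf (hh n) a / 2 ^ hh n / 2 = 0
          rw [h2]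
      let φ : KG (mm (hh n)) (hh n) f r →g (KG (mm (hh n)) (hh n) f r).comap e.symm :=
        ⟨e, fun {u v} huv => by
          rw [SimpleGraph.comap_adj, Equiv.symm_apply_apply, Equiv.symm_apply_apply]
          exact huv⟩
      refine ⟨(SimpleGraph.Walk.cons h1 p).map φ, ?_⟩
      rw [SimpleGraph.Walk.length_map, SimpleGraph.Walk.length_cons]
      have h5 : Nat.log 2 r ≤ Nat.log 2 n := Nat.log_mono_right (by omega)
      omega
  · refine ⟨SimpleGraph.pathGraph n, path_deg n, ?_, fun h => absurd h hn⟩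
    intro hpos
    obtain ⟨k, rfl⟩ : ∃ k, n = k + 1 := ⟨n - 1, by omega⟩
    exact SimpleGraph.pathGraph_connected k

end Pool.Agent.Helper57.DG
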