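import Pool.Agent.Helper57.DG.Engine
import Pool.Agent.Helper57.DG.Hn

set_option autoImplicit false

/-!
# DG: copies covered by small sets with low multiplicity
-/

namespace Pool.Agent.Helper57.DG

open Pool.Agent.Helper45.DR Pool.Agent.Helper45.DR2

lemma cover_num (k j : ℕ) (hj1 : 1 ≤ j) (hjk : j ≤ k) (h h' d n : ℕ)
    (hh' : h' = (2 * j - 1) * h / (2 * k)) (hd : h = h' + d) (hbig : 8 * k ≤ h)
    (hn : n ^ (8 * k) ≤ 2 ^ (h * (8 * k + 1))) :
    (∀ μ, μ ^ k ≤ n ^ (j - 1) → μ ^ (8 * k) ≤ 2 ^ ((8 * k - 1) * h')) ∧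
    (∀ x, x ^ k ≤ n ^ (k - j) → x < 2 ^ d) ∧ h ≤ 4 * k * h' := by
  obtain ⟨i, rfl⟩ : ∃ i, j = i + 1 := ⟨j - 1, by omega⟩
  obtain ⟨e, hk⟩ : ∃ e, k = i + 1 + e := ⟨k - (i + 1), by omega⟩
  have hk1 : 1 ≤ k := by omega
  have e0 : 2 * (i + 1) - 1 = 2 * i + 1 := by omega
  rw [e0] at hh'
  have hA : 2 * k * h' ≤ (2 * i + 1) * h := by
    rw [hh']
    exact Nat.mul_div_le _ _
  have hB : (2 * i + 1) * h < 2 * k * (h' + 1) := by
    rw [hh']
    exact Nat.lt_mul_div_succ _ (by omega)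
  refine ⟨?_, ?_, ?_⟩
  · intro μ hμ
    rw [Nat.add_sub_cancel] at hμ
    refine le_of_pow_le_pow_left₀ (n := k) (by omega) (by positivity) ?_
    have h1 : h * (8 * k + 1) * i ≤ (8 * k - 1) * h' * k := by
      obtain ⟨q, hq⟩ : ∃ q, 8 * k = q + 1 := ⟨8 * k - 1, by omega⟩
      rw [hq, Nat.add_sub_cancel]
      have e1 : q * ((2 * i + 1) * h) ≤ q * (2 * k * (h' + 1)) := Nat.mul_le_mul_left _ hB.le
      have e2 : 2 * (h * (q + 1 + 1) * i) + q * (2 * k) ≤ q * ((2 * i + 1) * h) := by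
        have e3 : 4 * i + 4 * 1 ≤ 4 * k := by omega
        have e4 : q * ((2 * i + 1) * h) = 2 * (h * (q + 1 + 1) * i) + (q * h - 4 * i * h) := by
          have e5 : 4 * i * h ≤ q * h := Nat.mul_le_mul_right _ (by omega)
          have e6 : q * ((2 * i + 1) * h) + 4 * i * h = 2 * (h * (q + 1 + 1) * i) + q * h := by
            ring
          omega
        have e7 : q * (2 * k) + 4 * i * h ≤ q * h := by
          have e8 : 4 * k * h ≤ (q - 4 * i) * h := Nat.mul_le_mul_right _ (by omega)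
          have e9 : (q - 4 * i) * h + 4 * i * h = q * h := by
            rw [← add_mul]
            congr 1
            omega
          have e10 : q * (2 * k) ≤ 4 * k * h := by
            have e11 : q ≤ h := by omega
            calc q * (2 * k) ≤ h * (2 * k) := Nat.mul_le_mul_right _ e11
              _ ≤ h * (4 * k) := Nat.mul_le_mul_left _ (by omega)
              _ = 4 * k * h := by ring
          omega
        omega
      have e12 : q * (2 * k * (h' + 1)) = 2 * (q * h' * k) + q * (2 * k) := by ring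
      omega
    calc (μ ^ (8 * k)) ^ k = (μ ^ k) ^ (8 * k) := by rw [← pow_mul, ← pow_mul, mul_comm]
      _ ≤ (n ^ i) ^ (8 * k) := Nat.pow_le_pow_left hμ _
      _ = (n ^ (8 * k)) ^ i := by rw [← pow_mul, ← pow_mul, mul_comm]
      _ ≤ (2 ^ (h * (8 * k + 1))) ^ i := Nat.pow_le_pow_left hn _
      _ = 2 ^ (h * (8 * k + 1) * i) := by rw [← pow_mul]
      _ ≤ 2 ^ ((8 * k - 1) * h' * k) := Nat.pow_le_pow_right (by norm_num) h1
      _ = (2 ^ ((8 * k - 1) * h')) ^ k := by rw [← pow_mul]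
  · intro x hx
    have e1 : k - (i + 1) = e := by omega
    rw [e1] at hx
    refine lt_of_pow_lt_pow_left₀ (8 * k * k) (by positivity) ?_
    have h1 : h * (8 * k + 1) * e < d * (8 * k * k) := by
      have e2 : (2 * e + 1) * h ≤ 2 * k * d := by
        have e3 : (2 * i + 1) * h + (2 * e + 1) * h = 2 * k * h := by
          rw [hk]
          ring
        have e4 : 2 * k * h = 2 * k * h' + 2 * k * d := by rw [hd]; ring
        omega
      have e5 : 4 * k * ((2 * e + 1) * h) ≤ 4 * k * (2 * k * d) := Nat.mul_le_mul_left _ e2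
      have e6 : 4 * k * (2 * k * d) = d * (8 * k * k) := by ring
      have e7 : 4 * k * ((2 * e + 1) * h) = h * (8 * k + 1) * e + (4 * k * h - e * h) := by
        have e8 : e * h ≤ 4 * k * h := Nat.mul_le_mul_right _ (by omega)
        have e9 : 4 * k * ((2 * e + 1) * h) + e * h = h * (8 * k + 1) * e + 4 * k * h := by ring
        omega
      have e10 : e * h < 4 * k * h := Nat.mul_lt_mul_of_pos_right (by omega) (by omega)
      omega
    calc x ^ (8 * k * k) = (x ^ k) ^ (8 * k) := by rw [← pow_mul, mul_comm]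
      _ ≤ (n ^ e) ^ (8 * k) := Nat.pow_le_pow_left hx _
      _ = (n ^ (8 * k)) ^ e := by rw [← pow_mul, ← pow_mul, mul_comm]
      _ ≤ (2 ^ (h * (8 * k + 1))) ^ e := Nat.pow_le_pow_left hn _
      _ = 2 ^ (h * (8 * k + 1) * e) := by rw [← pow_mul]
      _ < 2 ^ (d * (8 * k * k)) := Nat.pow_lt_pow_right (by norm_num) h1
      _ = (2 ^ d) ^ (8 * k * k) := by rw [← pow_mul]
  · have h1 : h ≤ (2 * i + 1) * h := Nat.le_mul_of_pos_left _ (by omega)
    have e1 : 2 * k * (h' + 1) = 2 * k * h' + 2 * k := by ring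
    have e2 : 4 * k * h' = 2 * (2 * k * h') := by ring
    omega

lemma log_le (n h K : ℕ) (hK : 0 < K) (hn : n ^ K ≤ 2 ^ (h * (K + 1))) :
    n ≤ 2 ^ (2 * h) ∧ Nat.log 2 n ≤ 2 * h := by
  have h1 : n ≤ 2 ^ (2 * h) := by
    refine le_of_pow_le_pow_left₀ (n := K) (by omega) (by positivity) ?_
    refine hn.trans ?_
    rw [← pow_mul]
    apply Nat.pow_le_pow_right (by norm_num)
    calc h * (K + 1) ≤ h * (2 * K) := Nat.mul_le_mul_left _ (by omega)
      _ = 2 * h * K := by ring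
  refine ⟨h1, ?_⟩
  have h2 := Nat.log_mono_right (b := 2) h1
  rwa [Nat.log_pow (by norm_num)] at h2

/-- the nodes of the branch `j` -/
def brn {U : Type*} (m h d : ℕ) (g : V m (h + d) → U) (j : Fin (2 ^ d)) : Set U :=
  {v | ∃ (a : Fin (2 ^ h)) (i : ℕ), i ≤ h ∧ g (pth m (h + d) (lf h d j a) i) = v}

lemma brn_conn {U : Type*} (m h d : ℕ) (π : Fin (2 ^ (h + d)) → Equiv.Perm (Fin m))
    (H : SimpleGraph U) (g : V m (h + d) → U)
    (hgH : ∀ u v, (HG m (h + d) π).Adj u v → H.Adj (g u) (g v)) (j : Fin (2 ^ d)) :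
    (H.induce (brn m h d g j)).Connected := by
  have h2h : 0 < 2 ^ h := by positivity
  have htop : g (pth m (h + d) (lf h d j ⟨0, h2h⟩) h) ∈ brn m h d g j := ⟨_, h, le_rfl, rfl⟩
  have hall : ∀ v : brn m h d g j, (H.induce (brn m h d g j)).Reachable v
      ⟨g (pth m (h + d) (lf h d j ⟨0, h2h⟩) h), htop⟩ := by
    rintro ⟨v, a, i, hi, rfl⟩
    have key : ∀ s, ∀ hs : s ≤ h, (H.induce (brn m h d g j)).Reachable
        ⟨g (pth m (h + d) (lf h d j a) (h - s)), ⟨a, h - s, Nat.sub_le _ _, rfl⟩⟩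
        ⟨g (pth m (h + d) (lf h d j ⟨0, h2h⟩) h), htop⟩ := by
      intro s
      induction s with
      | zero =>
        intro _
        have e : (⟨g (pth m (h + d) (lf h d j a) (h - 0)), ⟨a, h - 0, Nat.sub_le _ _, rfl⟩⟩ :
            brn m h d g j) = ⟨g (pth m (h + d) (lf h d j ⟨0, h2h⟩) h), htop⟩ := by
          apply Subtype.ext
          simp only [Nat.sub_zero]
          rw [pth_lf m h d j a ⟨0, h2h⟩]
        rw [e]
      | succ s ih =>
        intro hs
        refine SimpleGraph.Reachable.trans ?_ (ih (by omega))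
        apply SimpleGraph.Adj.reachable
        rw [SimpleGraph.induce_adj]
        apply hgH
        have h1 := pth_adj m (h + d) π (lf h d j a) (h - (s + 1)) (by omega)
        have e : h - (s + 1) + 1 = h - s := by omega
        rw [e] at h1
        exact h1
    have h1 := key (h - i) (Nat.sub_le _ _)
    have e : h - (h - i) = i := by omega
    have e' : (⟨g (pth m (h + d) (lf h d j a) (h - (h - i))),
        ⟨a, h - (h - i), Nat.sub_le _ _, rfl⟩⟩ : brn m h d g j) =
        ⟨g (pth m (h + d) (lf h d j a) i), ⟨a, i, hi, rfl⟩⟩ := by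
      apply Subtype.ext
      simp only [e]
    rw [e'] at h1
    exact h1
  have hne : Nonempty (brn m h d g j) := ⟨⟨_, htop⟩⟩
  exact ⟨fun u v => (hall u).trans (hall v).symm⟩

lemma brn_disj {U : Type*} (m h d : ℕ) (g : V m (h + d) → U) (hg : Function.Injective g)
    (j j' : Fin (2 ^ d)) (v : U) (hv : v ∈ brn m h d g j) (hv' : v ∈ brn m h d g j') : j = j' := by
  obtain ⟨a, i, hi, hv⟩ := hv
  obtain ⟨a', i', hi', hv'⟩ := hv'
  have h1 := hg (hv.trans hv'.symm)
  unfold pth at h1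
  have h2 : leaf (h + d) (lf h d j a) / 2 ^ i = leaf (h + d) (lf h d j' a') / 2 ^ i' :=
    congrArg Fin.val (Sum.inl.inj h1)
  have hlow : ∀ (c : Fin (2 ^ (h + d))) (i : ℕ), i ≤ h → 2 ^ (h + d - i) ≤ leaf (h + d) c / 2 ^ i ∧
      leaf (h + d) c / 2 ^ i < 2 ^ (h + d - i + 1) := by
    intro c i hi
    have h3 : leaf (h + d) c = 2 ^ (h + d) + c := rfl
    have h4 := c.2
    constructor
    · rw [Nat.le_div_iff_mul_le (by positivity), ← pow_add]
      have e : h + d - i + i = h + d := by omega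
      rw [e]
      omega
    · rw [Nat.div_lt_iff_lt_mul (by positivity), ← pow_add]
      have e : h + d - i + 1 + i = h + d + 1 := by omega
      rw [e, pow_succ]
      omega
  have ha := hlow (lf h d j a) i hi
  have ha' := hlow (lf h d j' a') i' hi'
  rw [h2] at ha
  have hii : i = i' := by
    rcases lt_trichotomy i i' with h3 | h3 | h3
    · have h4 : 2 ^ (h + d - i' + 1) ≤ 2 ^ (h + d - i) :=
        Nat.pow_le_pow_right (by norm_num) (by omega)
      omega
    · exact h3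
    · have h4 : 2 ^ (h + d - i + 1) ≤ 2 ^ (h + d - i') :=
        Nat.pow_le_pow_right (by norm_num) (by omega)
      omega
  subst hii
  have h3 := leaf_lf h d j a
  have h4 := leaf_lf h d j' a'
  have e : 2 ^ h = 2 ^ i * 2 ^ (h - i) := by
    rw [← pow_add]
    congr 1
    omega
  rw [e, ← Nat.div_div_eq_div_mul] at h3 h4
  rw [h2, h4] at h3
  exact Fin.ext (by omega)

/-- the covering criterion, finite hosts -/
theorem cover_fin (D k j : ℕ) (hj1 : 1 ≤ j) (hjk : j ≤ k) : ∃ M K₂ : ℕ, 1 ≤ K₂ ∧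
    ∀ C h, K₂ ^ (C + 1) ≤ h → ∀ m, 0 < m → M * m ≤ h → ∀ π : Fin (2 ^ h) → Equiv.Perm (Fin m), Function.Injective π →
    ∀ n : ℕ, n ^ (8 * k) ≤ 2 ^ (h * (8 * k + 1)) →
    ∀ (H : SimpleGraph (Fin n)) (g : V m h → Fin n), Function.Injective g →
    (∀ u v, (HG m h π).Adj u v → H.Adj (g u) (g v)) →
    ∀ (W ι : Type) [Finite W] (G : SimpleGraph W),
    (∀ x, (G.neighborSet x).Finite ∧ (G.neighborSet x).ncard ≤ D) →
    ∀ (V : ι → Set W), (∀ i, (V i).ncard ≤ n ^ (C * Nat.log 2 n)) →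
    (∀ x, {i | x ∈ V i}.Finite ∧ {i | x ∈ V i}.ncard ^ k ≤ n ^ (j - 1)) →
    (∀ f, Cop G H f → ∃ X : Set (Fin n), X.ncard ^ k ≤ n ^ (k - j) ∧
      ∀ A : Set (Fin n), (H.induce A).Connected → Disjoint A X → ∃ i, ∀ v ∈ A, f v ∈ V i) →
    ∃ c : W → W → Bool, (∀ x y, c x y = c y x) ∧ ∀ b, ¬ ∃ f : Fin n → W,
      Cop G H f ∧ ∀ u v, H.Adj u v → c (f u) (f v) = b := by
  classical
  have hk1 : 1 ≤ k := hj1.trans hjk
  obtain ⟨M, K₁, hK1, heng⟩ := engine D (8 * k) (by omega)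
  refine ⟨4 * k * M, 8 * k * K₁ ^ (64 * k ^ 2 + 1),
    Nat.one_le_iff_ne_zero.2 (by positivity), ?_⟩
  intro C h hh m hm hmh π hπ n hn H g hg hgH W ι _ G hD V hV hmult hcop
  have := Fintype.ofFinite W
  have hK3 : 8 * k * K₁ ^ (64 * C * k ^ 2 + 1) ≤ h := by
    refine le_trans ?_ hh
    rw [mul_pow, ← pow_mul]
    refine Nat.mul_le_mul (Nat.le_self_pow (Nat.succ_ne_zero _) _)
      (Nat.pow_le_pow_right hK1 ?_)
    nlinarith
  have hKpos : 1 ≤ K₁ ^ (64 * C * k ^ 2 + 1) := Nat.one_le_pow _ _ hK1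
  have hh1 : 8 * k ≤ h := le_trans (Nat.le_mul_of_pos_right _ hKpos) hK3
  have hh2 : 4 * k * K₁ ^ (64 * C * k ^ 2 + 1) ≤ h :=
    le_trans (Nat.mul_le_mul_right _ (by omega)) hK3
  obtain ⟨h', hh'⟩ : ∃ h', h' = (2 * j - 1) * h / (2 * k) := ⟨_, rfl⟩
  have hle : h' ≤ h := by
    rw [hh']
    refine Nat.div_le_of_le_mul ?_
    exact Nat.mul_le_mul_right _ (by omega)
  obtain ⟨d, hd⟩ := Nat.exists_eq_add_of_le hle
  obtain ⟨num1, num2, num3⟩ := cover_num k j hj1 hjk h h' d n hh' hd hh1 hn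
  obtain ⟨hn2, hlog⟩ := log_le n h (8 * k) (by omega) hn
  clear hh'
  subst hd
  have hh3 : K₁ ^ (64 * C * k ^ 2 + 1) ≤ h' := by
    have : 4 * k * K₁ ^ (64 * C * k ^ 2 + 1) ≤ 4 * k * h' := hh2.trans num3
    exact Nat.le_of_mul_le_mul_left this (by omega)
  have hm3 : M * m ≤ h' := by
    have h1 : 4 * k * M * m ≤ 4 * k * h' := hmh.trans num3
    rw [mul_assoc (4 * k)] at h1
    exact Nat.le_of_mul_le_mul_left h1 (by omega)
  by_cases hex : ∃ f, Cop G H f
  swap
  · exact ⟨fun _ _ => true, fun _ _ => rfl, fun b ⟨f, hf, _⟩ => hex ⟨f, hf⟩⟩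
  -- a branch of every copy lies in one set
  have hbr : ∀ f, Cop G H f → ∃ (j' : Fin (2 ^ d)) (i : ι), ∀ v ∈ brn m h' d g j', f v ∈ V i := by
    intro f hf
    obtain ⟨X, hX, hA⟩ := hcop f hf
    have hXc := num2 _ hX
    obtain ⟨j', hj'⟩ : ∃ j' : Fin (2 ^ d), Disjoint (brn m h' d g j') X := by
      by_contra hcon
      push Not at hcon
      have h1 : ∀ j', ∃ x, x ∈ brn m h' d g j' ∧ x ∈ X := by
        intro j'
        obtain ⟨x, hx1, hx2⟩ := Set.not_disjoint_iff.1 (hcon j')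
        exact ⟨x, hx1, hx2⟩
      choose x hx1 hx2 using h1
      have hinj : Function.Injective x := fun j₁ j₂ h12 =>
        brn_disj m h' d g hg j₁ j₂ (x j₁) (hx1 j₁) (by rw [h12]; exact hx1 j₂)
      have h2 : (Set.range x).ncard ≤ X.ncard :=
        Set.ncard_le_ncard (by rintro _ ⟨j', rfl⟩; exact hx2 j') (Set.toFinite X)
      rw [← Set.image_univ, Set.ncard_image_of_injective _ hinj, Set.ncard_univ,
        Nat.card_eq_fintype_card, Fintype.card_fin] at h2
      omega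
    obtain ⟨i, hi⟩ := hA _ (brn_conn m h' d π H g hgH j') hj'
    exact ⟨j', i, hi⟩
  obtain ⟨f₀, hf₀⟩ := hex
  obtain ⟨j₀, i₀, -⟩ := hbr f₀ hf₀
  have hbr' : ∀ f : Fin n → W, ∃ (j' : Fin (2 ^ d)) (i : ι),
      Cop G H f → ∀ v ∈ brn m h' d g j', f v ∈ V i := by
    intro f
    by_cases hf : Cop G H f
    · obtain ⟨j', i, h1⟩ := hbr f hf
      exact ⟨j', i, fun _ => h1⟩
    · exact ⟨j₀, i₀, fun h1 => absurd h1 hf⟩
  choose br part hbp using hbr'
  have hfinι : Finite (Set.range part) := (Set.finite_range part).to_subtype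
  have := Fintype.ofFinite (Set.range part)
  -- the multiplicity
  have hneW : Nonempty W := ⟨f₀ (g (pth m (h' + d) (lf h' d j₀ ⟨0, by positivity⟩) 0))⟩
  obtain ⟨x₁, hx₁⟩ := Finite.exists_max fun x : W => {i | x ∈ V i}.ncard
  set μ := max 1 {i | x₁ ∈ V i}.ncard with hμ
  have hnpos : 0 < n := Fin.pos (g (pth m (h' + d) (lf h' d j₀ ⟨0, by positivity⟩) 0))
  have hμk : μ ^ k ≤ n ^ (j - 1) := by
    rcases le_total 1 {i | x₁ ∈ V i}.ncard with h1 | h1
    · rw [hμ, max_eq_right h1]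
      exact (hmult x₁).2
    · rw [hμ, max_eq_left h1, one_pow]
      exact Nat.one_le_iff_ne_zero.2 (by positivity)
  refine heng (64 * C * k ^ 2) h' hh3 d m hm hm3 π hπ W (Fin n) (Set.range part) G H hD g hg hgH
    (fun f => ⟨part f, f, rfl⟩) br μ (n ^ (C * Nat.log 2 n)) (le_max_left _ _)
    (Nat.one_le_iff_ne_zero.2 (by positivity)) (num1 μ hμk) ?_ ?_ ?_
  · calc n ^ (C * Nat.log 2 n) ≤ (2 ^ (2 * (h' + d))) ^ (C * Nat.log 2 n) :=
          Nat.pow_le_pow_left hn2 _
      _ = 2 ^ (2 * (h' + d) * C * Nat.log 2 n) := by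
          rw [← pow_mul]
          congr 1
          ring
      _ ≤ 2 ^ (2 * (h' + d) * C * (2 * (h' + d))) :=
          Nat.pow_le_pow_right (by norm_num) (Nat.mul_le_mul_left _ hlog)
      _ ≤ 2 ^ (64 * C * k ^ 2 * h' ^ 2) := by
          apply Nat.pow_le_pow_right (by norm_num)
          calc 2 * (h' + d) * C * (2 * (h' + d)) = 4 * C * ((h' + d) * (h' + d)) := by ring
            _ ≤ 4 * C * ((4 * k * h') * (4 * k * h')) :=
                Nat.mul_le_mul_left _ (Nat.mul_le_mul num3 num3)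
            _ = 64 * C * k ^ 2 * h' ^ 2 := by ring
  · intro j' a x
    refine ⟨Finset.univ.filter fun i : Set.range part => x ∈ V i.1, ?_, ?_⟩
    · refine le_trans ?_ ((hx₁ x).trans (le_max_right _ _))
      have h1 : ((Finset.univ.filter fun i : Set.range part => x ∈ V i.1).image
          (fun i => i.1)).card = (Finset.univ.filter fun i : Set.range part => x ∈ V i.1).card :=
        Finset.card_image_of_injective _ Subtype.val_injective
      rw [← h1, ← Set.ncard_coe_finset]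
      refine Set.ncard_le_ncard ?_ (hmult x).1
      intro i hi
      obtain ⟨i', hi', rfl⟩ := Finset.mem_image.1 (Finset.mem_coe.1 hi)
      exact (Finset.mem_filter.1 hi').2
    · intro F hF hFj hFx
      refine Finset.mem_filter.2 ⟨Finset.mem_univ _, ?_⟩
      have h1 := hbp F hF _ ⟨a, 0, Nat.zero_le _, rfl⟩
      rw [hFj, hFx] at h1
      exact h1
  · rintro ⟨P, hP⟩
    refine ⟨(Set.toFinite (V P)).toFinset, ?_, ?_⟩
    · rw [← Set.ncard_eq_toFinset_card _ (Set.toFinite (V P))]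
      exact hV P
    · intro F hF hFP a
      rw [Set.Finite.mem_toFinset]
      have h1 := hbp F hF _ ⟨a, 0, Nat.zero_le _, rfl⟩
      have h2 : part F = P := congrArg Subtype.val hFP
      rw [h2] at h1
      exact h1

end Pool.Agent.Helper57.DG
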