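import Pool.Agent.Helper45.DR.Crook

set_option autoImplicit false

/-!
# DG: the lacunary sum of tents with explicit, singly exponential scales
-/

namespace Pool.Agent.Helper57.DG

open Pool.Agent.Helper45.DR

private theorem crook_aux (Q k : ℕ) :
    ∃ (l : Fin k → ℕ) (L : ℕ) (F : (Fin k → ℕ) → ℤ) (A s : ℕ),
    L = (10 * Q + 20) ^ k ∧ (∀ i, 0 < l i ∧ l i ∣ L) ∧
    (∀ τ τ', |F τ - F τ'| ≤ A) ∧
    (∀ τ τ' : Fin k → ℕ, (∀ i, |(τ i : ℤ) - τ' i| ≤ 1) → |F τ - F τ'| ≤ s) ∧
    (∀ (i : Fin k) (c : ℕ) (τ τ' : Fin k → ℕ), τ i = c * l i → τ' i = (c + 1) * l i →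
      (∀ j, |(τ j : ℤ) - τ' j| ≤ Q * l i) → 2 * (s : ℤ) + l i ≤ 2 * |F τ - F τ'|) ∧
    2 * A ≤ 3 * L ∧ 2 * s ≤ L := by
  induction k with
  | zero =>
    refine ⟨fun _ => 1, 1, fun _ => 0, 0, 0, by simp, fun i => i.elim0, ?_, ?_,
      fun i => i.elim0, by norm_num, by norm_num⟩
    · intro τ τ'
      simp
    · intro τ τ' _
      simp
  | succ k ih =>
    obtain ⟨l, L, F, A, s, hL, hl, hA, hs, htype, hAL, hsL⟩ := ih
    have hLpos : 0 < L := by rw [hL]; positivity
    obtain ⟨B, hB⟩ : ∃ B, B = 2 * Q + 4 := ⟨_, rfl⟩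
    obtain ⟨M, hM⟩ : ∃ M, M = 5 * B * L := ⟨_, rfl⟩
    have hBL : 4 ≤ B * L := by
      have : B ≤ B * L := Nat.le_mul_of_pos_right _ hLpos
      omega
    have hM5 : M = 5 * (B * L) := by rw [hM]; ring
    have hMpos : 0 < M := by omega
    have hBA : 2 * (B * A) ≤ 3 * (B * L) := by
      calc 2 * (B * A) = B * (2 * A) := by ring
        _ ≤ B * (3 * L) := Nat.mul_le_mul_left _ hAL
        _ = 3 * (B * L) := by ring
    have hBs : 2 * (B * s) ≤ B * L := by
      calc 2 * (B * s) = B * (2 * s) := by ring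
        _ ≤ B * L := Nat.mul_le_mul_left _ hsL
    refine ⟨Fin.cons M l, M, fun τ => B * F (fun i => τ i.succ) + tent M (τ 0),
      B * A + M, B * s + 1, ?_, ?_, ?_, ?_, ?_, ?_, ?_⟩
    · rw [hM, hL, pow_succ, hB]
      ring
    · intro i
      refine Fin.cases ?_ (fun i => ?_) i
      · simp only [Fin.cons_zero]
        exact ⟨hMpos, dvd_rfl⟩
      · simp only [Fin.cons_succ]
        refine ⟨(hl i).1, (hl i).2.trans ?_⟩
        rw [hM]
        exact Dvd.intro_left _ rfl
    · intro τ τ'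
      have h1 := hA (fun i => τ i.succ) (fun i => τ' i.succ)
      have h2 := tent_amp M (τ 0) (τ' 0) hMpos
      have h3 : |(B : ℤ) * (F (fun i => τ i.succ) - F (fun i => τ' i.succ))| ≤ B * A := by
        rw [abs_mul, Nat.abs_cast]
        exact mul_le_mul_of_nonneg_left h1 (by positivity)
      have h4 := abs_add_le ((B : ℤ) * (F (fun i => τ i.succ) - F (fun i => τ' i.succ)))
        (tent M (τ 0) - tent M (τ' 0))
      have h5 : (B : ℤ) * F (fun i => τ i.succ) + tent M (τ 0) -
          (B * F (fun i => τ' i.succ) + tent M (τ' 0)) =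
          (B : ℤ) * (F (fun i => τ i.succ) - F (fun i => τ' i.succ)) +
            (tent M (τ 0) - tent M (τ' 0)) := by ring
      rw [h5]
      push_cast
      linarith
    · intro τ τ' hτ
      have h1 := hs (fun i => τ i.succ) (fun i => τ' i.succ) (fun i => hτ i.succ)
      have h2 := (tent_lip M (τ 0) (τ' 0) hMpos).trans (hτ 0)
      have h3 : |(B : ℤ) * (F (fun i => τ i.succ) - F (fun i => τ' i.succ))| ≤ B * s := by
        rw [abs_mul, Nat.abs_cast]
        exact mul_le_mul_of_nonneg_left h1 (by positivity)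
      have h4 := abs_add_le ((B : ℤ) * (F (fun i => τ i.succ) - F (fun i => τ' i.succ)))
        (tent M (τ 0) - tent M (τ' 0))
      have h5 : (B : ℤ) * F (fun i => τ i.succ) + tent M (τ 0) -
          (B * F (fun i => τ' i.succ) + tent M (τ' 0)) =
          (B : ℤ) * (F (fun i => τ i.succ) - F (fun i => τ' i.succ)) +
            (tent M (τ 0) - tent M (τ' 0)) := by ring
      rw [h5]
      push_cast
      linarith
    · intro i c τ τ' h0 h1 hclose
      have h5 : (B : ℤ) * F (fun i => τ i.succ) + tent M (τ 0) -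
          (B * F (fun i => τ' i.succ) + tent M (τ' 0)) =
          (B : ℤ) * (F (fun i => τ i.succ) - F (fun i => τ' i.succ)) +
            (tent M (τ 0) - tent M (τ' 0)) := by ring
      rw [h5]
      revert h0 h1 hclose
      refine Fin.cases ?_ (fun i => ?_) i
      · intro h0 h1 _
        simp only [Fin.cons_zero] at h0 h1 ⊢
        have h2 := tent_cross M c hMpos
        rw [← h0, ← h1] at h2
        have h3 : |(B : ℤ) * (F (fun i => τ i.succ) - F (fun i => τ' i.succ))| ≤ B * A := by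
          rw [abs_mul, Nat.abs_cast]
          exact mul_le_mul_of_nonneg_left (hA _ _) (by positivity)
        have h4 := abs_sub_abs_le_abs_sub (tent M (τ 0) - tent M (τ' 0))
          (-((B : ℤ) * (F (fun i => τ i.succ) - F (fun i => τ' i.succ))))
        rw [abs_neg, sub_neg_eq_add, h2] at h4
        have h6 : ((2 * (B * A) + 2 * (B * s) + 2 : ℕ) : ℤ) ≤ (M : ℕ) := by
          exact_mod_cast (by omega : 2 * (B * A) + 2 * (B * s) + 2 ≤ M)
        push_cast at h6 ⊢
        rw [add_comm (tent M (τ 0) - tent M (τ' 0))] at h4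
        linarith
      · intro h0 h1 hclose
        simp only [Fin.cons_succ] at h0 h1 hclose ⊢
        have h2 := htype i c (fun i => τ i.succ) (fun i => τ' i.succ) h0 h1
          (fun j => hclose j.succ)
        have h3 : (B : ℤ) * (2 * s + l i) ≤
            2 * |(B : ℤ) * (F (fun i => τ i.succ) - F (fun i => τ' i.succ))| := by
          rw [abs_mul, Nat.abs_cast]
          calc (B : ℤ) * (2 * s + l i) ≤
              B * (2 * |F (fun i => τ i.succ) - F (fun i => τ' i.succ)|) :=
                mul_le_mul_of_nonneg_left h2 (by positivity)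
            _ = _ := by ring
        have h6 := (tent_lip M (τ 0) (τ' 0) hMpos).trans (hclose 0)
        have h4 := abs_sub_abs_le_abs_sub
          ((B : ℤ) * (F (fun i => τ i.succ) - F (fun i => τ' i.succ)))
          (-(tent M (τ 0) - tent M (τ' 0)))
        rw [abs_neg, sub_neg_eq_add] at h4
        have h7 : (1 : ℤ) ≤ l i := by exact_mod_cast (hl i).1
        have h8 : (B : ℤ) = 2 * Q + 4 := by rw [hB]; push_cast; ring
        push_cast
        rw [h8] at h3 h4 ⊢
        nlinarith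
    · omega
    · omega

/-- A slow function of `k` coordinates that changes by more than `s` whenever one of the coordinates
performs a sufficiently fast crossing at its own scale; the scales divide `(10 * Q + 20) ^ k`. -/
theorem crook2 (Q k : ℕ) : ∃ (l : Fin k → ℕ) (L : ℕ) (F : (Fin k → ℕ) → ℤ) (s : ℕ),
    L = (10 * Q + 20) ^ k ∧ 0 < L ∧ (∀ i, 0 < l i ∧ l i ∣ L) ∧
    (∀ τ τ' : Fin k → ℕ, (∀ i, |(τ i : ℤ) - τ' i| ≤ 1) → |F τ - F τ'| ≤ s) ∧
    (∀ (i : Fin k) (c : ℕ) (τ τ' : Fin k → ℕ), τ i = c * l i → τ' i = (c + 1) * l i →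
      (∀ j, |(τ j : ℤ) - τ' j| ≤ Q * l i) → (s : ℤ) + 1 ≤ |F τ - F τ'|) := by
  obtain ⟨l, L, F, A, s, hL, hl, -, hs, htype, -, -⟩ := crook_aux Q k
  refine ⟨l, L, F, s, hL, by rw [hL]; positivity, hl, hs, ?_⟩
  intro i c τ τ' h0 h1 hclose
  have h2 := htype i c τ τ' h0 h1 hclose
  have h3 : (1 : ℤ) ≤ l i := by exact_mod_cast (hl i).1
  omega

end Pool.Agent.Helper57.DG
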