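import Pool.Agent.Helper57.DG.Select
import Pool.Agent.Helper57.DG.Crook2

set_option autoImplicit false

/-!
# DG: the choice of the parameters
-/

namespace Pool.Agent.Helper57.DG

open Pool.Agent.Helper45.DR Pool.Agent.Helper45.DR2

private lemma expo (b E k₀ C₀ h h₀ κ : ℕ) (hk0 : 1 ≤ k₀)
    (hE : E = 16 * k₀) (hh₀ : h₀ * E ≤ h) (hlarge : 4 * k₀ ≤ h)
    (hκ : 2 * k₀ * (C₀ + 2 * b + 7) * h ≤ κ) :
    (k₀ - 1) * h * (κ + 1) + (2 + 2 * b * h + 4 * h₀ + C₀ * h ^ 2 + κ * (4 * h₀ + 1)) * k₀ ≤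
      h * κ * k₀ := by
  obtain ⟨j, rfl⟩ : ∃ j, k₀ = j + 1 := ⟨k₀ - 1, by omega⟩
  rw [Nat.add_sub_cancel]
  have hh1 : 1 ≤ h := by omega
  have h0h : h₀ ≤ h := by
    refine le_trans ?_ hh₀
    exact Nat.le_mul_of_pos_right _ (by omega)
  -- the part with κ
  have e1 : 2 * (κ * (4 * h₀ + 1) * (j + 1)) ≤ κ * h := by
    have e2 : 16 * (j + 1) * h₀ ≤ h := by
      rw [hE] at hh₀
      linarith
    have e3 : 2 * ((4 * h₀ + 1) * (j + 1)) ≤ h := by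
      have e4 : 4 * ((4 * h₀ + 1) * (j + 1)) = 16 * (j + 1) * h₀ + 4 * (j + 1) := by ring
      omega
    calc 2 * (κ * (4 * h₀ + 1) * (j + 1)) = κ * (2 * ((4 * h₀ + 1) * (j + 1))) := by ring
      _ ≤ κ * h := Nat.mul_le_mul_left _ e3
  have e5 : 2 * ((2 + 2 * b * h + 4 * h₀ + C₀ * h ^ 2) * (j + 1) + j * h) ≤ κ * h := by
    have e6 : 2 + 2 * b * h + 4 * h₀ + C₀ * h ^ 2 + h ≤ (C₀ + 2 * b + 7) * h * h := by
      have e7 : 1 ≤ h * h := Nat.one_le_iff_ne_zero.2 (by positivity)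
      have e8 : h ≤ h * h := Nat.le_mul_of_pos_left _ hh1
      have e9 : b * h ≤ b * (h * h) := Nat.mul_le_mul_left _ e8
      nlinarith
    calc 2 * ((2 + 2 * b * h + 4 * h₀ + C₀ * h ^ 2) * (j + 1) + j * h)
        ≤ 2 * ((2 + 2 * b * h + 4 * h₀ + C₀ * h ^ 2 + h) * (j + 1)) := by
          have : (2 + 2 * b * h + 4 * h₀ + C₀ * h ^ 2 + h) * (j + 1) =
            (2 + 2 * b * h + 4 * h₀ + C₀ * h ^ 2) * (j + 1) + j * h + h := by ring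
          omega
      _ ≤ 2 * ((C₀ + 2 * b + 7) * h * h * (j + 1)) :=
          Nat.mul_le_mul_left _ (Nat.mul_le_mul_right _ e6)
      _ = 2 * (j + 1) * (C₀ + 2 * b + 7) * h * h := by ring
      _ ≤ κ * h := Nat.mul_le_mul_right _ hκ
  have e10 : h * κ * (j + 1) = j * h * κ + κ * h := by ring
  have e11 : j * h * (κ + 1) + (2 + 2 * b * h + 4 * h₀ + C₀ * h ^ 2 + κ * (4 * h₀ + 1)) * (j + 1) =
      j * h * κ + (((2 + 2 * b * h + 4 * h₀ + C₀ * h ^ 2) * (j + 1) + j * h) +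
        κ * (4 * h₀ + 1) * (j + 1)) := by ring
  rw [e10, e11]
  omega

private lemma engine_num (D b E k₀ C₀ h h₀ g₀ k T m μ N : ℕ) (hb : D + 1 ≤ 2 ^ b)
    (hk0 : 1 ≤ k₀) (hE : E = 16 * k₀) (hh₀ : h₀ = h / E)
    (hg : g₀ = 4 * E * k₀ * (C₀ + 2 * b + 7)) (hlarge : 4 * k₀ ≤ h)
    (hI : g₀ * (2 * (b * E)) ≤ 2 ^ h₀) (hT : b * (2 * T + 3 * m + 1) * E ≤ h)
    (hk : h₀ + 1 ≤ 2 * (k * (b * E))) (hμ : μ ^ k₀ ≤ 2 ^ ((k₀ - 1) * h))
    (hN : N ≤ 2 ^ (C₀ * h ^ 2)) (w : ℕ) (hw : w = b * E) (Q : ℕ) (hQ : Q ≤ 2 * (b * E)) :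
    4 * ((D + 1) ^ h * (μ * (D + 1) ^ (2 * T + 3 * m + 1)) *
      (g₀ * (Q * 2 ^ h₀)) * (N * (D + 1) ^ (2 * T + h))) *
      ((g₀ * (Q * 2 ^ h₀)) ^ (g₀ * k * w) * ((D + 1) ^ h) ^ (g₀ * k) *
      (μ * (D + 1) ^ (2 * T + 3 * m + 1)) ^ (g₀ * k * w)) ≤
        (2 ^ h) ^ (g₀ * k * w) := by
  have hEpos : 0 < E := by omega
  have hpow : ∀ e : ℕ, (D + 1) ^ e ≤ 2 ^ (b * e) := by
    intro e
    calc (D + 1) ^ e ≤ (2 ^ b) ^ e := Nat.pow_le_pow_left hb _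
      _ = 2 ^ (b * e) := by rw [← pow_mul]
  have h1 : g₀ * (Q * 2 ^ h₀) ≤ 2 ^ (2 * h₀) := by
    calc g₀ * (Q * 2 ^ h₀) ≤ g₀ * ((2 * (b * E)) * 2 ^ h₀) :=
          Nat.mul_le_mul_left _ (Nat.mul_le_mul_right _ hQ)
      _ = g₀ * (2 * (b * E)) * 2 ^ h₀ := by ring
      _ ≤ 2 ^ h₀ * 2 ^ h₀ := Nat.mul_le_mul_right _ hI
      _ = 2 ^ (2 * h₀) := by ring
  have hT' : b * (2 * T + 3 * m + 1) ≤ h₀ := by
    rw [hh₀, Nat.le_div_iff_mul_le hEpos]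
    exact hT
  have h2 : (D + 1) ^ (2 * T + 3 * m + 1) ≤ 2 ^ h₀ :=
    (hpow _).trans (Nat.pow_le_pow_right (by norm_num) hT')
  have h3 : (D + 1) ^ (2 * T + h) ≤ 2 ^ (h₀ + b * h) := by
    refine (hpow _).trans (Nat.pow_le_pow_right (by norm_num) ?_)
    have : b * (2 * T + 3 * m + 1) = b * (2 * T) + b * (3 * m + 1) := by ring
    have : b * (2 * T + h) = b * (2 * T) + b * h := by ring
    omega
  have hlt : h < E * (h₀ + 1) := by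
    rw [hh₀]
    have := Nat.lt_mul_div_succ h hEpos
    exact this
  set κ := g₀ * k * w with hκdef
  have h4 : ((D + 1) ^ h) ^ (g₀ * k) ≤ 2 ^ (κ * (h₀ + 1)) := by
    calc ((D + 1) ^ h) ^ (g₀ * k) ≤ (2 ^ (b * h)) ^ (g₀ * k) := Nat.pow_le_pow_left (hpow _) _
      _ = 2 ^ (g₀ * k * b * h) := by
          rw [← pow_mul]
          congr 1
          ring
      _ ≤ 2 ^ (g₀ * k * b * (E * (h₀ + 1))) :=
          Nat.pow_le_pow_right (by norm_num) (Nat.mul_le_mul_left _ hlt.le)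
      _ = 2 ^ (κ * (h₀ + 1)) := by
          rw [hκdef, hw]
          congr 1
          ring
  have hκ : 2 * k₀ * (C₀ + 2 * b + 7) * h ≤ κ := by
    have e1 : g₀ * (h₀ + 1) ≤ 2 * κ := by
      calc g₀ * (h₀ + 1) ≤ g₀ * (2 * (k * (b * E))) := Nat.mul_le_mul_left _ hk
        _ = 2 * κ := by rw [hκdef, hw]; ring
    have e2 : 2 * E * (2 * k₀ * (C₀ + 2 * b + 7) * h) ≤ 2 * E * κ := by
      calc 2 * E * (2 * k₀ * (C₀ + 2 * b + 7) * h) = g₀ * h := by rw [hg]; ring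
        _ ≤ g₀ * (E * (h₀ + 1)) := Nat.mul_le_mul_left _ hlt.le
        _ = E * (g₀ * (h₀ + 1)) := by ring
        _ ≤ E * (2 * κ) := Nat.mul_le_mul_left _ e1
        _ = 2 * E * κ := by ring
    exact Nat.le_of_mul_le_mul_left e2 (by positivity)
  have hh0E : h₀ * E ≤ h := by
    rw [hh₀]
    exact Nat.div_mul_le_self _ _
  have hfin := expo b E k₀ C₀ h h₀ κ hk0 hE hh0E hlarge hκ
  clear_value κ
  calc 4 * ((D + 1) ^ h * (μ * (D + 1) ^ (2 * T + 3 * m + 1)) *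
        (g₀ * (Q * 2 ^ h₀)) * (N * (D + 1) ^ (2 * T + h))) *
        ((g₀ * (Q * 2 ^ h₀)) ^ κ * ((D + 1) ^ h) ^ (g₀ * k) *
        (μ * (D + 1) ^ (2 * T + 3 * m + 1)) ^ κ)
      ≤ 4 * (2 ^ (b * h) * (μ * 2 ^ h₀) * 2 ^ (2 * h₀) *
          (2 ^ (C₀ * h ^ 2) * 2 ^ (h₀ + b * h))) *
        ((2 ^ (2 * h₀)) ^ κ * 2 ^ (κ * (h₀ + 1)) * (μ * 2 ^ h₀) ^ κ) :=
        Nat.mul_le_mul (Nat.mul_le_mul_left 4 (Nat.mul_le_mul (Nat.mul_le_mul (Nat.mul_le_mul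
          (hpow h) (Nat.mul_le_mul_left _ h2)) h1) (Nat.mul_le_mul hN h3)))
          (Nat.mul_le_mul (Nat.mul_le_mul (Nat.pow_le_pow_left h1 _) h4)
            (Nat.pow_le_pow_left (Nat.mul_le_mul_left _ h2) _))
    _ = μ ^ (κ + 1) * 2 ^ (2 + 2 * b * h + 4 * h₀ + C₀ * h ^ 2 + κ * (4 * h₀ + 1)) := by
        rw [mul_pow, ← pow_mul, ← pow_mul, show (4 : ℕ) = 2 ^ 2 by norm_num, pow_succ μ κ]
        rw [show 2 + 2 * b * h + 2 ^ 2 * h₀ + C₀ * h ^ 2 + κ * (2 ^ 2 * h₀ + 1) =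
          2 + b * h + h₀ + 2 * h₀ + C₀ * h ^ 2 + (h₀ + b * h) + 2 * h₀ * κ + κ * (h₀ + 1) +
          h₀ * κ by ring]
        simp only [pow_add]
        ring
    _ ≤ (2 ^ h) ^ κ := by
        refine le_of_pow_le_pow_left₀ (n := k₀) (by omega) (by positivity) ?_
        calc (μ ^ (κ + 1) * 2 ^ (2 + 2 * b * h + 4 * h₀ + C₀ * h ^ 2 + κ * (4 * h₀ + 1))) ^ k₀
            = (μ ^ k₀) ^ (κ + 1) *
              2 ^ ((2 + 2 * b * h + 4 * h₀ + C₀ * h ^ 2 + κ * (4 * h₀ + 1)) * k₀) := by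
              rw [mul_pow, ← pow_mul, ← pow_mul, ← pow_mul, mul_comm k₀ (κ + 1)]
          _ ≤ (2 ^ ((k₀ - 1) * h)) ^ (κ + 1) *
              2 ^ ((2 + 2 * b * h + 4 * h₀ + C₀ * h ^ 2 + κ * (4 * h₀ + 1)) * k₀) :=
              Nat.mul_le_mul_right _ (Nat.pow_le_pow_left hμ _)
          _ = 2 ^ ((k₀ - 1) * h * (κ + 1) +
              (2 + 2 * b * h + 4 * h₀ + C₀ * h ^ 2 + κ * (4 * h₀ + 1)) * k₀) := by
              rw [← pow_mul, ← pow_add]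
          _ ≤ 2 ^ (h * κ * k₀) := Nat.pow_le_pow_right (by norm_num) hfin
          _ = ((2 ^ h) ^ κ) ^ k₀ := by rw [← pow_mul, ← pow_mul, mul_assoc]

theorem engine (D k₀ : ℕ) (hk0 : 1 ≤ k₀) : ∃ M K₁ : ℕ, 1 ≤ K₁ ∧
    ∀ C₀ h, K₁ ^ (C₀ + 1) ≤ h → ∀ d m, 0 < m → M * m ≤ h →
    ∀ π : Fin (2 ^ (h + d)) → Equiv.Perm (Fin m), Function.Injective π →
    ∀ (W U ι : Type) [Fintype W] [Fintype ι] (G : SimpleGraph W) (H : SimpleGraph U),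
    (∀ x, (G.neighborSet x).Finite ∧ (G.neighborSet x).ncard ≤ D) →
    ∀ g : V m (h + d) → U, Function.Injective g →
    (∀ u v, (HG m (h + d) π).Adj u v → H.Adj (g u) (g v)) →
    ∀ (part : (U → W) → ι) (br : (U → W) → Fin (2 ^ d)) (μ N : ℕ), 1 ≤ μ → 1 ≤ N →
    μ ^ k₀ ≤ 2 ^ ((k₀ - 1) * h) → N ≤ 2 ^ (C₀ * h ^ 2) →
    (∀ (j : Fin (2 ^ d)) (a : Fin (2 ^ h)) (x : W), ∃ S : Finset ι, S.card ≤ μ ∧
      ∀ F, Cop G H F → br F = j → F (g (pth m (h + d) (lf h d j a) 0)) = x → part F ∈ S) →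
    (∀ P : ι, ∃ S : Finset W, S.card ≤ N ∧
      ∀ F, Cop G H F → part F = P → ∀ a, F (g (pth m (h + d) (lf h d (br F) a) 0)) ∈ S) →
    ∃ c : W → W → Bool, (∀ x y, c x y = c y x) ∧ ∀ b, ¬ ∃ f : U → W,
      Cop G H f ∧ ∀ u v, H.Adj u v → c (f u) (f v) = b := by
  have hDb : D + 1 ≤ 2 ^ (D + 1) := Nat.lt_two_pow_self.le
  set b := D + 1 with hb
  have hbpos : 0 < b := by omega
  obtain ⟨E, hE⟩ : ∃ E, E = 16 * k₀ := ⟨_, rfl⟩
  have hE16 : 16 ≤ E := by omega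
  have hEpos : 0 < E := by omega
  have hbE : 16 ≤ b * E := hE16.trans (Nat.le_mul_of_pos_left _ hbpos)
  set C := b * E - 2 with hC
  have hC2 : C + 2 = b * E := by omega
  obtain ⟨G₁, hG₁⟩ : ∃ G₁, G₁ = 4 * E * k₀ * (2 * b + 8) := ⟨_, rfl⟩
  obtain ⟨a₁, ha₁⟩ : ∃ a₁, a₁ = E * (20 + G₁ * (2 * (b * E))) := ⟨_, rfl⟩
  obtain ⟨a₂, ha₂⟩ : ∃ a₂, a₂ = 4 * b * E * (10 * (8 * b * E) + 20) ^ (G₁ * (2 * (b * E))) :=
    ⟨_, rfl⟩
  have ha1pos : 0 < a₁ := by rw [ha₁]; positivity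
  refine ⟨8 * b * E, 2 * a₁ + a₂, by omega, ?_⟩
  intro C₀ h hh d m hm hmh π hπ W U ι _ _ G H hD g hg hgH part br μ N hμ hN1 hμk hNC hmu hN
  obtain ⟨g₀, hg₀⟩ : ∃ g₀, g₀ = 4 * E * k₀ * (C₀ + 2 * b + 7) := ⟨_, rfl⟩
  have hg0pos : 0 < g₀ := by rw [hg₀]; positivity
  have hg0le : g₀ ≤ G₁ * (C₀ + 1) := by
    rw [hg₀, hG₁, mul_assoc (4 * E * k₀)]
    refine Nat.mul_le_mul_left _ ?_
    nlinarith
  have hc2 : C₀ + 1 ≤ 2 ^ (C₀ + 1) := Nat.lt_two_pow_self.le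
  obtain ⟨l, L, F, s, hLeq, hL, hl, hs, htype⟩ := crook2 (8 * b * E)
    (Fintype.card (Fin g₀ × Fin (2 * C + 2)))
  have hr1 : E * (20 + g₀ * (2 * (b * E))) ≤ h := by
    refine le_trans ?_ hh
    calc E * (20 + g₀ * (2 * (b * E)))
        ≤ E * (20 * (C₀ + 1) + G₁ * (C₀ + 1) * (2 * (b * E))) := by
          refine Nat.mul_le_mul_left _ (Nat.add_le_add ?_ (Nat.mul_le_mul_right _ hg0le))
          omega
      _ = a₁ * (C₀ + 1) := by rw [ha₁]; ring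
      _ ≤ a₁ ^ (C₀ + 1) * 2 ^ (C₀ + 1) :=
          Nat.mul_le_mul (Nat.le_self_pow (Nat.succ_ne_zero _) _) hc2
      _ = (2 * a₁) ^ (C₀ + 1) := by rw [← mul_pow, mul_comm]
      _ ≤ (2 * a₁ + a₂) ^ (C₀ + 1) := Nat.pow_le_pow_left (Nat.le_add_right _ _) _
  have hr2 : 4 * b * E * L ≤ h := by
    refine le_trans ?_ hh
    have hcard : Fintype.card (Fin g₀ × Fin (2 * C + 2)) ≤ G₁ * (2 * (b * E)) * (C₀ + 1) := by
      rw [Fintype.card_prod, Fintype.card_fin, Fintype.card_fin]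
      calc g₀ * (2 * C + 2) ≤ (G₁ * (C₀ + 1)) * (2 * (b * E)) :=
            Nat.mul_le_mul hg0le (by omega)
        _ = G₁ * (2 * (b * E)) * (C₀ + 1) := by ring
    have h4 : 1 ≤ 4 * b * E := by
      have : 4 * b * E = 4 * (b * E) := by ring
      omega
    calc 4 * b * E * L
        ≤ (4 * b * E) ^ (C₀ + 1) *
            (10 * (8 * b * E) + 20) ^ (G₁ * (2 * (b * E)) * (C₀ + 1)) := by
          refine Nat.mul_le_mul (Nat.le_self_pow (Nat.succ_ne_zero _) _) ?_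
          rw [hLeq]
          exact Nat.pow_le_pow_right (by omega) hcard
      _ = a₂ ^ (C₀ + 1) := by rw [pow_mul, ← mul_pow, ha₂]
      _ ≤ (2 * a₁ + a₂) ^ (C₀ + 1) := Nat.pow_le_pow_left (Nat.le_add_left _ _) _
  obtain ⟨h₀, hh₀⟩ : ∃ h₀, h₀ = h / E := ⟨_, rfl⟩
  have h0big : 20 + g₀ * (2 * (b * E)) ≤ h₀ := by
    rw [hh₀, Nat.le_div_iff_mul_le hEpos, mul_comm]
    exact hr1
  have h20 : 20 ≤ h₀ := by omega
  have h2h0 : h₀ < 2 ^ h₀ := Nat.lt_two_pow_self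
  have h0h : h₀ * E ≤ h := by
    rw [hh₀]
    exact Nat.div_mul_le_self _ _
  have hpos : 0 < 4 * b * E * L := by positivity
  have ht : 0 < h / (4 * b * E * L) := Nat.div_pos hr2 hpos
  set t := h / (4 * b * E * L) with htdef
  have hA : t * (4 * b * E * L) ≤ h := Nat.div_mul_le_self _ _
  have hB : h < (t + 1) * (4 * b * E * L) := by
    rw [htdef]
    have := Nat.lt_div_mul_add (a := h) hpos
    rw [add_mul, one_mul]
    exact this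
  have hlen : h ≤ 8 * b * E * (L * t) := by
    have h3 : (t + 1) * (4 * b * E * L) ≤ (t + t) * (4 * b * E * L) :=
      Nat.mul_le_mul_right _ (by omega)
    have h4 : (t + t) * (4 * b * E * L) = 8 * b * E * (L * t) := by ring
    omega
  have hT : b * (2 * (L * t) + 3 * m + 1) * E ≤ h := by
    have e1 : b * (2 * (L * t) + 3 * m + 1) * E ≤ b * (2 * (L * t) + 4 * m) * E :=
      Nat.mul_le_mul_right _ (Nat.mul_le_mul_left _ (by omega))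
    have e2 : 2 * (b * (2 * (L * t) + 4 * m) * E) = t * (4 * b * E * L) + 8 * b * E * m := by
      ring
    omega
  have hk1 : h₀ / 2 < (h₀ / 2 / (b * E) + 1) * (b * E) := by
    have := Nat.lt_div_mul_add (a := h₀ / 2) (b := b * E) (by omega)
    rw [add_mul, one_mul]
    exact this
  obtain ⟨Y, hY⟩ := select3 G H D hD m h d hm π hπ g hg hgH C g₀ (2 ^ h₀) (h₀ / 2)
    (h₀ / 2 / (b * E) + 1) (L * t) μ N (by positivity) hg0pos (by positivity) hμ hN1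
    (by
      rw [hC2, add_mul, one_mul]
      exact Nat.add_le_add_right (Nat.div_mul_le_self _ _) _)
    (by
      refine tour_num (2 * C + 2) h₀ ?_ h20
      have e1 : 2 * (b * E) ≤ g₀ * (2 * (b * E)) := Nat.le_mul_of_pos_left _ hg0pos
      omega)
    (by
      refine engine_num D b E k₀ C₀ h h₀ g₀ _ (L * t) m μ N hDb hk0 hE hh₀ hg₀ ?_ (by omega)
        hT (by omega) hμk hNC (C + 2) hC2 (2 * C + 2) (by omega)
      have e1 : 4 * k₀ ≤ E := by omega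
      have e2 : E ≤ E * (20 + g₀ * (2 * (b * E))) := Nat.le_mul_of_pos_right _ (by omega)
      omega)
    part br hmu hN
  refine core3 G H m (h + d) h (Nat.le_add_right _ _) π g hgH (8 * b * E) _ l L F s hL hl hs
    htype t ht hlen (fun i => Y ((Fintype.equivFin _).symm i)) ?_
  intro f hf
  obtain ⟨i, a, h1, h2⟩ := hY f hf
  refine ⟨Fintype.equivFin _ i, a, ?_, ?_⟩
  · rw [Equiv.symm_apply_apply]
    exact h1
  · rw [Equiv.symm_apply_apply]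
    exact h2

end Pool.Agent.Helper57.DG
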