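import Pool.Agent.Helper57.DG.Growth

set_option autoImplicit false

/-!
# DG: from finite to infinite hosts, the final statements
-/

namespace Pool.Agent.Helper57.DG

open Pool.Agent.Helper45.DR Pool.Agent.Helper45.DR2

lemma compactness {W : Type} (G : SimpleGraph W) {n : ℕ} (H : SimpleGraph (Fin n))
    (hS : ∀ S : Finset W, ∃ c : W → W → Bool, (∀ x y, c x y = c y x) ∧
      ∀ b, ¬ ∃ f : Fin n → W, Cop G H f ∧ (∀ v, f v ∈ S) ∧
        ∀ u v, H.Adj u v → c (f u) (f v) = b) :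
    ∃ c : W → W → Bool, (∀ x y, c x y = c y x) ∧
      ∀ b, ¬ ∃ f : Fin n → W, Cop G H f ∧ ∀ u v, H.Adj u v → c (f u) (f v) = b := by
  classical
  let K : Finset W → Set (W → W → Bool) := fun S => {c | (∀ x y, c x y = c y x) ∧
    ∀ b, ¬ ∃ f : Fin n → W, Cop G H f ∧ (∀ v, f v ∈ S) ∧ ∀ u v, H.Adj u v → c (f u) (f v) = b}
  have hcont : ∀ x y : W, Continuous fun c : W → W → Bool => c x y := fun x y =>
    (continuous_apply y).comp (continuous_apply x)
  have hclosed : ∀ S, IsClosed (K S) := by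
    intro S
    have e : K S = (⋂ x, ⋂ y, {c | c x y = c y x}) ∩
        ⋂ b, ⋂ f : Fin n → W, {c | ¬ (Cop G H f ∧ (∀ v, f v ∈ S) ∧
          ∀ u v, H.Adj u v → c (f u) (f v) = b)} := by
      ext c
      simp only [K, Set.mem_inter_iff, Set.mem_iInter, Set.mem_ofPred_eq, not_exists]
    rw [e]
    refine IsClosed.inter ?_ ?_
    · exact isClosed_iInter fun x => isClosed_iInter fun y => isClosed_eq (hcont x y) (hcont y x)
    · refine isClosed_iInter fun b => isClosed_iInter fun f => ?_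
      by_cases hf : Cop G H f ∧ ∀ v, f v ∈ S
      · have e1 : {c : W → W → Bool | ¬ (Cop G H f ∧ (∀ v, f v ∈ S) ∧
            ∀ u v, H.Adj u v → c (f u) (f v) = b)} =
            (⋂ u, ⋂ v, {c : W → W → Bool | H.Adj u v → c (f u) (f v) = b})ᶜ := by
          ext c
          simp only [Set.mem_ofPred_eq, Set.mem_compl_iff, Set.mem_iInter]
          tauto
        rw [e1, isClosed_compl_iff]
        refine isOpen_iInter_of_finite fun u => isOpen_iInter_of_finite fun v => ?_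
        by_cases huv : H.Adj u v
        · have e2 : {c : W → W → Bool | H.Adj u v → c (f u) (f v) = b} =
              (fun c : W → W → Bool => c (f u) (f v)) ⁻¹' {b} := by
            ext c
            simp [huv]
          rw [e2]
          exact (isOpen_discrete _).preimage (hcont _ _)
        · have e2 : {c : W → W → Bool | H.Adj u v → c (f u) (f v) = b} = Set.univ := by
            ext c
            simp [huv]
          rw [e2]
          exact isOpen_univ
      · have e1 : {c : W → W → Bool | ¬ (Cop G H f ∧ (∀ v, f v ∈ S) ∧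
            ∀ u v, H.Adj u v → c (f u) (f v) = b)} = Set.univ := by
          ext c
          simp only [Set.mem_ofPred_eq, Set.mem_univ, iff_true]
          tauto
        rw [e1]
        exact isClosed_univ
  have hdir : Directed (· ⊇ ·) K := by
    intro S S'
    refine ⟨S ∪ S', ?_, ?_⟩
    · rintro c ⟨hc1, hc2⟩
      refine ⟨hc1, fun b => ?_⟩
      rintro ⟨f, hf, hfS, hfc⟩
      exact hc2 b ⟨f, hf, fun v => Finset.mem_union_left _ (hfS v), hfc⟩
    · rintro c ⟨hc1, hc2⟩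
      refine ⟨hc1, fun b => ?_⟩
      rintro ⟨f, hf, hfS, hfc⟩
      exact hc2 b ⟨f, hf, fun v => Finset.mem_union_right _ (hfS v), hfc⟩
  obtain ⟨c, hc⟩ := IsCompact.nonempty_iInter_of_directed_nonempty_isCompact_isClosed K hdir
    (fun S => by
      obtain ⟨c, hc⟩ := hS S
      exact ⟨c, hc⟩)
    (fun S => (hclosed S).isCompact) hclosed
  rw [Set.mem_iInter] at hc
  refine ⟨c, (hc ∅).1, ?_⟩
  rintro b ⟨f, hf, hfc⟩
  exact (hc (Finset.univ.image f)).2 b ⟨f, hf, fun v =>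
    Finset.mem_image_of_mem _ (Finset.mem_univ v), hfc⟩

/-- from the induced subgraphs to the graph -/
lemma to_finite {W : Type} (G : SimpleGraph W) {n : ℕ} (H : SimpleGraph (Fin n))
    (h : ∀ S : Finset W, ∃ c : S → S → Bool, (∀ x y, c x y = c y x) ∧
      ∀ b, ¬ ∃ f : Fin n → S, Cop (G.comap (Subtype.val : S → W)) H f ∧
        ∀ u v, H.Adj u v → c (f u) (f v) = b) :
    ∃ c : W → W → Bool, (∀ x y, c x y = c y x) ∧
      ∀ b, ¬ ∃ f : Fin n → W, Cop G H f ∧ ∀ u v, H.Adj u v → c (f u) (f v) = b := by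
  classical
  refine compactness G H fun S => ?_
  obtain ⟨c, hc1, hc2⟩ := h S
  refine ⟨fun x y => if hxy : x ∈ S ∧ y ∈ S then c ⟨x, hxy.1⟩ ⟨y, hxy.2⟩ else true, ?_, ?_⟩
  · intro x y
    beta_reduce
    by_cases hxy : x ∈ S ∧ y ∈ S
    · rw [dif_pos hxy, dif_pos hxy.symm]
      exact hc1 _ _
    · rw [dif_neg hxy, dif_neg fun h => hxy h.symm]
  · rintro b ⟨f, hf, hfS, hfc⟩
    refine hc2 b ⟨fun v => ⟨f v, hfS v⟩, ⟨?_, ?_⟩, ?_⟩
    · intro u v huv
      exact hf.1 (congrArg Subtype.val huv)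
    · intro u v huv
      rw [SimpleGraph.comap_adj]
      exact hf.2 u v huv
    · intro u v huv
      have h1 := hfc u v huv
      beta_reduce at h1
      rw [dif_pos ⟨hfS u, hfS v⟩] at h1
      exact h1

lemma comap_deg {W : Type} (G : SimpleGraph W) (D : ℕ)
    (hD : ∀ x, (G.neighborSet x).Finite ∧ (G.neighborSet x).ncard ≤ D) (S : Finset W) (x : S) :
    ((G.comap (Subtype.val : S → W)).neighborSet x).Finite ∧
      ((G.comap (Subtype.val : S → W)).neighborSet x).ncard ≤ D := by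
  refine ⟨Set.toFinite _, ?_⟩
  rw [← Set.ncard_image_of_injective _ Subtype.val_injective]
  refine (Set.ncard_le_ncard ?_ (hD x).1).trans (hD x).2
  rintro _ ⟨y, hy, rfl⟩
  exact hy

lemma comap_cop {W : Type} (G : SimpleGraph W) {n : ℕ} (H : SimpleGraph (Fin n)) (S : Finset W)
    (f : Fin n → S) (hf : Cop (G.comap (Subtype.val : S → W)) H f) :
    Cop G H (fun v => (f v : W)) :=
  ⟨fun _ _ huv => hf.1 (Subtype.ext huv), fun u v huv => hf.2 u v huv⟩

lemma comap_walk {W : Type} (G : SimpleGraph W) (S : Finset W) (x y : S)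
    (p : (G.comap (Subtype.val : S → W)).Walk x y) : G.edist x y ≤ p.length := by
  induction p with
  | nil => simp
  | @cons u v w huv p ih =>
    rw [SimpleGraph.Walk.length_cons]
    have h1 : G.edist (u : W) v ≤ 1 := by
      have hadj : G.Adj (u : W) v := huv
      exact (SimpleGraph.edist_eq_one_iff_adj.2 hadj).le
    calc G.edist (u : W) w ≤ G.edist (u : W) v + G.edist (v : W) w := SimpleGraph.edist_triangle
      _ ≤ 1 + p.length := add_le_add h1 ih
      _ = ((p.length + 1 : ℕ) : ℕ∞) := by push_cast; ring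

lemma comap_edist {W : Type} (G : SimpleGraph W) (S : Finset W) (x y : S) (R : ℕ)
    (h : (G.comap (Subtype.val : S → W)).edist x y ≤ R) : G.edist (x : W) y ≤ R := by
  have h1 : (G.comap (Subtype.val : S → W)).edist x y ≠ ⊤ := by
    intro h2
    rw [h2] at h
    exact absurd h (not_le.2 (ENat.natCast_lt_top R))
  obtain ⟨p, hp⟩ := SimpleGraph.exists_walk_of_edist_ne_top h1
  exact (comap_walk G S x y p).trans (by rw [hp]; exact h)

lemma ball_finite {W : Type} (G : SimpleGraph W) (D : ℕ)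
    (hD : ∀ x, (G.neighborSet x).Finite ∧ (G.neighborSet x).ncard ≤ D) (x : W) (R : ℕ) :
    {y | G.edist x y ≤ R}.Finite := by
  obtain ⟨P, -, hP⟩ := exists_places G D hD R x
  refine (Finset.finite_toSet P).subset ?_
  intro y hy
  rw [Finset.mem_coe]
  apply hP
  rw [Set.mem_ofPred_eq] at hy
  have h1 : G.edist x y ≠ ⊤ := by
    intro h2
    rw [h2] at hy
    exact absurd hy (not_le.2 (ENat.natCast_lt_top R))
  obtain ⟨p, hp⟩ := SimpleGraph.exists_walk_of_edist_ne_top h1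
  refine ⟨p, ?_⟩
  rw [← hp] at hy
  exact_mod_cast hy

private lemma size_num (K₂ a b : ℕ) (hK2 : 1 ≤ K₂) (n C : ℕ) (hC : 0 < C)
    (hn : (2 * K₂ ^ 2 + a + b) ^ C ≤ Nat.log 2 n) :
    a ≤ n ∧ b ≤ n ∧ 2 * K₂ ^ (C + 1) ≤ Nat.log 2 n := by
  have h1 : 2 * K₂ ^ 2 + a + b ≤ (2 * K₂ ^ 2 + a + b) ^ C := Nat.le_self_pow (by omega) _
  have h2 : Nat.log 2 n ≤ n := Nat.log_le_self 2 n
  refine ⟨by omega, by omega, ?_⟩
  refine le_trans ?_ hn
  calc 2 * K₂ ^ (C + 1) ≤ 2 ^ C * K₂ ^ (2 * C) :=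
        Nat.mul_le_mul (Nat.le_self_pow (by omega) _) (Nat.pow_le_pow_right hK2 (by omega))
    _ = (2 * K₂ ^ 2) ^ C := by rw [mul_pow, ← pow_mul]
    _ ≤ (2 * K₂ ^ 2 + a + b) ^ C := Nat.pow_le_pow_left (by omega) _

/-- both criteria -/
theorem main : ∃ H : (n : ℕ) → SimpleGraph (Fin n),
    (∀ n v, ((H n).neighborSet v).ncard ≤ 3) ∧ (∀ n, 0 < n → (H n).Connected) ∧
    (∀ D k j : ℕ, 1 ≤ j → j ≤ k → ∃ K, ∀ n C, 0 < C → K ^ C ≤ Nat.log 2 n →
      ∀ (W ι : Type) (G : SimpleGraph W),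
      (∀ x, (G.neighborSet x).Finite ∧ (G.neighborSet x).ncard ≤ D) →
      ∀ V : ι → Set W, (∀ i, (V i).Finite ∧ (V i).ncard ≤ n ^ (C * Nat.log 2 n)) →
      (∀ x, {i | x ∈ V i}.Finite ∧ {i | x ∈ V i}.ncard ^ k ≤ n ^ (j - 1)) →
      (∀ f, Cop G (H n) f → ∃ X : Set (Fin n), X.ncard ^ k ≤ n ^ (k - j) ∧
        ∀ A : Set (Fin n), ((H n).induce A).Connected → Disjoint A X →
          ∃ i, ∀ v ∈ A, f v ∈ V i) →
      ∃ c : W → W → Bool, (∀ x y, c x y = c y x) ∧ ∀ b, ¬ ∃ f : Fin n → W,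
        Cop G (H n) f ∧ ∀ u v, (H n).Adj u v → c (f u) (f v) = b) ∧
    (∀ D k : ℕ, 1 ≤ k → ∃ K, ∀ n C, 0 < C → K ^ C ≤ Nat.log 2 n →
      ∀ (W : Type) (G : SimpleGraph W),
      (∀ x, (G.neighborSet x).Finite ∧ (G.neighborSet x).ncard ≤ D) →
      (∀ f, Cop G (H n) f → ∃ v R, K * Nat.log 2 n ≤ R ∧ R ≤ C * Nat.log 2 n ^ 2 ∧
        {y | G.edist (f v) y ≤ R}.ncard ^ (2 * k) ≤ 2 ^ ((k - 2) * R)) →
      ∃ c : W → W → Bool, (∀ x y, c x y = c y x) ∧ ∀ b, ¬ ∃ f : Fin n → W,
        Cop G (H n) f ∧ ∀ u v, (H n).Adj u v → c (f u) (f v) = b) := by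
  choose H hH1 hH2 hH3 using exists_Hn
  refine ⟨H, hH1, hH2, ?_, ?_⟩
  · intro D k j hj1 hjk
    obtain ⟨M, K₂, hK2, hmain⟩ := cover_fin D k j hj1 hjk
    obtain ⟨h₂, hmm⟩ := mm_small M
    obtain ⟨h₃, hup⟩ := upper (8 * k)
    refine ⟨2 * K₂ ^ 2 + sz (max h₂ 1) + sz h₃, ?_⟩
    intro n C hC hn W ι G hD V hV hmult hcop
    obtain ⟨hna, hnb, hnc⟩ := size_num K₂ _ _ hK2 n C hC hn
    obtain ⟨ha, hb, -⟩ := hh_spec _ _ hna
    obtain ⟨π, hπ, g, hg, hgH, -⟩ := hH3 n hb
    have ha2 : h₂ ≤ hh n := (le_max_left _ _).trans ha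
    have ha3 : 1 ≤ hh n := (le_max_right _ _).trans ha
    obtain ⟨-, hlog⟩ := log_le n (hh n) (8 * k) (by omega) (hup n hnb)
    refine to_finite G (H n) fun S => ?_
    refine hmain C (hh n) (by omega) (mm (hh n)) (mm_pos _ ha3) (hmm _ ha2) π hπ n
      (hup n hnb) (H n) g hg hgH S ι
      (G.comap (Subtype.val : S → W)) (comap_deg G D hD S)
      (fun i => Subtype.val ⁻¹' V i) ?_ (fun x => hmult x) ?_
    · intro i
      refine le_trans ?_ (hV i).2
      rw [← Set.ncard_image_of_injective _ Subtype.val_injective]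
      refine Set.ncard_le_ncard ?_ (hV i).1
      rintro _ ⟨y, hy, rfl⟩
      exact hy
    · intro f hf
      exact hcop _ (comap_cop G (H n) S f hf)
  · intro D k hk1
    obtain ⟨M, K₂, hK2, hmain⟩ := growth_fin D k hk1
    obtain ⟨h₂, hmm⟩ := mm_small (M + 4)
    obtain ⟨h₃, hup⟩ := upper 1
    refine ⟨2 * K₂ ^ 2 + sz (max h₂ 10) + sz h₃, ?_⟩
    intro n C hC hn W G hD hslow
    obtain ⟨hna, hnb, hnc⟩ := size_num K₂ _ _ hK2 n C hC hn
    obtain ⟨ha, hb, -⟩ := hh_spec _ _ hna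
    obtain ⟨π, hπ, g, hg, hgH, hecc⟩ := hH3 n hb
    have ha2 : h₂ ≤ hh n := (le_max_left _ _).trans ha
    have ha3 : 10 ≤ hh n := (le_max_right _ _).trans ha
    obtain ⟨-, hlog⟩ := log_le n (hh n) 1 (by norm_num) (hup n hnb)
    have hmm' := hmm _ ha2
    have hM : M * mm (hh n) ≤ hh n := by
      refine le_trans ?_ hmm'
      exact Nat.mul_le_mul_right _ (by omega)
    have h4 : 4 * mm (hh n) ≤ hh n := by
      refine le_trans ?_ hmm'
      exact Nat.mul_le_mul_right _ (by omega)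
    have hhn : hh n ≤ Nat.log 2 n := Nat.le_log_of_pow_le (by norm_num) ((sz_lower _).trans hb)
    refine to_finite G (H n) fun S => ?_
    have := Fintype.ofFinite S
    refine hmain C (hh n) (by omega) (mm (hh n)) (mm_pos _ (by omega)) hM π hπ n hlog (H n) g hg
      hgH ?_ S (G.comap (Subtype.val : S → W)) (comap_deg G D hD S) ?_
    · intro a v
      obtain ⟨p, hp⟩ := hecc a v
      exact ⟨p, by omega⟩
    · intro f hf
      obtain ⟨v, R, hR1, hR2, hR3⟩ := hslow _ (comap_cop G (H n) S f hf)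
      refine ⟨v, R, ?_, hR2, ?_⟩
      · refine le_trans (Nat.mul_le_mul ?_ hhn) hR1
        have : K₂ ≤ K₂ ^ 2 := Nat.le_self_pow (by norm_num) _
        omega
      · unfold Slow
        refine (Nat.pow_le_pow_left ?_ _).trans hR3
        rw [← Set.ncard_coe_finset, ← edist_ball,
          ← Set.ncard_image_of_injective _ Subtype.val_injective]
        refine Set.ncard_le_ncard ?_ (ball_finite G D hD _ R)
        rintro _ ⟨y, hy, rfl⟩
        exact comap_edist G S _ y R hy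

lemma edist_split {W : Type} (G : SimpleGraph W) (x y : W) (R L : ℕ)
    (h : G.edist x y ≤ L) : ∃ z, G.edist x z ≤ R ∧ G.edist z y ≤ (L - R : ℕ) := by
  have h1 : G.edist x y ≠ ⊤ := by
    intro h2
    rw [h2] at h
    exact absurd h (not_le.2 (ENat.natCast_lt_top L))
  obtain ⟨p, hp⟩ := SimpleGraph.exists_walk_of_edist_ne_top h1
  rw [← hp] at h
  have h2 : p.length ≤ L := by exact_mod_cast h
  refine ⟨p.getVert R, (SimpleGraph.edist_le (p.take R)).trans ?_,
    (SimpleGraph.edist_le (p.drop R)).trans ?_⟩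
  · rw [SimpleGraph.Walk.take_length]
    exact_mod_cast min_le_left _ _
  · rw [SimpleGraph.Walk.drop_length]
    exact_mod_cast Nat.sub_le_sub_right h2 R

/-- if every vertex is slow at some scale then all are slow at a larger scale -/
lemma slow_all {W : Type} (G : SimpleGraph W) (D k Rm : ℕ)
    (hD : ∀ x, (G.neighborSet x).Finite ∧ (G.neighborSet x).ncard ≤ D)
    (h : ∀ x, ∃ R, 1 ≤ R ∧ R ≤ Rm ∧
      {y | G.edist x y ≤ (R : ℕ)}.ncard ^ (2 * k) ≤ 2 ^ ((k - 2) * R)) :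
    ∀ L x, {y | G.edist x y ≤ (L : ℕ)}.ncard ^ (2 * k) ≤ 2 ^ ((k - 2) * (L + Rm)) := by
  classical
  intro L
  induction L using Nat.strong_induction_on with
  | _ L ih =>
    intro x
    obtain ⟨R, hR1, hRm, hR⟩ := h x
    rcases le_total L R with hLR | hLR
    · refine (Nat.pow_le_pow_left (Set.ncard_le_ncard ?_ (ball_finite G D hD x R)) _).trans
        (hR.trans (Nat.pow_le_pow_right (by norm_num) (Nat.mul_le_mul_left _ (by omega))))
      intro y hy
      rw [Set.mem_ofPred_eq] at hy ⊢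
      exact hy.trans (by exact_mod_cast hLR)
    · let P : W → ℕ → Finset W := fun x r => (ball_finite G D hD x r).toFinset
      have hP : ∀ x r y, y ∈ P x r ↔ G.edist x y ≤ (r : ℕ) := by
        intro x r y
        simp [P]
      have hPc : ∀ x r, (P x r).card = {y | G.edist x y ≤ (r : ℕ)}.ncard := by
        intro x r
        rw [Set.ncard_eq_toFinset_card _ (ball_finite G D hD x r)]
      have hne : (P x R).Nonempty := ⟨x, by rw [hP]; simp⟩
      obtain ⟨y₁, -, hy₁⟩ := Finset.exists_max_image (P x R) (fun y => (P y (L - R)).card) hne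
      have hsub : P x L ⊆ (P x R).biUnion fun y => P y (L - R) := by
        intro y hy
        rw [hP] at hy
        obtain ⟨z, hz1, hz2⟩ := edist_split G x y R L hy
        exact Finset.mem_biUnion.2 ⟨z, (hP _ _ _).2 hz1, (hP _ _ _).2 hz2⟩
      have hcard : (P x L).card ≤ (P x R).card * (P y₁ (L - R)).card :=
        (Finset.card_le_card hsub).trans
          (Finset.card_biUnion_le_card_mul _ _ _ fun y hy => hy₁ y hy)
      have h1 := ih (L - R) (by omega) y₁
      rw [hPc, hPc, hPc] at hcard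
      calc {y | G.edist x y ≤ (L : ℕ)}.ncard ^ (2 * k)
          ≤ ({y | G.edist x y ≤ (R : ℕ)}.ncard *
              {y | G.edist y₁ y ≤ ((L - R : ℕ) : ℕ)}.ncard) ^ (2 * k) :=
            Nat.pow_le_pow_left hcard _
        _ = {y | G.edist x y ≤ (R : ℕ)}.ncard ^ (2 * k) *
              {y | G.edist y₁ y ≤ ((L - R : ℕ) : ℕ)}.ncard ^ (2 * k) := mul_pow _ _ _
        _ ≤ 2 ^ ((k - 2) * R) * 2 ^ ((k - 2) * (L - R + Rm)) := Nat.mul_le_mul hR h1
        _ = 2 ^ ((k - 2) * (L + Rm)) := by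
            rw [← pow_add, ← mul_add]
            congr 2
            omega

/-- the colouring as a function of the edges -/
lemma sym {W : Type} {n : ℕ} (G : SimpleGraph W) (H : SimpleGraph (Fin n))
    (h : ∃ c : W → W → Bool, (∀ x y, c x y = c y x) ∧ ∀ b, ¬ ∃ f : Fin n → W,
      Cop G H f ∧ ∀ u v, H.Adj u v → c (f u) (f v) = b) :
    ∃ c : Sym2 W → Bool, ∀ (b : Bool) (f : H.Copy G), ∃ u v, H.Adj u v ∧ c s(f u, f v) ≠ b := by
  obtain ⟨c, hc, hcc⟩ := h
  refine ⟨Sym2.lift ⟨c, hc⟩, ?_⟩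
  intro b f
  by_contra hcon
  push Not at hcon
  refine hcc b ⟨f, ⟨f.injective, fun u v huv => f.toHom.map_adj huv⟩, ?_⟩
  intro u v huv
  have h1 := hcon u v huv
  rwa [Sym2.lift_mk] at h1

end Pool.Agent.Helper57.DG
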