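import Pool.Agent.Helper57.DG.Select

set_option autoImplicit false

/-!
# DG: random partitions by truncated geometric shifts

Every vertex `u` draws a shift `δ u` in `0, ..., R` with `P (δ u ≥ t) = q ^ t`, and the cluster of
`y` is a vertex `u` with the greatest `δ u - d (u, y)`.  If the balls of radius `R` have at most `β`
vertices then, by the local lemma, the shifts can be chosen so that every ball of radius `ρ` meets
few clusters.
-/

namespace Pool.Agent.Helper57.DG

open Finset Pool.Agent.Helper45.DR Pool.Agent.Helper61.LE Pool.Agent.Helper5.AVD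

/-- the tail of the distribution -/
noncomputable def tl (R : ℕ) (q : ℝ) (t : ℕ) : ℝ := if t ≤ R then q ^ t else 0

/-- the weights -/
noncomputable def ms (R : ℕ) (q : ℝ) (t : ℕ) : ℝ := tl R q t - tl R q (t + 1)

lemma ms_nonneg (R : ℕ) (q : ℝ) (hq0 : 0 < q) (hq1 : q < 1) (t : ℕ) : 0 ≤ ms R q t := by
  unfold ms tl
  have h1 : q ^ (t + 1) ≤ q ^ t := pow_le_pow_of_le_one hq0.le hq1.le (Nat.le_succ t)
  have h2 : 0 < q ^ t := pow_pos hq0 t
  split_ifs with h3 h4
  · linarith
  · linarith
  · omega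
  · simp

lemma ms_tail (R : ℕ) (q : ℝ) (a : ℕ) (ha : a ≤ R) :
    ∑ t : Fin (R + 1), (if a ≤ (t : ℕ) then ms R q t else 0) = q ^ a := by
  rw [Fin.sum_univ_eq_sum_range (fun t => if a ≤ t then ms R q t else 0) (R + 1)]
  have h1 : ∀ t ∈ Finset.range (R + 1), (if a ≤ t then ms R q t else 0) =
      tl R q (max a t) - tl R q (max a (t + 1)) := by
    intro t _
    by_cases h : a ≤ t
    · rw [if_pos h, max_eq_right h, max_eq_right (h.trans (Nat.le_succ t))]
      rfl
    · rw [if_neg h, max_eq_left (by omega), max_eq_left (by omega), sub_self]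
  rw [Finset.sum_congr rfl h1, Finset.sum_range_sub' (fun t => tl R q (max a t))]
  rw [max_eq_left (Nat.zero_le a), max_eq_right (by omega)]
  unfold tl
  rw [if_pos ha, if_neg (by omega), sub_zero]

lemma ms_prob (R : ℕ) (q : ℝ) (hq0 : 0 < q) (hq1 : q < 1) (W : Type*) [Fintype W]
    [DecidableEq W] : IsProb (fun (_ : W) (t : Fin (R + 1)) => ms R q t) where
  nonneg := fun _ t => ms_nonneg R q hq0 hq1 t
  sum_one := fun _ => by
    have h := ms_tail R q 0 (Nat.zero_le R)
    simpa using h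

lemma td_walk {W : Type*} (G : SimpleGraph W) (X : Set W) (T : ℕ) (x y : W) (p : G.Walk x y) :
    td G X T x ≤ td G X T y + p.length := by
  induction p with
  | nil => simp
  | cons huv p ih =>
    have h1 := td_step G X T _ _ huv
    rw [SimpleGraph.Walk.length_cons]
    omega

lemma ball_mul {W : Type*} [Fintype W] (G : SimpleGraph W) (r s γ : ℕ)
    (hs : ∀ x, (ball G x s).card ≤ γ) (x : W) :
    (ball G x (r + s)).card ≤ (ball G x r).card * γ := by
  classical
  have hsub : ball G x (r + s) ⊆ (ball G x r).biUnion fun y => ball G y s := by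
    intro z hz
    obtain ⟨p, hp⟩ := (mem_ball G x z _).1 hz
    refine Finset.mem_biUnion.2 ⟨p.getVert r, ?_, ?_⟩
    · rw [mem_ball]
      refine ⟨p.take r, ?_⟩
      rw [SimpleGraph.Walk.take_length]
      exact min_le_left _ _
    · rw [mem_ball]
      refine ⟨p.drop r, ?_⟩
      rw [SimpleGraph.Walk.drop_length]
      omega
  refine (Finset.card_le_card hsub).trans ?_
  exact Finset.card_biUnion_le_card_mul _ _ γ fun y _ => hs y

section

variable {W : Type*} [Fintype W] [DecidableEq W] (G : SimpleGraph W) (T : Set W) (R ρ μ : ℕ)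

open Classical in
/-- the bad event at `x` -/
def Bad (x : W) (δ : W → Fin (R + 1)) : Prop :=
  ∃ s ∈ Finset.range (R + 1),
    μ < (Finset.univ.filter fun u => (u ∈ T ∧ td G {u} (R + 1) x + s + 1 ≤ R) ∧
      td G {u} (R + 1) x + s ≤ (δ u : ℕ) + 2 * ρ).card ∧
    ∀ u, u ∈ T ∧ td G {u} (R + 1) x + s + 1 ≤ R → (δ u : ℕ) ≤ td G {u} (R + 1) x + s

lemma bad_prob (q : ℝ) (hq0 : 0 < q) (hq1 : q < 1) (x : W) :
    PP (fun (_ : W) (t : Fin (R + 1)) => ms R q t) (Bad G T R ρ μ x) ≤
      (R + 1) * (1 - q ^ (2 * ρ + 1)) ^ μ := by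
  classical
  have hpr := ms_prob R q hq0 hq1 W
  set γ : ℝ := q ^ (2 * ρ + 1) with hγ
  have hγ0 : 0 < γ := pow_pos hq0 _
  have hγ1 : γ < 1 := pow_lt_one₀ hq0.le hq1 (by omega)
  have h1γ : 0 < 1 - γ := by linarith
  have hone : ∀ s ∈ Finset.range (R + 1), PP (fun (_ : W) (t : Fin (R + 1)) => ms R q t)
      (fun δ : W → Fin (R + 1) =>
        μ < (Finset.univ.filter fun u => (u ∈ T ∧ td G {u} (R + 1) x + s + 1 ≤ R) ∧
          td G {u} (R + 1) x + s ≤ (δ u : ℕ) + 2 * ρ).card ∧
        ∀ u, u ∈ T ∧ td G {u} (R + 1) x + s + 1 ≤ R →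
          (δ u : ℕ) ≤ td G {u} (R + 1) x + s) ≤ (1 - γ) ^ μ := by
    intro s _
    -- the weights of the single coordinates
    let f : W → Fin (R + 1) → ℝ := fun u t =>
      if u ∈ T ∧ td G {u} (R + 1) x + s + 1 ≤ R then
        (if td G {u} (R + 1) x + s + 1 ≤ (t : ℕ) then 0 else
          if td G {u} (R + 1) x + s ≤ (t : ℕ) + 2 * ρ then 1 / (1 - γ) else 1)
      else 1
    have hf0 : ∀ u t, 0 ≤ f u t := by
      intro u t
      simp only [f]
      split_ifs <;> positivity
    have hfE : ∀ u, ∑ t : Fin (R + 1), ms R q t * f u t ≤ 1 := by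
      intro u
      by_cases hu : u ∈ T ∧ td G {u} (R + 1) x + s + 1 ≤ R
      · obtain ⟨c, hc⟩ : ∃ c, c = td G {u} (R + 1) x + s := ⟨_, rfl⟩
        have hu2 := hu.2
        have e1 : ∀ t : Fin (R + 1), ms R q t * f u t =
            (ms R q t + (if c - 2 * ρ ≤ (t : ℕ) then ms R q t else 0) * (1 / (1 - γ) - 1)) -
              (if c + 1 ≤ (t : ℕ) then ms R q t else 0) * (1 / (1 - γ)) := by
          intro t
          simp only [f]
          rw [if_pos hu, ← hc]
          by_cases h1 : c + 1 ≤ (t : ℕ)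
          · rw [if_pos h1, if_pos h1, if_pos (by omega)]
            ring
          · rw [if_neg h1, if_neg h1]
            by_cases h2 : c ≤ (t : ℕ) + 2 * ρ
            · rw [if_pos h2, if_pos (by omega)]
              ring
            · rw [if_neg h2, if_neg (by omega)]
              ring
        simp only [e1]
        rw [Finset.sum_sub_distrib, Finset.sum_add_distrib, ← Finset.sum_mul, ← Finset.sum_mul,
          ms_tail R q _ (by omega), ms_tail R q _ (by omega), hpr.sum_one u]
        have e2 : q ^ (c - 2 * ρ) * γ ≤ q ^ (c + 1) := by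
          rw [hγ, ← pow_add]
          exact pow_le_pow_of_le_one hq0.le hq1.le (by omega)
        have e3 : 1 / (1 - γ) - 1 = γ / (1 - γ) := by
          field_simp
          ring
        rw [e3]
        have e4 : q ^ (c - 2 * ρ) * (γ / (1 - γ)) ≤ q ^ (c + 1) * (1 / (1 - γ)) := by
          rw [mul_div_assoc', mul_one_div]
          exact div_le_div_of_nonneg_right e2 h1γ.le
        linarith
      · have e1 : ∀ t : Fin (R + 1), ms R q t * f u t = ms R q t := by
          intro t
          simp only [f]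
          rw [if_neg hu, mul_one]
        simp only [e1]
        exact (hpr.sum_one u).le
    have hE : EE (fun (_ : W) (t : Fin (R + 1)) => ms R q t) (fun δ => ∏ u, f u (δ u)) ≤ 1 := by
      rw [EE_prod]
      refine Finset.prod_le_one (fun u _ => ?_) (fun u _ => hfE u)
      exact Finset.sum_nonneg fun t _ => mul_nonneg (hpr.nonneg u t) (hf0 u t)
    unfold PP
    calc EE (fun (_ : W) (t : Fin (R + 1)) => ms R q t) _
        ≤ EE (fun (_ : W) (t : Fin (R + 1)) => ms R q t)
            (fun δ => (1 - γ) ^ μ * ∏ u, f u (δ u)) := by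
          refine EE_mono hpr fun δ => ?_
          split_ifs with hδ
          · obtain ⟨hcard, hno⟩ := hδ
            have e1 : ∀ u, f u (δ u) = if ((u ∈ T ∧ td G {u} (R + 1) x + s + 1 ≤ R) ∧
                td G {u} (R + 1) x + s ≤ (δ u : ℕ) + 2 * ρ) then 1 / (1 - γ) else 1 := by
              intro u
              simp only [f]
              by_cases hu : u ∈ T ∧ td G {u} (R + 1) x + s + 1 ≤ R
              · have := hno u hu
                rw [if_pos hu, if_neg (by omega)]
                by_cases h2 : td G {u} (R + 1) x + s ≤ (δ u : ℕ) + 2 * ρ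
                · rw [if_pos h2, if_pos ⟨hu, h2⟩]
                · rw [if_neg h2, if_neg (fun h => h2 h.2)]
              · rw [if_neg hu, if_neg (fun h => hu h.1)]
            simp only [e1]
            rw [Finset.prod_ite, Finset.prod_const, Finset.prod_const_one, mul_one]
            have h1 : 1 ≤ 1 / (1 - γ) := by
              rw [le_div_iff₀ h1γ]
              linarith
            calc (1 : ℝ) = (1 - γ) ^ μ * (1 / (1 - γ)) ^ μ := by
                  rw [← mul_pow, mul_one_div, div_self h1γ.ne', one_pow]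
              _ ≤ _ := mul_le_mul_of_nonneg_left (pow_le_pow_right₀ h1 hcard.le) (by positivity)
          · exact mul_nonneg (by positivity) (Finset.prod_nonneg fun u _ => hf0 u _)
      _ = (1 - γ) ^ μ * EE (fun (_ : W) (t : Fin (R + 1)) => ms R q t)
            (fun δ => ∏ u, f u (δ u)) := EE_const_mul _ _
      _ ≤ (1 - γ) ^ μ * 1 := mul_le_mul_of_nonneg_left hE (by positivity)
      _ = _ := mul_one _
  refine le_trans (PP_mono hpr fun δ hδ => ?_) ((PP_exists_le hpr (Finset.range (R + 1))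
    (fun s (δ : W → Fin (R + 1)) =>
        μ < (Finset.univ.filter fun u => (u ∈ T ∧ td G {u} (R + 1) x + s + 1 ≤ R) ∧
          td G {u} (R + 1) x + s ≤ (δ u : ℕ) + 2 * ρ).card ∧
        ∀ u, u ∈ T ∧ td G {u} (R + 1) x + s + 1 ≤ R →
          (δ u : ℕ) ≤ td G {u} (R + 1) x + s)).trans ?_)
  · obtain ⟨s, hs, hc, hno⟩ := hδ
    refine ⟨s, hs, ?_, hno⟩
    convert hc
  refine (Finset.sum_le_sum hone).trans ?_
  rw [Finset.sum_const, Finset.card_range, nsmul_eq_mul]
  push_cast
  exact le_rfl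

end

/-- the partition of the vertices in `T` -/
theorem partition {W : Type*} [Fintype W] (G : SimpleGraph W) (T : Set W) (R ρ β μ : ℕ) (q : ℝ)
    (hq0 : 0 < q) (hq1 : q < 1) (h2ρ : 2 * ρ ≤ R) (hβ : ∀ x ∈ T, (ball G x R).card ≤ β)
    (h1 : β * q ^ (R - 2 * ρ) ≤ 1 / 8)
    (h2 : β ^ 2 * ((R + 1) * (1 - q ^ (2 * ρ + 1)) ^ μ) ≤ 1 / 8) :
    ∃ cl : W → W, (∀ y ∈ T, cl y ∈ T ∧ cl y ∈ ball G y R) ∧
      ∀ x ∈ T, ∃ S : Finset W, S.card ≤ μ ∧ ∀ y ∈ ball G x ρ, y ∈ T → cl y ∈ S := by
  classical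
  have hpr := ms_prob R q hq0 hq1 W
  set pb : ℝ := (R + 1) * (1 - q ^ (2 * ρ + 1)) ^ μ with hpb
  have hγ1 : q ^ (2 * ρ + 1) < 1 := pow_lt_one₀ hq0.le hq1 (by omega)
  have hpb0 : 0 ≤ pb := by
    have : 0 < 1 - q ^ (2 * ρ + 1) := by linarith
    positivity
  have hqp0 : 0 ≤ q ^ (R - 2 * ρ) := by positivity
  -- the events
  let S : W ⊕ W → Finset W := Sum.elim (fun u => {u})
    (fun x => Finset.univ.filter fun u => u ∈ T ∧ td G {u} (R + 1) x + 1 ≤ R)
  let A : W ⊕ W → (W → Fin (R + 1)) → Prop := Sum.elim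
    (fun u δ => R - 2 * ρ ≤ (δ u : ℕ)) (fun x δ => Bad G T R ρ μ x δ)
  let J : Finset (W ⊕ W) := Finset.univ.filter fun j => Sum.elim (fun u => u ∈ T)
    (fun x => x ∈ T) j
  have hJl : ∀ u, Sum.inl u ∈ J ↔ u ∈ T := fun u => by simp [J]
  have hJr : ∀ u, Sum.inr u ∈ J ↔ u ∈ T := fun u => by simp [J]
  have hball : ∀ x u, td G {u} (R + 1) x ≤ R → u ∈ ball G x R := by
    intro x u hu
    obtain ⟨y, hy, p, hp⟩ := td_lt G {u} (R + 1) x (by omega)
    rw [Set.mem_singleton_iff] at hy
    subst hy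
    rw [mem_ball]
    exact ⟨p, by omega⟩
  have hS : ∀ x u, u ∈ S (.inr x) → u ∈ T ∧ u ∈ ball G x R := by
    intro x u hu
    have h3 := (Finset.mem_filter.1 hu).2
    exact ⟨h3.1, hball x u (by omega)⟩
  have hself : ∀ x, x ∈ ball G x R := by
    intro x
    rw [mem_ball]
    exact ⟨SimpleGraph.Walk.nil, by simp⟩
  have hdep : ∀ j ∈ J, Dep (A j) (S j) := by
    rintro (u | x) _ δ δ' hδ
    · have h3 : δ u = δ' u := hδ u (Finset.mem_singleton_self u)
      simp only [A, Sum.elim_inl, h3]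
    · have key : ∀ δ δ' : W → Fin (R + 1), (∀ i ∈ S (.inr x), δ i = δ' i) →
          Bad G T R ρ μ x δ → Bad G T R ρ μ x δ' := by
        rintro δ δ' hδ ⟨s, hs, hc, hno⟩
        have h3 : ∀ u, u ∈ T ∧ td G {u} (R + 1) x + s + 1 ≤ R → δ u = δ' u := fun u hu =>
          hδ u (Finset.mem_filter.2 ⟨Finset.mem_univ _, hu.1, by omega⟩)
        refine ⟨s, hs, ?_, ?_⟩
        · refine lt_of_lt_of_le hc (Finset.card_le_card ?_)
          intro u hu
          rw [Finset.mem_filter] at hu ⊢
          rw [← h3 u hu.2.1]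
          exact hu
        · intro u hu
          rw [← h3 u hu]
          exact hno u hu
      apply propext
      exact ⟨key δ δ' hδ, key δ' δ fun i hi => (hδ i hi).symm⟩
  have hPl : ∀ u, PP (fun (_ : W) (t : Fin (R + 1)) => ms R q t) (A (.inl u)) =
      q ^ (R - 2 * ρ) := by
    intro u
    simp only [A, Sum.elim_inl]
    rw [PP_coord hpr u (fun t : Fin (R + 1) => R - 2 * ρ ≤ (t : ℕ))]
    exact ms_tail R q _ (by omega)
  have hPr : ∀ x, PP (fun (_ : W) (t : Fin (R + 1)) => ms R q t) (A (.inr x)) ≤ pb :=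
    fun x => bad_prob G T R ρ μ q hq0 hq1 x
  have hmain : ∀ (Sl Sr : Finset W) (i : W ⊕ W), Sl.card ≤ β → Sr.card ≤ β ^ 2 →
      (∀ u ∈ T, ¬ Disjoint (S i) (S (.inl u)) → u ∈ Sl) →
      (∀ x ∈ T, ¬ Disjoint (S i) (S (.inr x)) → x ∈ Sr) →
      ∑ j ∈ J.filter (fun j => ¬ Disjoint (S i) (S j)),
        PP (fun (_ : W) (t : Fin (R + 1)) => ms R q t) (A j) ≤ 1 / 4 := by
    intro Sl Sr i hSl hSr hl hr
    rw [Finset.filter_filter, Finset.sum_filter, Fintype.sum_sum_type]
    have e1 : ∑ u : W, (if Sum.elim (fun u => u ∈ T) (fun x => x ∈ T) (Sum.inl u : W ⊕ W) ∧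
        ¬ Disjoint (S i) (S (.inl u)) then
        PP (fun (_ : W) (t : Fin (R + 1)) => ms R q t) (A (.inl u)) else 0) ≤
        β * q ^ (R - 2 * ρ) := by
      calc ∑ u : W, (if Sum.elim (fun u => u ∈ T) (fun x => x ∈ T) (Sum.inl u : W ⊕ W) ∧
            ¬ Disjoint (S i) (S (.inl u)) then
            PP (fun (_ : W) (t : Fin (R + 1)) => ms R q t) (A (.inl u)) else 0)
          ≤ ∑ u : W, (if u ∈ Sl then q ^ (R - 2 * ρ) else 0) := by
            refine Finset.sum_le_sum fun u _ => ?_
            split_ifs with h3 h4 h4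
            · rw [hPl]
            · exact absurd (hl u h3.1 h3.2) h4
            · exact hqp0
            · exact le_rfl
        _ = (Sl.card : ℝ) * q ^ (R - 2 * ρ) := by
            rw [Finset.sum_ite_mem, Finset.univ_inter, Finset.sum_const, nsmul_eq_mul]
        _ ≤ _ := mul_le_mul_of_nonneg_right (by exact_mod_cast hSl) hqp0
    have e2 : ∑ x : W, (if Sum.elim (fun u => u ∈ T) (fun x => x ∈ T) (Sum.inr x : W ⊕ W) ∧
        ¬ Disjoint (S i) (S (.inr x)) then
        PP (fun (_ : W) (t : Fin (R + 1)) => ms R q t) (A (.inr x)) else 0) ≤ β ^ 2 * pb := by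
      calc ∑ x : W, (if Sum.elim (fun u => u ∈ T) (fun x => x ∈ T) (Sum.inr x : W ⊕ W) ∧
            ¬ Disjoint (S i) (S (.inr x)) then
            PP (fun (_ : W) (t : Fin (R + 1)) => ms R q t) (A (.inr x)) else 0)
          ≤ ∑ x : W, (if x ∈ Sr then pb else 0) := by
            refine Finset.sum_le_sum fun x _ => ?_
            split_ifs with h3 h4 h4
            · exact hPr x
            · exact absurd (hr x h3.1 h3.2) h4
            · exact hpb0
            · exact le_rfl
        _ = (Sr.card : ℝ) * pb := by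
            rw [Finset.sum_ite_mem, Finset.univ_inter, Finset.sum_const, nsmul_eq_mul]
        _ ≤ _ := mul_le_mul_of_nonneg_right (by exact_mod_cast hSr) hpb0
    have e3 := add_le_add e1 e2
    refine e3.trans ?_
    linarith
  have hβ1 : ∀ x ∈ T, 1 ≤ β := fun x hx =>
    (Finset.card_pos.2 ⟨x, hself x⟩).trans_le (hβ x hx)
  obtain ⟨δ, -, hδ⟩ := lll hpr J A S hdep
    (by
      rintro (u | x) hj
      · rw [hPl]
        have h3 : (1 : ℝ) ≤ β := by exact_mod_cast hβ1 u ((hJl u).1 hj)
        nlinarith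
      · refine (hPr x).trans ?_
        have h3 : (1 : ℝ) ≤ β := by exact_mod_cast hβ1 x ((hJr x).1 hj)
        have h4 : (1 : ℝ) ≤ (β : ℝ) ^ 2 := one_le_pow₀ h3
        nlinarith)
    (by
      rintro (u | x) hj
      · have hu := (hJl u).1 hj
        refine hmain {u} (ball G u R) (.inl u) ?_ ?_ ?_ ?_
        · rw [Finset.card_singleton]
          exact hβ1 u hu
        · refine (hβ u hu).trans ?_
          rw [sq]
          exact Nat.le_mul_of_pos_left _ (hβ1 u hu)
        · intro u' _ hu'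
          simp only [S, Sum.elim_inl, Finset.disjoint_singleton, not_not] at hu'
          rw [hu']
          exact Finset.mem_singleton_self _
        · intro x _ hx
          simp only [S, Sum.elim_inl] at hx
          rw [Finset.disjoint_singleton_left, not_not] at hx
          exact ball_symm G x u R (hS x u hx).2
      · have hx0 := (hJr x).1 hj
        refine hmain (ball G x R) ((ball G x R).biUnion fun u =>
            if u ∈ T then ball G u R else ∅) (.inr x) (hβ x hx0) ?_ ?_ ?_
        · refine (Finset.card_biUnion_le_card_mul _ _ β fun u _ => ?_).trans ?_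
          · split_ifs with hu
            · exact hβ u hu
            · simp
          · rw [sq]
            exact Nat.mul_le_mul_right _ (hβ x hx0)
        · intro u _ hu
          simp only [S, Sum.elim_inl] at hu
          rw [Finset.disjoint_singleton_right, not_not] at hu
          exact (hS x u hu).2
        · intro x' _ hx'
          rw [Finset.not_disjoint_iff] at hx'
          obtain ⟨u, hu, hu'⟩ := hx'
          refine Finset.mem_biUnion.2 ⟨u, (hS x u hu).2, ?_⟩
          rw [if_pos (hS x u hu).1]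
          exact ball_symm G x' u R (hS x' u hu').2)
  have hδ1 : ∀ u ∈ T, (δ u : ℕ) < R - 2 * ρ := by
    intro u hu
    have h3 := hδ (.inl u) ((hJl u).2 hu)
    simp only [A, Sum.elim_inl, not_le] at h3
    exact h3
  have hδ2 : ∀ x ∈ T, ¬ Bad G T R ρ μ x δ := fun x hx => hδ (.inr x) ((hJr x).2 hx)
  -- the clusters
  have hcl : ∀ y : W, ∃ u : W, (y ∈ T → u ∈ T) ∧ ∀ v ∈ T, y ∈ T →
      (δ v : ℤ) - td G {v} (R + 1) y ≤ (δ u : ℤ) - td G {u} (R + 1) y := by
    intro y
    by_cases hy : y ∈ T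
    · have : Nonempty T := ⟨⟨y, hy⟩⟩
      obtain ⟨u, hu⟩ := Finite.exists_max fun u : T => (δ u.1 : ℤ) - td G {u.1} (R + 1) y
      exact ⟨u.1, fun _ => u.2, fun v hv _ => hu ⟨v, hv⟩⟩
    · exact ⟨y, fun h => absurd h hy, fun _ _ h => absurd h hy⟩
  choose cl hclT hcl using hcl
  have hmax0 : ∀ y ∈ T, td G {cl y} (R + 1) y ≤ (δ (cl y) : ℕ) := by
    intro y hy
    have h3 := hcl y y hy hy
    rw [td_zero G {y} (R + 1) y (Set.mem_singleton y)] at h3
    omega
  refine ⟨cl, ?_, ?_⟩
  · intro y hy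
    refine ⟨hclT y hy, hball _ _ ?_⟩
    have h3 := hmax0 y hy
    have h4 := (δ (cl y)).2
    omega
  · intro x hx
    have h3 := hmax0 x hx
    obtain ⟨s, hs⟩ := Nat.exists_eq_add_of_le h3
    have h4 := (δ (cl x)).2
    have h5 := hδ2 x hx
    refine ⟨Finset.univ.filter fun u => (u ∈ T ∧ td G {u} (R + 1) x + s + 1 ≤ R) ∧
      td G {u} (R + 1) x + s ≤ (δ u : ℕ) + 2 * ρ, ?_, ?_⟩
    · by_contra hcon
      refine h5 ⟨s, Finset.mem_range.2 (by omega), ?_, ?_⟩
      · have h6 := not_le.1 hcon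
        convert h6
      · intro u hu
        have h6 := hcl x u hu.1 hx
        omega
    · intro y hy hyT
      obtain ⟨p, hp⟩ := (mem_ball G x y ρ).1 hy
      have h6 := hcl y (cl x) (hclT x hx) hyT
      have h7 := td_walk G {cl y} (R + 1) x y p
      have h8 := td_walk G {cl x} (R + 1) y x p.reverse
      rw [SimpleGraph.Walk.length_reverse] at h8
      have h9 : td G {cl y} (R + 1) x + s ≤ (δ (cl y) : ℕ) + 2 * ρ := by omega
      have h10 := hδ1 (cl y) (hclT y hyT)
      exact Finset.mem_filter.2 ⟨Finset.mem_univ _, ⟨hclT y hyT, by omega⟩, h9⟩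

end Pool.Agent.Helper57.DG
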