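import Pool.Agent.Helper57.DG.Cover
import Pool.Agent.Helper57.DG.Part

set_option autoImplicit false

/-!
# DG: hosts of slow growth at some scale
-/

namespace Pool.Agent.Helper57.DG

open Pool.Agent.Helper45.DR Pool.Agent.Helper45.DR2

lemma growth_num (k : ℕ) (hk : 3 ≤ k) : ∃ h₁, ∀ C h, h₁ ≤ h → C ≤ h → ∀ R β : ℕ, 8 * k * h ≤ R →
    R ≤ C * h ^ 2 → β ^ (2 * k) ≤ 2 ^ ((k - 2) * R) → ∃ (q : ℝ) (μ : ℕ), 0 < q ∧ q < 1 ∧
    (β : ℝ) * q ^ (R - 2 * h) ≤ 1 / 8 ∧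
    (β : ℝ) ^ 2 * ((R + 1) * (1 - q ^ (2 * h + 1)) ^ μ) ≤ 1 / 8 ∧ 1 ≤ μ ∧
    μ ^ (2 * k) ≤ 2 ^ ((2 * k - 1) * h) := by
  obtain ⟨h₂, h2⟩ := poly (6 * k)
  refine ⟨max h₂ 1, ?_⟩
  intro C h hh hhC R β hR hRC hβ
  have hh2 : h₂ ≤ h := (le_max_left _ _).trans hh
  have hh1 : 1 ≤ h := (le_max_right _ _).trans hh
  obtain ⟨p, hp⟩ : ∃ p, k = p + 3 := ⟨k - 3, by omega⟩
  have e2 : k - 2 = p + 1 := by omega
  rw [e2] at hβ
  have hkR : k * h ≤ R := le_trans (Nat.mul_le_mul_right _ (by omega)) hR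
  have hR3 : 3 ≤ R := by nlinarith
  set q : ℝ := (2 : ℝ) ^ (-(((k : ℝ) - 1) / (2 * k))) with hq
  have hq0 : 0 < q := Real.rpow_pos_of_pos (by norm_num) _
  have hkr : (0 : ℝ) < k := by
    have : 0 < k := by omega
    exact_mod_cast this
  have hq2k : q ^ (2 * k) = 1 / 2 ^ (k - 1) := by
    rw [hq, ← Real.rpow_natCast, ← Real.rpow_mul (by norm_num)]
    have e3 : -(((k : ℝ) - 1) / (2 * k)) * ((2 * k : ℕ) : ℝ) = -((k - 1 : ℕ) : ℝ) := by
      have e4 : ((k - 1 : ℕ) : ℝ) = (k : ℝ) - 1 := by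
        rw [Nat.cast_sub (by omega)]
        simp
      rw [e4]
      push_cast
      field_simp
    rw [e3, Real.rpow_neg (by norm_num), Real.rpow_natCast, one_div]
  have hq1 : q < 1 := by
    by_contra hcon
    push Not at hcon
    have h3 : (1 : ℝ) ≤ q ^ (2 * k) := one_le_pow₀ hcon
    rw [hq2k] at h3
    have h4 : (1 : ℝ) < 2 ^ (k - 1) := one_lt_pow₀ (by norm_num) (by omega)
    rw [le_div_iff₀ (by positivity)] at h3
    linarith
  have hβr : (β : ℝ) ^ (2 * k) ≤ 2 ^ ((p + 1) * R) := by exact_mod_cast hβ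
  refine ⟨q, ⌈3 * R / q ^ (2 * h + 1)⌉₊, hq0, hq1, ?_, ?_, ?_, ?_⟩
  · refine le_of_pow_le_pow_left₀ (n := 2 * k) (by omega) (by norm_num) ?_
    have e9 : (q ^ (R - 2 * h)) ^ (2 * k) = (1 / 2 ^ (k - 1)) ^ (R - 2 * h) := by
      rw [← pow_mul, mul_comm, pow_mul, hq2k]
    rw [mul_pow, e9]
    have e5 : ((1 : ℝ) / 8) ^ (2 * k) = 1 / 2 ^ (6 * k) := by
      rw [one_div, inv_pow, one_div]
      congr 1
      rw [show (8 : ℝ) = 2 ^ 3 by norm_num, ← pow_mul]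
      congr 1
      ring
    rw [e5, one_div, inv_pow, ← pow_mul, ← div_eq_mul_inv]
    rw [div_le_div_iff₀ (by positivity) (by positivity), one_mul]
    calc (β : ℝ) ^ (2 * k) * 2 ^ (6 * k) ≤ 2 ^ ((p + 1) * R) * 2 ^ (6 * k) :=
          mul_le_mul_of_nonneg_right hβr (by positivity)
      _ = 2 ^ ((p + 1) * R + 6 * k) := by rw [← pow_add]
      _ ≤ 2 ^ ((k - 1) * (R - 2 * h)) := by
          apply pow_le_pow_right₀ (by norm_num)
          obtain ⟨s, hs⟩ : ∃ s, R = s + 2 * h := ⟨R - 2 * h, by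
            have : 2 * h ≤ 8 * k * h := Nat.mul_le_mul_right _ (by omega)
            omega⟩
          have e6 : k - 1 = p + 2 := by omega
          rw [e6, hs, Nat.add_sub_cancel]
          rw [hs, hp] at hR
          rw [hp]
          nlinarith
  · set γ : ℝ := q ^ (2 * h + 1) with hγ
    have hγ0 : 0 < γ := pow_pos hq0 _
    have hγ1 : γ < 1 := pow_lt_one₀ hq0.le hq1 (by omega)
    set μ := ⌈3 * (R : ℝ) / γ⌉₊ with hμ
    have h3 : 3 * (R : ℝ) ≤ γ * μ := by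
      have h4 : 3 * (R : ℝ) / γ ≤ μ := Nat.le_ceil _
      rw [div_le_iff₀ hγ0] at h4
      linarith
    have h4 : (1 - γ) ^ μ ≤ Real.exp (-(3 * (R : ℝ))) := by
      calc (1 - γ) ^ μ ≤ (Real.exp (-γ)) ^ μ := by
            refine pow_le_pow_left₀ (by linarith) ?_ _
            have := Real.add_one_le_exp (-γ)
            linarith
        _ = Real.exp (μ * (-γ)) := by rw [← Real.exp_nat_mul]
        _ ≤ Real.exp (-(3 * (R : ℝ))) := Real.exp_le_exp.2 (by linarith)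
    have h5 : (β : ℝ) ^ 2 ≤ 2 ^ R := by
      refine le_of_pow_le_pow_left₀ (n := k) (by omega) (by positivity) ?_
      rw [← pow_mul, ← pow_mul]
      refine hβr.trans (pow_le_pow_right₀ (by norm_num) ?_)
      rw [mul_comm]
      exact Nat.mul_le_mul_left _ (by omega)
    have h6 : ((R : ℝ) + 1) ≤ 2 ^ R := by
      have : R + 1 ≤ 2 ^ R := Nat.lt_two_pow_self
      exact_mod_cast this
    have h7 : (8 : ℝ) ≤ 2 ^ R := by
      calc (8 : ℝ) = 2 ^ 3 := by norm_num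
        _ ≤ 2 ^ R := pow_le_pow_right₀ (by norm_num) hR3
    have h8 : (2 : ℝ) ^ R * 2 ^ R * 2 ^ R ≤ Real.exp (3 * (R : ℝ)) := by
      have h9 : (2 : ℝ) ≤ Real.exp 1 := by
        have := Real.add_one_le_exp (1 : ℝ)
        linarith
      calc (2 : ℝ) ^ R * 2 ^ R * 2 ^ R = 2 ^ (3 * R) := by ring
        _ ≤ (Real.exp 1) ^ (3 * R) := pow_le_pow_left₀ (by norm_num) h9 _
        _ = Real.exp (3 * (R : ℝ)) := by
            rw [← Real.exp_nat_mul]
            congr 1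
            push_cast
            ring
    have h1γ : 0 ≤ (1 - γ) ^ μ := pow_nonneg (by linarith) _
    calc (β : ℝ) ^ 2 * ((R + 1) * (1 - γ) ^ μ)
        ≤ 2 ^ R * (2 ^ R * Real.exp (-(3 * (R : ℝ)))) := by
          refine mul_le_mul h5 (mul_le_mul h6 h4 h1γ (by positivity)) (by positivity)
            (by positivity)
      _ ≤ 1 / 8 := by
          rw [Real.exp_neg, ← mul_assoc, ← div_eq_mul_inv,
            div_le_div_iff₀ (Real.exp_pos _) (by norm_num), one_mul]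
          refine le_trans ?_ h8
          exact mul_le_mul_of_nonneg_left h7 (by positivity)
  · have h3 : (0 : ℝ) < R := by
      have : 0 < R := by omega
      exact_mod_cast this
    exact Nat.ceil_pos.2 (by positivity)
  · set γ : ℝ := q ^ (2 * h + 1) with hγ
    have hγ0 : 0 < γ := pow_pos hq0 _
    have hγ1 : γ < 1 := pow_lt_one₀ hq0.le hq1 (by omega)
    have hR1 : (1 : ℝ) ≤ R := by
      have : 1 ≤ R := by omega
      exact_mod_cast this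
    have h3 : ((⌈3 * (R : ℝ) / γ⌉₊ : ℕ) : ℝ) ≤ 4 * R / γ := by
      have h4 : ((⌈3 * (R : ℝ) / γ⌉₊ : ℕ) : ℝ) < 3 * R / γ + 1 :=
        Nat.ceil_lt_add_one (by positivity)
      have h5 : 1 ≤ (R : ℝ) / γ := by
        rw [le_div_iff₀ hγ0]
        linarith
      have h6 : 4 * (R : ℝ) / γ = 3 * R / γ + R / γ := by ring
      linarith
    have h4 : γ ^ (2 * k) = 1 / 2 ^ ((k - 1) * (2 * h + 1)) := by
      rw [hγ, ← pow_mul, mul_comm (2 * h + 1), pow_mul, hq2k, one_div, inv_pow, ← pow_mul,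
        one_div]
    have h5 : ((4 * R) ^ (2 * k) * 2 ^ ((k - 1) * (2 * h + 1)) : ℕ) ≤ 2 ^ ((2 * k - 1) * h) := by
      have h6 : 2 * (4 * R) ≤ (4 * h + 14) ^ 3 := by
        calc 2 * (4 * R) ≤ 2 * (4 * (h * h ^ 2)) := by
              refine Nat.mul_le_mul_left _ (Nat.mul_le_mul_left _ (hRC.trans ?_))
              exact Nat.mul_le_mul_right _ hhC
          _ = (2 * h) ^ 3 := by ring
          _ ≤ (4 * h + 14) ^ 3 := Nat.pow_le_pow_left (by omega) _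
      have h7 : 2 ^ (2 * k) * (4 * R) ^ (2 * k) ≤ 2 ^ h := by
        calc 2 ^ (2 * k) * (4 * R) ^ (2 * k) = (2 * (4 * R)) ^ (2 * k) :=
              (mul_pow 2 (4 * R) (2 * k)).symm
          _ ≤ ((4 * h + 14) ^ 3) ^ (2 * k) := Nat.pow_le_pow_left h6 _
          _ = (4 * h + 14) ^ (6 * k) := by rw [← pow_mul]; congr 1; ring
          _ ≤ 2 ^ h := h2 h hh2
      have e6 : (k - 1) * (2 * h + 1) = (p + 2) * (2 * h) + (p + 2) := by
        have : k - 1 = p + 2 := by omega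
        rw [this]
        ring
      have e7 : (2 * k - 1) * h = (p + 2) * (2 * h) + h := by
        have : 2 * k - 1 = 2 * (p + 2) + 1 := by omega
        rw [this]
        ring
      have e8 : 2 ^ ((p + 2) * (2 * h) + (p + 2)) = 2 ^ ((p + 2) * (2 * h)) * 2 ^ (p + 2) :=
        pow_add _ _ _
      have e10 : 2 ^ ((p + 2) * (2 * h) + h) = 2 ^ ((p + 2) * (2 * h)) * 2 ^ h :=
        pow_add _ _ _
      rw [e6, e7, e8, e10]
      calc (4 * R) ^ (2 * k) * (2 ^ ((p + 2) * (2 * h)) * 2 ^ (p + 2))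
          ≤ (4 * R) ^ (2 * k) * (2 ^ ((p + 2) * (2 * h)) * 2 ^ (2 * k)) :=
            Nat.mul_le_mul_left _ (Nat.mul_le_mul_left _
              (Nat.pow_le_pow_right (by norm_num) (by omega)))
        _ = 2 ^ ((p + 2) * (2 * h)) * (2 ^ (2 * k) * (4 * R) ^ (2 * k)) := by ring
        _ ≤ 2 ^ ((p + 2) * (2 * h)) * 2 ^ h := Nat.mul_le_mul_left _ h7
    have h6 : (((⌈3 * (R : ℝ) / γ⌉₊ : ℕ) : ℝ)) ^ (2 * k) ≤ ((2 ^ ((2 * k - 1) * h) : ℕ) : ℝ) := by
      calc (((⌈3 * (R : ℝ) / γ⌉₊ : ℕ) : ℝ)) ^ (2 * k) ≤ (4 * R / γ) ^ (2 * k) :=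
            pow_le_pow_left₀ (Nat.cast_nonneg _) h3 _
        _ = (((4 * R) ^ (2 * k) * 2 ^ ((k - 1) * (2 * h + 1)) : ℕ) : ℝ) := by
            rw [div_pow, h4]
            push_cast
            rw [div_div_eq_mul_div, div_one]
        _ ≤ _ := by exact_mod_cast h5
    exact_mod_cast h6

lemma edist_ball {W : Type*} [Fintype W] (G : SimpleGraph W) (x : W) (R : ℕ) :
    {y | G.edist x y ≤ R} = (ball G x R : Set W) := by
  ext y
  rw [Set.mem_ofPred_eq, Finset.mem_coe, mem_ball]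
  constructor
  · intro h
    have h1 : G.edist x y ≠ ⊤ := by
      intro h2
      rw [h2] at h
      exact absurd h (not_le.2 (ENat.natCast_lt_top R))
    obtain ⟨p, hp⟩ := SimpleGraph.exists_walk_of_edist_ne_top h1
    refine ⟨p, ?_⟩
    rw [← hp] at h
    exact_mod_cast h
  · rintro ⟨p, hp⟩
    exact (SimpleGraph.edist_le p).trans (by exact_mod_cast hp)

/-- vertices which are slow at the scale `r` -/
def Slow {W : Type*} [Fintype W] (G : SimpleGraph W) (k r : ℕ) (x : W) : Prop :=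
  (ball G x r).card ^ (2 * k) ≤ 2 ^ ((k - 2) * r)

lemma slow_mono {W : Type*} [Fintype W] (G : SimpleGraph W) (k r : ℕ) (hk : 1 ≤ k) (x : W)
    (h : Slow G k r x) : Slow G (max k 3) r x := by
  unfold Slow at *
  rcases le_total 3 k with h3 | h3
  · rw [max_eq_left h3]
    exact h
  · by_cases h4 : k = 3
    · rw [h4] at h ⊢
      exact h
    · rw [max_eq_right h3]
      have e1 : k - 2 = 0 := by omega
      rw [e1, zero_mul, pow_zero] at h
      have h5 : (ball G x r).card ≤ 1 := by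
        by_contra hcon
        have h6 : 2 ^ (2 * k) ≤ (ball G x r).card ^ (2 * k) :=
          Nat.pow_le_pow_left (by omega) _
        have h7 : 2 ≤ 2 ^ (2 * k) := by
          calc 2 = 2 ^ 1 := by norm_num
            _ ≤ 2 ^ (2 * k) := Nat.pow_le_pow_right (by norm_num) (by omega)
        omega
      calc (ball G x r).card ^ (2 * 3) ≤ 1 ^ (2 * 3) := Nat.pow_le_pow_left h5 _
        _ = 1 := one_pow _
        _ ≤ _ := Nat.one_le_two_pow

/-- the clusters at one scale -/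
lemma one_scale {W : Type*} [Fintype W] (G : SimpleGraph W) (k h C : ℕ) (hk : 3 ≤ k)
    (hnum : ∀ R β : ℕ, 8 * (2 * k) * h ≤ R → R ≤ C * h ^ 2 →
      β ^ (2 * (2 * k)) ≤ 2 ^ ((2 * k - 2) * R) → ∃ (q : ℝ) (μ : ℕ), 0 < q ∧ q < 1 ∧
      (β : ℝ) * q ^ (R - 2 * h) ≤ 1 / 8 ∧
      (β : ℝ) ^ 2 * ((R + 1) * (1 - q ^ (2 * h + 1)) ^ μ) ≤ 1 / 8 ∧ 1 ≤ μ ∧
      μ ^ (2 * (2 * k)) ≤ 2 ^ ((2 * (2 * k) - 1) * h)) (r : ℕ)
    (hr1 : (16 * k + 6) * h ≤ r) (hr2 : r ≤ C * h ^ 2) :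
    ∃ (cl : W → W) (μ : ℕ), 1 ≤ μ ∧ μ ^ (2 * (2 * k)) ≤ 2 ^ ((2 * (2 * k) - 1) * h) ∧
      (∀ z, (∃ y, Slow G k r y ∧ z ∈ ball G y (6 * h)) →
        (ball G (cl z) (r - 6 * h)).card ≤ 2 ^ r ∧ cl z ∈ ball G z (r - 6 * h)) ∧
      ∀ x, (∃ y, Slow G k r y ∧ x ∈ ball G y (6 * h)) → ∃ S : Finset W, S.card ≤ μ ∧
        ∀ z ∈ ball G x h, (∃ y, Slow G k r y ∧ z ∈ ball G y (6 * h)) → cl z ∈ S := by
  classical
  obtain ⟨R, hR⟩ : ∃ R, r = R + 6 * h := ⟨r - 6 * h, by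
    have : 6 * h ≤ (16 * k + 6) * h := Nat.mul_le_mul_right _ (by omega)
    omega⟩
  have hR1 : 8 * (2 * k) * h ≤ R := by
    have e : (16 * k + 6) * h = 8 * (2 * k) * h + 6 * h := by ring
    omega
  have hrR : r - 6 * h = R := by omega
  rw [hrR]
  let T : Set W := {z | ∃ y, Slow G k r y ∧ z ∈ ball G y (6 * h)}
  have hcard : ∀ z ∈ T, (ball G z R).card ^ (2 * (2 * k)) ≤ 2 ^ ((2 * k - 2) * R) ∧
      (ball G z R).card ≤ 2 ^ r := by
    rintro z ⟨y, hy, hz⟩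
    have h1 : (ball G z R).card ≤ (ball G y r).card := by
      refine Finset.card_le_card fun w hw => ?_
      rw [hR, add_comm]
      exact ball_trans G y z w _ _ hz hw
    have h2 : (ball G z R).card ^ (2 * k) ≤ 2 ^ ((k - 2) * r) :=
      (Nat.pow_le_pow_left h1 _).trans hy
    constructor
    · calc (ball G z R).card ^ (2 * (2 * k)) = ((ball G z R).card ^ (2 * k)) ^ 2 := by
            rw [← pow_mul]
            congr 1
            ring
        _ ≤ (2 ^ ((k - 2) * r)) ^ 2 := Nat.pow_le_pow_left h2 _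
        _ = 2 ^ (2 * ((k - 2) * r)) := by
            rw [← pow_mul]
            congr 1
            ring
        _ ≤ 2 ^ ((2 * k - 2) * R) := by
            apply Nat.pow_le_pow_right (by norm_num)
            obtain ⟨p, hp⟩ : ∃ p, k = p + 3 := ⟨k - 3, by omega⟩
            have e1 : k - 2 = p + 1 := by omega
            have e2 : 2 * k - 2 = 2 * p + 4 := by omega
            rw [e1, e2, hR]
            rw [hp] at hR1
            nlinarith
    · refine le_of_pow_le_pow_left₀ (n := 2 * k) (by omega) (by positivity) (h2.trans ?_)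
      rw [← pow_mul]
      apply Nat.pow_le_pow_right (by norm_num)
      rw [mul_comm]
      exact Nat.mul_le_mul_left _ (by omega)
  obtain ⟨β, hβ1, hβ2⟩ : ∃ β : ℕ, (∀ z ∈ T, (ball G z R).card ≤ β) ∧
      β ^ (2 * (2 * k)) ≤ 2 ^ ((2 * k - 2) * R) := by
    by_cases hT : T.Nonempty
    · obtain ⟨z₀, hz₀⟩ := hT
      have : Nonempty T := ⟨⟨z₀, hz₀⟩⟩
      obtain ⟨z₁, hz₁⟩ := Finite.exists_max fun z : T => (ball G z.1 R).card
      exact ⟨(ball G z₁.1 R).card, fun z hz => hz₁ ⟨z, hz⟩, (hcard z₁.1 z₁.2).1⟩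
    · refine ⟨0, fun z hz => absurd ⟨z, hz⟩ hT, ?_⟩
      rw [zero_pow (by omega)]
      exact Nat.zero_le _
  obtain ⟨q, μ, hq0, hq1, hn1, hn2, hμ1, hμ2⟩ := hnum R β hR1 (by omega) hβ2
  have h2hR : 2 * h ≤ R := by
    have : 2 * h ≤ 8 * (2 * k) * h := Nat.mul_le_mul_right _ (by omega)
    omega
  obtain ⟨cl, hcl, hmult⟩ := partition G T R h β μ q hq0 hq1 h2hR hβ1 hn1 hn2
  refine ⟨cl, μ, hμ1, hμ2, ?_, hmult⟩
  intro z hz
  have h1 := hcl z hz
  exact ⟨(hcard _ h1.1).2, h1.2⟩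

/-- the growth criterion, finite hosts -/
theorem growth_fin (D k : ℕ) (hk0 : 1 ≤ k) : ∃ M K₂ : ℕ, 1 ≤ K₂ ∧
    ∀ C h, K₂ ^ (C + 1) ≤ h → ∀ m, 0 < m → M * m ≤ h →
    ∀ π : Fin (2 ^ h) → Equiv.Perm (Fin m), Function.Injective π →
    ∀ n : ℕ, Nat.log 2 n ≤ 2 * h →
    ∀ (H : SimpleGraph (Fin n)) (g : V m h → Fin n), Function.Injective g →
    (∀ u v, (HG m h π).Adj u v → H.Adj (g u) (g v)) →
    (∀ a v, ∃ p : H.Walk (g (pth m h a h)) v, p.length ≤ 5 * h) →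
    ∀ (W : Type) [Fintype W] (G : SimpleGraph W),
    (∀ x, (G.neighborSet x).Finite ∧ (G.neighborSet x).ncard ≤ D) →
    (∀ f, Cop G H f → ∃ v r, K₂ * h ≤ r ∧ r ≤ C * Nat.log 2 n ^ 2 ∧ Slow G k r (f v)) →
    ∃ c : W → W → Bool, (∀ x y, c x y = c y x) ∧ ∀ b, ¬ ∃ f : Fin n → W,
      Cop G H f ∧ ∀ u v, H.Adj u v → c (f u) (f v) = b := by
  classical
  obtain ⟨k₁, hk₁⟩ : ∃ k₁, k₁ = max k 3 := ⟨_, rfl⟩
  have hk3 : 3 ≤ k₁ := by rw [hk₁]; exact le_max_right _ _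
  obtain ⟨h₂, hnum⟩ := growth_num (2 * k₁) (by omega)
  obtain ⟨h₃, hpoly⟩ := poly (24 * k₁)
  obtain ⟨M, K₁, hK1, heng⟩ := engine D (8 * k₁) (by omega)
  refine ⟨M, K₁ ^ (D + 6) + h₂ + h₃ + (16 * k₁ + 6), by omega, ?_⟩
  intro C h hh m hm hmh π hπ n hlog H g hg hgH hecc W _ G hD hslow
  obtain ⟨K₂, hK₂⟩ : ∃ K₂, K₂ = K₁ ^ (D + 6) + h₂ + h₃ + (16 * k₁ + 6) := ⟨_, rfl⟩
  rw [← hK₂] at hh hslow
  have hK2self : K₂ ≤ K₂ ^ (C + 1) := Nat.le_self_pow (Nat.succ_ne_zero _) _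
  have hh2 : h₂ ≤ h := by omega
  have hh3 : h₃ ≤ h := by omega
  have hh1 : 1 ≤ h := by omega
  have hhK : K₁ ^ (4 * C + (D + 1) + 1) ≤ h := by
    refine le_trans ?_ hh
    calc K₁ ^ (4 * C + (D + 1) + 1) ≤ K₁ ^ ((D + 6) * (C + 1)) := by
          refine Nat.pow_le_pow_right hK1 ?_
          nlinarith
      _ = (K₁ ^ (D + 6)) ^ (C + 1) := pow_mul _ _ _
      _ ≤ K₂ ^ (C + 1) := Nat.pow_le_pow_left (by omega) _
  have hhC : 4 * C ≤ h := by
    refine le_trans ?_ hh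
    have hc2 : C + 1 ≤ 2 ^ (C + 1) := Nat.lt_two_pow_self.le
    calc 4 * C ≤ 4 * (C + 1) := by omega
      _ ≤ 4 ^ (C + 1) * 2 ^ (C + 1) :=
          Nat.mul_le_mul (Nat.le_self_pow (Nat.succ_ne_zero _) _) hc2
      _ = 8 ^ (C + 1) := by
          rw [← mul_pow]
          rfl
      _ ≤ K₂ ^ (C + 1) := Nat.pow_le_pow_left (by omega) _
  obtain ⟨Rm, hRm⟩ : ∃ Rm, Rm = 4 * C * h ^ 2 := ⟨_, rfl⟩
  by_cases hex : ∃ f, Cop G H f
  swap
  · exact ⟨fun _ _ => true, fun _ _ => rfl, fun b ⟨f, hf, _⟩ => hex ⟨f, hf⟩⟩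
  obtain ⟨f₀, hf₀⟩ := hex
  have h2h : 0 < 2 ^ h := by positivity
  -- the slow vertex and the scale of a copy
  have hsl : ∀ f : Fin n → W, ∃ (v : Fin n) (r : Fin (Rm + 1)), Cop G H f →
      K₂ * h ≤ (r : ℕ) ∧ Slow G k₁ r (f v) := by
    intro f
    by_cases hf : Cop G H f
    · obtain ⟨v, r, h1, h2, h3⟩ := hslow f hf
      have h4 : r ≤ Rm := by
        rw [hRm]
        refine h2.trans ?_
        calc C * Nat.log 2 n ^ 2 ≤ C * (2 * h) ^ 2 :=
              Nat.mul_le_mul_left _ (Nat.pow_le_pow_left hlog _)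
          _ = 4 * C * h ^ 2 := by ring
      refine ⟨v, ⟨r, by omega⟩, fun _ => ⟨h1, ?_⟩⟩
      rw [hk₁]
      exact slow_mono G k r hk0 _ h3
    · exact ⟨g (pth m h ⟨0, h2h⟩ 0), 0, fun h => absurd h hf⟩
  choose vv rr hsl using hsl
  -- the clusters at all scales
  have hcls : ∀ r : Fin (Rm + 1), ∃ (cl : W → W) (μ : ℕ), 1 ≤ μ ∧
      μ ^ (2 * (2 * k₁)) ≤ 2 ^ ((2 * (2 * k₁) - 1) * h) ∧ (K₂ * h ≤ (r : ℕ) →
      (∀ z, (∃ y, Slow G k₁ r y ∧ z ∈ ball G y (6 * h)) →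
        (ball G (cl z) (r - 6 * h)).card ≤ 2 ^ (r : ℕ) ∧ cl z ∈ ball G z (r - 6 * h)) ∧
      ∀ x, (∃ y, Slow G k₁ r y ∧ x ∈ ball G y (6 * h)) → ∃ S : Finset W, S.card ≤ μ ∧
        ∀ z ∈ ball G x h, (∃ y, Slow G k₁ r y ∧ z ∈ ball G y (6 * h)) → cl z ∈ S) := by
    intro r
    by_cases hr : K₂ * h ≤ (r : ℕ)
    · obtain ⟨cl, μ, h1, h2, h3, h4⟩ := one_scale G k₁ h (4 * C) hk3
        (fun R β => hnum (4 * C) h hh2 hhC R β) r
        (le_trans (Nat.mul_le_mul_right _ (by omega)) hr) (by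
          have := r.2
          omega)
      exact ⟨cl, μ, h1, h2, fun _ => ⟨h3, h4⟩⟩
    · refine ⟨id, 1, le_rfl, ?_, fun h => absurd h hr⟩
      rw [one_pow]
      exact Nat.one_le_two_pow
  choose cl μ hμ1 hμ2 hcl using hcls
  obtain ⟨r₁, hr₁⟩ := Finite.exists_max μ
  have hroot : ∀ F, Cop G H F → ∀ a, F (g (pth m (h + 0) (lf h 0 ⟨0, by norm_num⟩ a) 0)) ∈
      ball G (F (g (pth m (h + 0) (lf h 0 ⟨0, by norm_num⟩ ⟨0, h2h⟩) h))) h := by
    intro F hF a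
    have hadj : ∀ u v, (HG m (h + 0) π).Adj u v → G.Adj ((F ∘ g) u) ((F ∘ g) v) :=
      fun u v huv => hF.2 _ _ (hgH u v huv)
    have hw := walk_pth G m (h + 0) π (F ∘ g) hadj (lf h 0 ⟨0, by norm_num⟩ a) h (by omega)
    simp only [Function.comp_apply] at hw
    rw [pth_lf m h 0 ⟨0, by norm_num⟩ a ⟨0, h2h⟩] at hw
    obtain ⟨p, hp⟩ := hw
    rw [mem_ball]
    exact ⟨p.reverse, by rw [SimpleGraph.Walk.length_reverse, hp]⟩
  have hfar : ∀ F, Cop G H F → F (g (pth m (h + 0) (lf h 0 ⟨0, by norm_num⟩ ⟨0, h2h⟩) h)) ∈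
      ball G (F (vv F)) (5 * h) := by
    intro F hF
    obtain ⟨p, hp⟩ := hecc (lf h 0 ⟨0, by norm_num⟩ ⟨0, h2h⟩) (vv F)
    let φ : H →g G := ⟨F, fun {u v} huv => hF.2 u v huv⟩
    rw [mem_ball]
    refine ⟨(p.map φ).reverse, ?_⟩
    rw [SimpleGraph.Walk.length_reverse, SimpleGraph.Walk.length_map]
    exact hp
  have hball_mono : ∀ (x y : W) (r s : ℕ), r ≤ s → y ∈ ball G x r → y ∈ ball G x s := by
    intro x y r s hrs hy
    rw [mem_ball] at *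
    obtain ⟨p, hp⟩ := hy
    exact ⟨p, hp.trans hrs⟩
  have hrootT : ∀ F, Cop G H F → ∃ y, Slow G k₁ (rr F) y ∧
      F (g (pth m (h + 0) (lf h 0 ⟨0, by norm_num⟩ ⟨0, h2h⟩) h)) ∈ ball G y (6 * h) :=
    fun F hF => ⟨F (vv F), (hsl F hF).2, hball_mono _ _ _ _ (by omega) (hfar F hF)⟩
  have hfin : ∀ j' : Fin (2 ^ 0), j' = ⟨0, by norm_num⟩ := by
    intro j'
    apply Fin.ext
    have := j'.2
    simp only [pow_zero] at this
    simp only
    omega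
  refine heng (4 * C + (D + 1)) h hhK 0 m hm hmh π hπ W (Fin n) (Fin (Rm + 1) × W) G H hD g hg hgH
    (fun F => (rr F, cl (rr F) (F (g (pth m (h + 0) (lf h 0 ⟨0, by norm_num⟩ ⟨0, h2h⟩) h)))))
    (fun _ => ⟨0, by norm_num⟩) ((Rm + 1) * μ r₁) (2 ^ Rm * (D + 1) ^ h) ?_ ?_ ?_ ?_ ?_ ?_
  · exact Nat.one_le_iff_ne_zero.2 (Nat.mul_ne_zero (by omega) (by have := hμ1 r₁; omega))
  · exact Nat.one_le_iff_ne_zero.2 (by positivity)
  · have e1 : (Rm + 1) ^ (8 * k₁) ≤ 2 ^ h := by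
      have e2 : Rm + 1 ≤ (4 * h + 14) ^ 3 := by
        calc Rm + 1 ≤ h * h ^ 2 + 1 := by
              rw [hRm]
              exact Nat.add_le_add_right (Nat.mul_le_mul_right _ hhC) _
          _ ≤ (4 * h + 14) ^ 3 := by nlinarith
      calc (Rm + 1) ^ (8 * k₁) ≤ ((4 * h + 14) ^ 3) ^ (8 * k₁) := Nat.pow_le_pow_left e2 _
        _ = (4 * h + 14) ^ (24 * k₁) := by
            rw [← pow_mul]
            congr 1
            ring
        _ ≤ 2 ^ h := hpoly h hh3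
    calc ((Rm + 1) * μ r₁) ^ (8 * k₁) = (Rm + 1) ^ (8 * k₁) * (μ r₁ ^ (2 * (2 * k₁))) ^ 2 := by
          rw [mul_pow, ← pow_mul]
          congr 2
          ring
      _ ≤ 2 ^ h * (2 ^ ((2 * (2 * k₁) - 1) * h)) ^ 2 :=
          Nat.mul_le_mul e1 (Nat.pow_le_pow_left (hμ2 r₁) _)
      _ = 2 ^ ((8 * k₁ - 1) * h) := by
          rw [← pow_mul, ← pow_add]
          congr 1
          obtain ⟨p, hp⟩ : ∃ p, 2 * (2 * k₁) = p + 1 := ⟨2 * (2 * k₁) - 1, by omega⟩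
          have e3 : 8 * k₁ - 1 = 2 * p + 1 := by omega
          rw [hp, e3, Nat.add_sub_cancel]
          ring
  · calc 2 ^ Rm * (D + 1) ^ h ≤ 2 ^ Rm * (2 ^ (D + 1)) ^ h :=
          Nat.mul_le_mul_left _ (Nat.pow_le_pow_left Nat.lt_two_pow_self.le _)
      _ = 2 ^ (Rm + (D + 1) * h) := by rw [← pow_mul, ← pow_add]
      _ ≤ 2 ^ ((4 * C + (D + 1)) * h ^ 2) := by
          apply Nat.pow_le_pow_right (by norm_num)
          have e1 : (D + 1) * h ≤ (D + 1) * h ^ 2 := Nat.mul_le_mul_left _ (by nlinarith)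
          have e2 : (4 * C + (D + 1)) * h ^ 2 = 4 * C * h ^ 2 + (D + 1) * h ^ 2 := by ring
          omega
  · intro j' a x
    have hSr : ∀ r : Fin (Rm + 1), ∃ S : Finset W, S.card ≤ μ r₁ ∧
        (K₂ * h ≤ (r : ℕ) → (∃ y, Slow G k₁ r y ∧ x ∈ ball G y (6 * h)) →
          ∀ z ∈ ball G x h, (∃ y, Slow G k₁ r y ∧ z ∈ ball G y (6 * h)) → cl r z ∈ S) := by
      intro r
      by_cases hr : K₂ * h ≤ (r : ℕ) ∧ ∃ y, Slow G k₁ r y ∧ x ∈ ball G y (6 * h)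
      · obtain ⟨S, hS, hS'⟩ := (hcl r hr.1).2 x hr.2
        exact ⟨S, hS.trans (hr₁ r), fun _ _ => hS'⟩
      · exact ⟨∅, by simp, fun h1 h2 => absurd ⟨h1, h2⟩ hr⟩
    choose S hS hS' using hSr
    refine ⟨Finset.univ.biUnion fun r : Fin (Rm + 1) => (S r).image fun P => (r, P), ?_, ?_⟩
    · refine (Finset.card_biUnion_le_card_mul _ _ (μ r₁) fun r _ =>
        Finset.card_image_le.trans (hS r)).trans ?_
      rw [Finset.card_univ, Fintype.card_fin]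
    · intro F hF _ hFx
      have h1 := hroot F hF a
      rw [hfin j'] at hFx
      rw [hFx] at h1
      refine Finset.mem_biUnion.2 ⟨rr F, Finset.mem_univ _, Finset.mem_image.2 ⟨_, ?_, rfl⟩⟩
      refine hS' (rr F) (hsl F hF).1 ⟨F (vv F), (hsl F hF).2, ?_⟩ _ (ball_symm G _ _ _ h1)
        (hrootT F hF)
      exact hball_mono _ _ _ _ (by omega) (ball_trans G _ _ _ _ _ (hfar F hF) h1)
  · rintro ⟨r, P⟩
    refine ⟨if (ball G P (r - 6 * h)).card ≤ 2 ^ (r : ℕ) then ball G P (r - 6 * h + h) else ∅,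
      ?_, ?_⟩
    · split_ifs with h1
      · refine (ball_mul G (r - 6 * h) h _ (fun x => ball_card G D hD x h) P).trans ?_
        refine Nat.mul_le_mul_right _ (h1.trans (Nat.pow_le_pow_right (by norm_num) ?_))
        have := r.2
        omega
      · simp
    · intro F hF hFP a
      rw [Prod.mk.injEq] at hFP
      obtain ⟨hr, hP⟩ := hFP
      rw [hr] at hP
      have h1 := hroot F hF a
      have h2 := hrootT F hF
      have h3 := (hsl F hF).1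
      rw [hr] at h2 h3
      obtain ⟨h4, h5⟩ := (hcl r h3).1 _ h2
      rw [hP] at h4 h5
      rw [if_pos h4]
      exact ball_trans G P _ _ _ _ (ball_symm G _ _ _ h5) h1

end Pool.Agent.Helper57.DG
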