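import Pool.Agent.Helper5.AVD.Prob

set_option autoImplicit false

/-!
# DG: random labels for all parts at once, by the local lemma

Every part `P` draws independent uniform labels `a (P, i)`.  `Vis y` are the pairs (part, label)
which are visible at the place `y`.
-/

namespace Pool.Agent.Helper57.DG

open Finset Pool.Agent.Helper61.LE Pool.Agent.Helper5.AVD

variable {ι I Λ Pt X : Type*} [Fintype ι] [Fintype I] [Fintype Λ] [Fintype X]

private lemma pp_vis [DecidableEq ι] [DecidableEq I] [DecidableEq Λ] [Nonempty Λ]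
    (V : Finset (ι × Λ)) (K : ℕ) (hV : V.card ≤ K) (i : I) :
    PP (fun (_ : ι × I) (_ : Λ) => (1 : ℝ) / Fintype.card Λ)
      (fun ω : ι × I → Λ => ∃ P, (P, ω (P, i)) ∈ V) ≤ K / Fintype.card Λ := by
  classical
  have hpr : IsProb (fun (_ : ι × I) (_ : Λ) => (1 : ℝ) / Fintype.card Λ) := isProb_unif
  have h1 : PP (fun (_ : ι × I) (_ : Λ) => (1 : ℝ) / Fintype.card Λ)
      (fun ω : ι × I → Λ => ∃ P, (P, ω (P, i)) ∈ V) ≤
      ∑ P : ι, PP (fun (_ : ι × I) (_ : Λ) => (1 : ℝ) / Fintype.card Λ)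
        (fun ω : ι × I → Λ => (P, ω (P, i)) ∈ V) := by
    refine le_trans (PP_mono hpr ?_) (PP_exists_le hpr Finset.univ
      (fun (P : ι) (ω : ι × I → Λ) => (P, ω (P, i)) ∈ V))
    rintro ω ⟨P, hP⟩
    exact ⟨P, Finset.mem_univ _, hP⟩
  refine h1.trans ?_
  have h2 : ∀ P : ι, PP (fun (_ : ι × I) (_ : Λ) => (1 : ℝ) / Fintype.card Λ)
        (fun ω : ι × I → Λ => (P, ω (P, i)) ∈ V) =
      ((V.filter fun p => p.1 = P).card : ℝ) / Fintype.card Λ := by
    intro P
    rw [PP_coord hpr (P, i) (fun a => (P, a) ∈ V)]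
    rw [← Finset.sum_filter, Finset.sum_const, nsmul_eq_mul, mul_one_div]
    congr 2
    refine Finset.card_bij (fun a _ => (P, a)) ?_ ?_ ?_
    · intro a ha
      exact Finset.mem_filter.2 ⟨(Finset.mem_filter.1 ha).2, rfl⟩
    · intro a _ a' _ h
      exact (Prod.ext_iff.1 h).2
    · rintro ⟨P', a⟩ hp
      obtain ⟨hp1, hp2⟩ := Finset.mem_filter.1 hp
      simp only at hp2
      subst hp2
      exact ⟨a, Finset.mem_filter.2 ⟨Finset.mem_univ _, hp1⟩, rfl⟩
  simp only [h2]
  rw [← Finset.sum_div]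
  refine div_le_div_of_nonneg_right ?_ (Nat.cast_nonneg _)
  have h3 : ∑ P : ι, (V.filter fun p => p.1 = P).card = V.card :=
    (Finset.card_eq_sum_card_fiberwise (fun p _ => Finset.mem_univ p.1)).symm
  have h4 : ∑ P : ι, ((V.filter fun p => p.1 = P).card : ℝ) = V.card := by
    exact_mod_cast h3
  rw [h4]
  exact_mod_cast hV

/-- labels without coincidences -/
theorem labels (Vis : Pt → Finset (ι × Λ)) (K : ℕ) (hVis : ∀ y, (Vis y).card ≤ K)
    (Pl : X → Finset Pt) (B : ℕ) (hPl : ∀ x, (Pl x).card ≤ B) (r : ℕ) (hr1 : 1 ≤ r)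
    (hK1 : 1 ≤ K) (hB1 : 1 ≤ B) (hI1 : 0 < Fintype.card I)
    (hr : ∀ P : ι, ∃ S : Finset X, S.card ≤ r ∧
      ∀ x, (∃ y ∈ Pl x, ∃ a, (P, a) ∈ Vis y) → x ∈ S) (k w : ℕ) (hne : Nonempty Λ)
    (hnum : 4 * (B * K * Fintype.card I * r) *
      ((Fintype.card I) ^ (k * w) * B ^ k * K ^ (k * w)) ≤ (Fintype.card Λ) ^ (k * w)) :
    ∃ a : ι → I → Λ, ∀ x, ¬ ∃ (e : Fin k × Fin w → I) (y : Fin k → Pt),
      Function.Injective e ∧ (∀ t, y t ∈ Pl x) ∧
        ∀ t u, ∃ P, (P, a P (e (t, u))) ∈ Vis (y t) := by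
  classical
  have hpr : IsProb (fun (_ : ι × I) (_ : Λ) => (1 : ℝ) / Fintype.card Λ) := isProb_unif
  have hL : 0 < Fintype.card Λ := Fintype.card_pos
  have hL' : (0 : ℝ) < Fintype.card Λ := by exact_mod_cast hL
  let pts : X → Finset ι := fun x => ((Pl x).biUnion Vis).image Prod.fst
  have hpts : ∀ x, (pts x).card ≤ B * K := by
    intro x
    refine Finset.card_image_le.trans ?_
    refine (Finset.card_biUnion_le_card_mul _ _ K fun y _ => hVis y).trans ?_
    exact Nat.mul_le_mul_right _ (hPl x)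
  let S : X → Finset (ι × I) := fun x => pts x ×ˢ Finset.univ
  let A : X → (ι × I → Λ) → Prop := fun x ω => ∃ (e : Fin k × Fin w → I) (y : Fin k → Pt),
      Function.Injective e ∧ (∀ t, y t ∈ Pl x) ∧
        ∀ t u, ∃ P, (P, ω (P, e (t, u))) ∈ Vis (y t)
  have hdep : ∀ x ∈ (Finset.univ : Finset X), Dep (A x) (S x) := by
    intro x _ ω ω' hω
    have key : ∀ ω ω' : ι × I → Λ, (∀ i ∈ S x, ω i = ω' i) → A x ω → A x ω' := by
      rintro ω ω' hω ⟨e, y, he, hy, h⟩
      refine ⟨e, y, he, hy, fun t u => ?_⟩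
      obtain ⟨P, hP⟩ := h t u
      refine ⟨P, ?_⟩
      rw [← hω (P, e (t, u))]
      · exact hP
      · refine Finset.mem_product.2 ⟨?_, Finset.mem_univ _⟩
        refine Finset.mem_image.2 ⟨(P, ω (P, e (t, u))), ?_, rfl⟩
        exact Finset.mem_biUnion.2 ⟨y t, hy t, hP⟩
    apply propext
    exact ⟨key ω ω' hω, key ω' ω fun i hi => (hω i hi).symm⟩
  have hone : ∀ (e : Fin k × Fin w → I) (y : Fin k → Pt), Function.Injective e →
      PP (fun (_ : ι × I) (_ : Λ) => (1 : ℝ) / Fintype.card Λ)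
        (fun ω => ∀ t u, ∃ P, (P, ω (P, e (t, u))) ∈ Vis (y t)) ≤
      ((K : ℝ) / Fintype.card Λ) ^ (k * w) := by
    intro e y he
    have h1 := PP_forall_of_disjoint hpr (Finset.univ : Finset (Fin k × Fin w))
      (fun p ω => ∃ P, (P, ω (P, e p)) ∈ Vis (y p.1))
      (fun p => (Finset.univ : Finset ι) ×ˢ {e p})
      (by
        intro p _ ω ω' hω
        apply propext
        refine exists_congr fun P => ?_
        rw [hω (P, e p)]
        exact Finset.mem_product.2 ⟨Finset.mem_univ _, Finset.mem_singleton_self _⟩)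
      (by
        intro p _ p' _ hpp
        rw [Finset.disjoint_left]
        intro q hq hq'
        have h1 := Finset.mem_singleton.1 (Finset.mem_product.1 hq).2
        have h2 := Finset.mem_singleton.1 (Finset.mem_product.1 hq').2
        exact hpp (he (h1.symm.trans h2)))
    have h2 : PP (fun (_ : ι × I) (_ : Λ) => (1 : ℝ) / Fintype.card Λ)
        (fun ω => ∀ t u, ∃ P, (P, ω (P, e (t, u))) ∈ Vis (y t)) =
        ∏ p : Fin k × Fin w, PP (fun (_ : ι × I) (_ : Λ) => (1 : ℝ) / Fintype.card Λ)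
          (fun ω => ∃ P, (P, ω (P, e p)) ∈ Vis (y p.1)) := by
      rw [← h1]
      refine PP_congr fun ω => ?_
      constructor
      · intro h p _
        exact h p.1 p.2
      · intro h t u
        exact h (t, u) (Finset.mem_univ _)
    rw [h2]
    calc ∏ p : Fin k × Fin w, PP (fun (_ : ι × I) (_ : Λ) => (1 : ℝ) / Fintype.card Λ)
          (fun ω => ∃ P, (P, ω (P, e p)) ∈ Vis (y p.1))
        ≤ ∏ _p : Fin k × Fin w, ((K : ℝ) / Fintype.card Λ) :=
          Finset.prod_le_prod (fun p _ => PP_nonneg hpr _)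
            (fun p _ => pp_vis (Vis (y p.1)) K (hVis _) (e p))
      _ = ((K : ℝ) / Fintype.card Λ) ^ (k * w) := by
          rw [Finset.prod_const, Finset.card_univ, Fintype.card_prod, Fintype.card_fin,
            Fintype.card_fin]
  have hP : ∀ x ∈ (Finset.univ : Finset X),
      PP (fun (_ : ι × I) (_ : Λ) => (1 : ℝ) / Fintype.card Λ) (A x) ≤
      ((Fintype.card I : ℝ) ^ (k * w) * (B : ℝ) ^ k) * ((K : ℝ) / Fintype.card Λ) ^ (k * w) := by
    intro x _
    let F : Finset ((Fin k × Fin w → I) × (Fin k → Pt)) :=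
      (Finset.univ.filter fun e : Fin k × Fin w → I => Function.Injective e) ×ˢ
        (Fintype.piFinset fun _ : Fin k => Pl x)
    have h1 : PP (fun (_ : ι × I) (_ : Λ) => (1 : ℝ) / Fintype.card Λ) (A x) ≤
        ∑ q ∈ F, PP (fun (_ : ι × I) (_ : Λ) => (1 : ℝ) / Fintype.card Λ)
          (fun ω => ∀ t u, ∃ P, (P, ω (P, q.1 (t, u))) ∈ Vis (q.2 t)) := by
      refine le_trans (PP_mono hpr ?_) (PP_exists_le hpr F
        (fun q ω => ∀ t u, ∃ P, (P, ω (P, q.1 (t, u))) ∈ Vis (q.2 t)))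
      rintro ω ⟨e, y, he, hy, h⟩
      exact ⟨(e, y), Finset.mem_product.2 ⟨Finset.mem_filter.2 ⟨Finset.mem_univ _, he⟩,
        Fintype.mem_piFinset.2 hy⟩, h⟩
    refine h1.trans ?_
    calc ∑ q ∈ F, PP (fun (_ : ι × I) (_ : Λ) => (1 : ℝ) / Fintype.card Λ)
          (fun ω => ∀ t u, ∃ P, (P, ω (P, q.1 (t, u))) ∈ Vis (q.2 t))
        ≤ ∑ _q ∈ F, ((K : ℝ) / Fintype.card Λ) ^ (k * w) :=
          Finset.sum_le_sum fun q hq =>
            hone q.1 q.2 (Finset.mem_filter.1 (Finset.mem_product.1 hq).1).2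
      _ = (F.card : ℝ) * ((K : ℝ) / Fintype.card Λ) ^ (k * w) := by
          rw [Finset.sum_const, nsmul_eq_mul]
      _ ≤ _ := by
          refine mul_le_mul_of_nonneg_right ?_ (by positivity)
          have h2 : F.card ≤ (Fintype.card I) ^ (k * w) * B ^ k := by
            simp only [F]
            rw [Finset.card_product]
            refine Nat.mul_le_mul ?_ ?_
            · refine (Finset.card_le_univ _).trans ?_
              rw [Fintype.card_fun, Fintype.card_prod, Fintype.card_fin, Fintype.card_fin]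
            · rw [Fintype.card_piFinset]
              simp only [Finset.prod_const, Finset.card_univ, Fintype.card_fin]
              exact Nat.pow_le_pow_left (hPl x) k
          exact_mod_cast h2
  obtain ⟨ω, -, hω⟩ := lll_count hpr (Finset.univ : Finset X) A S hdep hP (by positivity)
    (s := B * K * Fintype.card I) (r := r)
    (by
      intro x _
      simp only [S]
      rw [Finset.card_product, Finset.card_univ]
      exact Nat.mul_le_mul_right _ (hpts x))
    (by
      rintro ⟨P, i⟩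
      obtain ⟨Sx, hSx, hSx'⟩ := hr P
      refine (Finset.card_le_card ?_).trans hSx
      intro x hx
      apply hSx'
      have h1 := (Finset.mem_product.1 (Finset.mem_filter.1 hx).2).1
      obtain ⟨⟨P', a⟩, h2, h3⟩ := Finset.mem_image.1 h1
      simp only at h3
      subst h3
      obtain ⟨y, hy, hya⟩ := Finset.mem_biUnion.1 h2
      exact ⟨y, hy, a, hya⟩)
    (Nat.one_le_iff_ne_zero.2 (by positivity)) hr1
    (by
      have h1 : ((4 * (B * K * Fintype.card I * r) *
        ((Fintype.card I) ^ (k * w) * B ^ k * K ^ (k * w)) : ℕ) : ℝ) ≤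
        (((Fintype.card Λ) ^ (k * w) : ℕ) : ℝ) := by exact_mod_cast hnum
      push_cast at h1 ⊢
      rw [div_pow]
      have h2 : (0 : ℝ) < (Fintype.card Λ : ℝ) ^ (k * w) := by positivity
      rw [mul_div_assoc', div_mul_eq_mul_div, div_le_div_iff₀ h2 (by norm_num)]
      linarith)
  exact ⟨fun P i => ω (P, i), fun x => hω x (Finset.mem_univ _)⟩

end Pool.Agent.Helper57.DG
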