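import Pool.Agent.Helper45.DR2.Final
import Pool.Agent.Helper57.DG.Labels

set_option autoImplicit false

/-!
# DG: selection of places when every copy has a part and a branch
-/

namespace Pool.Agent.Helper57.DG

open Pool.Agent.Helper45.DR Pool.Agent.Helper45.DR2

/-- the copies of `H` in `G` -/
def Cop {W U : Type*} (G : SimpleGraph W) (H : SimpleGraph U) (F : U → W) : Prop :=
  Function.Injective F ∧ ∀ u v, H.Adj u v → G.Adj (F u) (F v)

open Classical in
/-- the ball of radius `r` around `x` -/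
noncomputable def ball {W : Type*} [Fintype W] (G : SimpleGraph W) (x : W) (r : ℕ) : Finset W :=
  Finset.univ.filter fun y => ∃ p : G.Walk x y, p.length ≤ r

lemma mem_ball {W : Type*} [Fintype W] (G : SimpleGraph W) (x y : W) (r : ℕ) :
    y ∈ ball G x r ↔ ∃ p : G.Walk x y, p.length ≤ r := by
  classical
  simp [ball]

lemma ball_symm {W : Type*} [Fintype W] (G : SimpleGraph W) (x y : W) (r : ℕ)
    (h : y ∈ ball G x r) : x ∈ ball G y r := by
  rw [mem_ball] at *
  obtain ⟨p, hp⟩ := h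
  exact ⟨p.reverse, by rwa [SimpleGraph.Walk.length_reverse]⟩

lemma ball_trans {W : Type*} [Fintype W] (G : SimpleGraph W) (x y z : W) (r s : ℕ)
    (h : y ∈ ball G x r) (h' : z ∈ ball G y s) : z ∈ ball G x (r + s) := by
  rw [mem_ball] at *
  obtain ⟨p, hp⟩ := h
  obtain ⟨q, hq⟩ := h'
  exact ⟨p.append q, by rw [SimpleGraph.Walk.length_append]; omega⟩

lemma ball_card {W : Type*} [Fintype W] (G : SimpleGraph W) (D : ℕ)
    (hD : ∀ x, (G.neighborSet x).Finite ∧ (G.neighborSet x).ncard ≤ D) (x : W) (r : ℕ) :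
    (ball G x r).card ≤ (D + 1) ^ r := by
  obtain ⟨P, hP, hP'⟩ := exists_places G D hD r x
  refine (Finset.card_le_card ?_).trans hP
  intro y hy
  exact hP' y ((mem_ball G x y r).1 hy)

/-- the leaf number `a` of the branch `j` -/
def lf (h d : ℕ) (j : Fin (2 ^ d)) (a : Fin (2 ^ h)) : Fin (2 ^ (h + d)) :=
  ⟨j * 2 ^ h + a, by
    have h1 := j.2
    have h2 := a.2
    have e : 2 ^ (h + d) = 2 ^ d * 2 ^ h := by ring
    have h3 : ((j : ℕ) + 1) * 2 ^ h ≤ 2 ^ d * 2 ^ h := Nat.mul_le_mul_right _ h1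
    rw [add_mul, one_mul] at h3
    omega⟩

lemma lf_div (h d : ℕ) (j : Fin (2 ^ d)) (a : Fin (2 ^ h)) :
    (lf h d j a : ℕ) / 2 ^ h = j := by
  have h2 := a.2
  have hp : 0 < 2 ^ h := by positivity
  change ((j : ℕ) * 2 ^ h + a) / 2 ^ h = j
  rw [add_comm, Nat.add_mul_div_right _ _ hp, Nat.div_eq_of_lt h2, zero_add]

lemma lf_mod (h d : ℕ) (j : Fin (2 ^ d)) (a : Fin (2 ^ h)) :
    (lf h d j a : ℕ) % 2 ^ h = a := by
  have h2 := a.2
  change ((j : ℕ) * 2 ^ h + a) % 2 ^ h = a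
  rw [add_comm, Nat.add_mul_mod_self_right, Nat.mod_eq_of_lt h2]

lemma leaf_lf (h d : ℕ) (j : Fin (2 ^ d)) (a : Fin (2 ^ h)) :
    leaf (h + d) (lf h d j a) / 2 ^ h = 2 ^ d + j := by
  have h2 := a.2
  have hp : 0 < 2 ^ h := by positivity
  have e : leaf (h + d) (lf h d j a) = (a : ℕ) + (2 ^ d + j) * 2 ^ h := by
    change 2 ^ (h + d) + ((j : ℕ) * 2 ^ h + a) = _
    ring
  rw [e, Nat.add_mul_div_right _ _ hp, Nat.div_eq_of_lt h2, zero_add]

/-- the branches have roots -/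
lemma pth_lf (m h d : ℕ) (j : Fin (2 ^ d)) (a b : Fin (2 ^ h)) :
    pth m (h + d) (lf h d j a) h = pth m (h + d) (lf h d j b) h := by
  unfold pth
  congr 2
  rw [leaf_lf, leaf_lf]

/-- no copy survives if the parts overlap little -/
theorem select3 {W U ι : Type*} [Fintype W] [Fintype ι] (G : SimpleGraph W) (H : SimpleGraph U)
    (D : ℕ) (hD : ∀ x, (G.neighborSet x).Finite ∧ (G.neighborSet x).ncard ≤ D) (m h d : ℕ)
    (hm : 0 < m) (π : Fin (2 ^ (h + d)) → Equiv.Perm (Fin m)) (hπ : Function.Injective π)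
    (g : V m (h + d) → U) (hg : Function.Injective g)
    (hgH : ∀ u v, (HG m (h + d) π).Adj u v → H.Adj (g u) (g v))
    (C g₀ m₁ p k T μ N : ℕ) (hT : 0 < T) (hg0 : 0 < g₀) (hm1 : 0 < m₁) (hμ : 1 ≤ μ) (hN1 : 1 ≤ N)
    (hk : k * (C + 2) ≤ p + (C + 2))
    (htour : (2 * C + 2) * ((2 * C + 2) * m₁ + 1) ^ p * (2 ^ p - 1) ^ (m₁ - p) <
      (2 ^ p) ^ (m₁ - p))
    (hnum : 4 * ((D + 1) ^ h * (μ * (D + 1) ^ (2 * T + 3 * m + 1)) *
      (g₀ * ((2 * C + 2) * m₁)) * (N * (D + 1) ^ (2 * T + h))) *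
      ((g₀ * ((2 * C + 2) * m₁)) ^ (g₀ * k * (C + 2)) * ((D + 1) ^ h) ^ (g₀ * k) *
      (μ * (D + 1) ^ (2 * T + 3 * m + 1)) ^ (g₀ * k * (C + 2))) ≤
        (2 ^ h) ^ (g₀ * k * (C + 2)))
    (part : (U → W) → ι) (br : (U → W) → Fin (2 ^ d))
    (hmu : ∀ (j : Fin (2 ^ d)) (a : Fin (2 ^ h)) (x : W), ∃ S : Finset ι, S.card ≤ μ ∧
      ∀ F, Cop G H F → br F = j → F (g (pth m (h + d) (lf h d j a) 0)) = x → part F ∈ S)
    (hN : ∀ P : ι, ∃ S : Finset W, S.card ≤ N ∧
      ∀ F, Cop G H F → part F = P → ∀ a, F (g (pth m (h + d) (lf h d (br F) a) 0)) ∈ S) :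
    ∃ Y : Fin g₀ × Fin (2 * C + 2) → Set W, ∀ F : U → W, Cop G H F →
      ∃ i a, F (g (pth m (h + d) a 0)) ∈ Y i ∧ td G (Y i) T (F (g (pth m (h + d) a h))) = T := by
  classical
  obtain ⟨b, hb, hbU⟩ := exists_tour (2 * C + 2) m₁ p htour
  choose Sμ hSμ hSμ' using hmu
  choose SN hSN hSN' using hN
  let jj : Fin (2 ^ (h + d)) → Fin (2 ^ d) := fun c => ⟨(c : ℕ) / 2 ^ h, by
    rw [Nat.div_lt_iff_lt_mul (by positivity), ← pow_add, add_comm d h]
    exact c.2⟩
  let aa : Fin (2 ^ (h + d)) → Fin (2 ^ h) := fun c => ⟨(c : ℕ) % 2 ^ h,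
    Nat.mod_lt _ (by positivity)⟩
  have hjj : ∀ j a, jj (lf h d j a) = j := fun j a => Fin.ext (lf_div h d j a)
  have haa : ∀ j a, aa (lf h d j a) = a := fun j a => Fin.ext (lf_mod h d j a)
  -- the own pairs
  let Own : W → Finset ((ι × Fin (2 ^ d)) × Fin (2 ^ h)) := fun z => Finset.univ.filter fun q =>
    ∃ F, Cop G H F ∧ part F = q.1.1 ∧ br F = q.1.2 ∧
      F (g (pth m (h + d) (lf h d q.1.2 q.2) 0)) = z
  have hOwn : ∀ z q, q ∈ Own z ↔
      ∃ F, Cop G H F ∧ part F = q.1.1 ∧ br F = q.1.2 ∧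
        F (g (pth m (h + d) (lf h d q.1.2 q.2) 0)) = z := by
    intro z q
    simp [Own]
  have hOwnc : ∀ z, (Own z).card ≤ μ * (D + 1) ^ (1 + 3 * m) := by
    intro z
    let S : Finset (Fin (2 ^ (h + d))) := Finset.univ.filter fun a => TagAt G (π a) z
    have hS : S.card ≤ (D + 1) ^ (1 + 3 * m) := by
      refine near_card G D hD π hπ 1 z S ?_
      intro a ha
      exact ⟨z, (Finset.mem_filter.1 ha).2, SimpleGraph.Walk.nil, by
        rw [SimpleGraph.Walk.length_nil]; omega⟩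
    have hsub : Own z ⊆ S.biUnion fun c =>
        (Sμ (jj c) (aa c) z).image fun P => ((P, jj c), aa c) := by
      rintro ⟨⟨P, j⟩, a⟩ hq
      obtain ⟨F, hF, hFP, hFj, hFz⟩ := (hOwn z _).1 hq
      simp only at hFP hFj hFz
      refine Finset.mem_biUnion.2 ⟨lf h d j a, Finset.mem_filter.2 ⟨Finset.mem_univ _, ?_⟩, ?_⟩
      · rw [← hFz]
        exact tagAt_leaf G m (h + d) hm π (F ∘ g) (hF.1.comp hg)
          (fun u v huv => hF.2 _ _ (hgH u v huv)) (lf h d j a)
      · rw [hjj, haa]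
        refine Finset.mem_image.2 ⟨P, ?_, rfl⟩
        rw [← hFP]
        exact hSμ' j a z F hF hFj hFz
    refine (Finset.card_le_card hsub).trans ?_
    refine (Finset.card_biUnion_le_card_mul _ _ μ fun c _ =>
      Finset.card_image_le.trans (hSμ (jj c) (aa c) z)).trans ?_
    rw [mul_comm]
    exact Nat.mul_le_mul_left _ hS
  -- the visible pairs
  let Vis : W → Finset ((ι × Fin (2 ^ d)) × Fin (2 ^ h)) := fun y =>
    (ball G y (2 * T)).biUnion Own
  have hVis : ∀ y, (Vis y).card ≤ μ * (D + 1) ^ (2 * T + 3 * m + 1) := by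
    intro y
    refine (Finset.card_biUnion_le_card_mul _ _ _ fun z _ => hOwnc z).trans ?_
    refine (Nat.mul_le_mul_right _ (ball_card G D hD y (2 * T))).trans (le_of_eq ?_)
    ring
  have hne : Nonempty (Fin (2 ^ h)) := ⟨⟨0, by positivity⟩⟩
  have hcardI : Fintype.card (Fin g₀ × Fin (2 * C + 2) × Fin m₁) = g₀ * ((2 * C + 2) * m₁) := by
    rw [Fintype.card_prod, Fintype.card_prod, Fintype.card_fin, Fintype.card_fin,
      Fintype.card_fin]
  obtain ⟨a, ha⟩ := labels (I := Fin g₀ × Fin (2 * C + 2) × Fin m₁) Vis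
    (μ * (D + 1) ^ (2 * T + 3 * m + 1)) hVis (fun x => ball G x h) ((D + 1) ^ h)
    (fun x => ball_card G D hD x h) (N * (D + 1) ^ (2 * T + h))
    (Nat.one_le_iff_ne_zero.2 (by positivity)) (Nat.one_le_iff_ne_zero.2 (by positivity))
    (Nat.one_le_iff_ne_zero.2 (by positivity))
    (by rw [hcardI]; positivity)
    (by
      rintro ⟨P, j⟩
      refine ⟨(SN P).biUnion fun z => ball G z (2 * T + h), ?_, ?_⟩
      · refine (Finset.card_biUnion_le_card_mul _ _ _ fun z _ =>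
          ball_card G D hD z (2 * T + h)).trans ?_
        exact Nat.mul_le_mul_right _ (hSN P)
      · rintro x ⟨y, hy, c, hc⟩
        obtain ⟨z, hz, hc⟩ := Finset.mem_biUnion.1 hc
        obtain ⟨F, hF, hFP, hFj, hFz⟩ := (hOwn z _).1 hc
        simp only at hFP hFj hFz
        refine Finset.mem_biUnion.2 ⟨z, ?_, ?_⟩
        · rw [← hFz, ← hFj]
          exact hSN' P F hF hFP c
        · exact ball_trans G z y x (2 * T) h (ball_symm G y z _ hz) (ball_symm G x y _ hy))
    (g₀ * k) (C + 2) hne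
    (by
      rw [hcardI, Fintype.card_fin]
      exact hnum)
  -- the seen and the enabled indices
  let LS : Fin g₀ → W → Finset (Fin (2 * C + 2) × Fin m₁) := fun γ z =>
    Finset.univ.filter fun j => ∃ P, (P, a P (γ, j)) ∈ Vis z
  let En : Fin g₀ → (ι × Fin (2 ^ d)) → W → Fin (2 * C + 2) × Fin m₁ → Prop := fun γ P z i =>
    (P, a P (γ, i)) ∈ Own z ∧ ((LS γ z).filter fun j => j ≠ i ∧ b j i).card ≤ C
  let Y : Fin g₀ × Fin (2 * C + 2) → Set W := fun q =>
    {z | ∃ (P : ι × Fin (2 ^ d)) (i : Fin m₁), En q.1 P z (q.2, i)}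
  refine ⟨Y, ?_⟩
  intro F hF
  have hadj : ∀ u v, (HG m (h + d) π).Adj u v → G.Adj ((F ∘ g) u) ((F ∘ g) v) :=
    fun u v huv => hF.2 _ _ (hgH u v huv)
  have h2h : 0 < 2 ^ h := by positivity
  obtain ⟨x₀, hx₀⟩ : ∃ x₀, ∀ c, F (g (pth m (h + d) (lf h d (br F) c) h)) = x₀ :=
    ⟨F (g (pth m (h + d) (lf h d (br F) ⟨0, h2h⟩) h)), fun c => by
      rw [pth_lf m h d (br F) c ⟨0, h2h⟩]⟩
  have hwalk : ∀ c, F (g (pth m (h + d) (lf h d (br F) c) 0)) ∈ ball G x₀ h := by
    intro c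
    have hw := walk_pth G m (h + d) π (F ∘ g) hadj (lf h d (br F) c) h (by omega)
    simp only [Function.comp_apply] at hw
    rw [hx₀] at hw
    obtain ⟨p, hp⟩ := hw
    rw [mem_ball]
    exact ⟨p.reverse, by rw [SimpleGraph.Walk.length_reverse, hp]⟩
  -- the root is far from one of the sets of every group
  have hq : ∀ γ, ∃ q, td G (Y (γ, q)) T x₀ = T := by
    intro γ
    by_contra hcon
    push Not at hcon
    have h1 : ∀ q, ∃ (z : W) (P : ι × Fin (2 ^ d)) (i : Fin m₁), En γ P z (q, i) ∧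
        ∃ p : G.Walk x₀ z, p.length < T := by
      intro q
      have h2 : td G (Y (γ, q)) T x₀ < T := lt_of_le_of_ne (td_le _ _ _ _) (hcon q)
      obtain ⟨z, ⟨P, i, hi⟩, p, hp⟩ := td_lt G (Y (γ, q)) T x₀ h2
      exact ⟨z, P, i, hi, p, hp⟩
    choose z P i hEn hz using h1
    have hinj : Function.Injective fun q => (q, i q) := fun q q' hqq => (Prod.ext_iff.1 hqq).1
    have h2 := capacity b hb C (Finset.univ.image fun q => (q, i q)) (by
      intro j hj
      obtain ⟨q, -, rfl⟩ := Finset.mem_image.1 hj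
      refine (Finset.card_le_card ?_).trans (hEn q).2
      intro j' hj'
      simp only [Finset.mem_filter] at hj' ⊢
      refine ⟨?_, hj'.2⟩
      obtain ⟨q', -, rfl⟩ := Finset.mem_image.1 hj'.1
      refine Finset.mem_filter.2 ⟨Finset.mem_univ _, P q', ?_⟩
      refine Finset.mem_biUnion.2 ⟨z q', ?_, (hEn q').1⟩
      obtain ⟨p, hp⟩ := hz q
      obtain ⟨p', hp'⟩ := hz q'
      rw [mem_ball]
      refine ⟨p.reverse.append p', ?_⟩
      rw [SimpleGraph.Walk.length_append, SimpleGraph.Walk.length_reverse]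
      omega)
    rw [Finset.card_image_of_injective _ hinj, Finset.card_univ, Fintype.card_fin] at h2
    omega
  choose q hq using hq
  obtain ⟨P, hP⟩ : ∃ P, P = (part F, br F) := ⟨_, rfl⟩
  have hown : ∀ c, (P, c) ∈ Own (F (g (pth m (h + d) (lf h d (br F) c) 0))) := fun c =>
    (hOwn _ _).2 ⟨F, hF, by rw [hP], by rw [hP], by rw [hP]⟩
  -- an enabled leaf of some group
  obtain ⟨γ, i, hi⟩ : ∃ (γ : Fin g₀) (i : Fin m₁),
      En γ P (F (g (pth m (h + d) (lf h d (br F) (a P (γ, (q γ, i)))) 0))) (q γ, i) := by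
    by_contra hcon
    push Not at hcon
    let z : Fin g₀ → Fin (2 * C + 2) × Fin m₁ → W := fun γ i =>
      F (g (pth m (h + d) (lf h d (br F) (a P (γ, i))) 0))
    have hgr : ∀ γ, ∃ (e : Fin k × Fin (C + 2) → Fin (2 * C + 2) × Fin m₁) (y : Fin k → W),
        Function.Injective e ∧ (∀ t, ∃ i ∈ (Finset.univ.filter fun i => i.1 = q γ), y t = z γ i) ∧
        ∀ t u, e (t, u) ∈ LS γ (y t) := by
      intro γ
      refine greedy b hb (Finset.univ.filter fun i => i.1 = q γ) p (by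
          intro U hU
          obtain ⟨i, hi, hi'⟩ := hbU U hU (q γ)
          exact ⟨(q γ, i), Finset.mem_filter.2 ⟨Finset.mem_univ _, rfl⟩, hi, hi'⟩) C
        (LS γ) (z γ) (by
          rintro ⟨q', i⟩ hi
          obtain rfl : q' = q γ := (Finset.mem_filter.1 hi).2
          refine ⟨Finset.mem_filter.2 ⟨Finset.mem_univ _, P, ?_⟩, ?_⟩
          · refine Finset.mem_biUnion.2 ⟨z γ (q γ, i), ?_, hown _⟩
            rw [mem_ball]
            exact ⟨SimpleGraph.Walk.nil, by rw [SimpleGraph.Walk.length_nil]; omega⟩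
          · have h1 := hcon γ i
            by_contra h2
            have h3 := not_le.1 h2
            refine h1 ⟨hown _, ?_⟩
            convert Nat.lt_succ_iff.1 h3) k hk
    choose e y he hy hey using hgr
    have hyw : ∀ γ t, y γ t ∈ ball G x₀ h := by
      intro γ t
      obtain ⟨i, -, hi⟩ := hy γ t
      rw [hi]
      exact hwalk _
    refine ha x₀ ⟨fun s => ((finProdFinEquiv.symm s.1).1,
      e (finProdFinEquiv.symm s.1).1 ((finProdFinEquiv.symm s.1).2, s.2)),
      fun t => y (finProdFinEquiv.symm t).1 (finProdFinEquiv.symm t).2, ?_,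
      fun t => hyw _ _,
      fun t u => (Finset.mem_filter.1 (hey _ _ u)).2⟩
    rintro ⟨t, u⟩ ⟨t', u'⟩ htt
    simp only [Prod.mk.injEq] at htt
    obtain ⟨h1, h2⟩ := htt
    rw [← h1] at h2
    have h3 := he _ h2
    rw [Prod.mk.injEq] at h3
    have h4 : finProdFinEquiv.symm t = finProdFinEquiv.symm t' := Prod.ext h1 h3.1
    rw [Prod.mk.injEq]
    exact ⟨finProdFinEquiv.symm.injective h4, h3.2⟩
  refine ⟨(γ, q γ), lf h d (br F) (a P (γ, (q γ, i))), ⟨P, i, hi⟩, ?_⟩
  rw [hx₀]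
  exact hq γ

/-- the colouring from the sets of places -/
theorem core3 {W U : Type*} (G : SimpleGraph W) (H : SimpleGraph U) (m h h' : ℕ) (hh' : h' ≤ h)
    (π : Fin (2 ^ h) → Equiv.Perm (Fin m)) (g : V m h → U)
    (hgH : ∀ u v, (HG m h π).Adj u v → H.Adj (g u) (g v))
    (Q k : ℕ) (l : Fin k → ℕ) (L : ℕ) (F : (Fin k → ℕ) → ℤ) (s : ℕ)
    (hL : 0 < L) (hl : ∀ i, 0 < l i ∧ l i ∣ L)
    (hs : ∀ τ τ' : Fin k → ℕ, (∀ i, |(τ i : ℤ) - τ' i| ≤ 1) → |F τ - F τ'| ≤ s)
    (htype : ∀ (i : Fin k) (c : ℕ) (τ τ' : Fin k → ℕ), τ i = c * l i → τ' i = (c + 1) * l i →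
      (∀ j, |(τ j : ℤ) - τ' j| ≤ Q * l i) → (s : ℤ) + 1 ≤ |F τ - F τ'|)
    (t : ℕ) (ht : 0 < t) (hlen : h' ≤ Q * (L * t)) (Y : Fin k → Set W)
    (hY : ∀ f : U → W, Cop G H f →
      ∃ i a, f (g (pth m h a 0)) ∈ Y i ∧ td G (Y i) (L * t) (f (g (pth m h a h'))) = L * t) :
    ∃ c : W → W → Bool, (∀ x y, c x y = c y x) ∧ ∀ b, ¬ ∃ f : U → W,
      Cop G H f ∧ ∀ u v, H.Adj u v → c (f u) (f v) = b := by
  classical
  set T := L * t with hT
  let τ : W → Fin k → ℕ := fun x i => td G (Y i) T x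
  let χ : W → Bool := fun x => decide ((F (τ x) / (s + 1)) % 2 = 0)
  refine ⟨fun x y => decide (χ x = χ y), ?_, ?_⟩
  · intro x y
    simp only [eq_comm]
  · rintro b ⟨f, hf, hfc⟩
    cases b with
    | false =>
      obtain ⟨u, v, w, huv, huw, hvw⟩ := tri m h π
      have h1 := hfc _ _ (hgH u v huv)
      have h2 := hfc _ _ (hgH u w huw)
      have h3 := hfc _ _ (hgH v w hvw)
      rw [decide_eq_false_iff_not] at h1 h2 h3
      revert h1 h2 h3
      generalize χ (f (g u)) = p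
      generalize χ (f (g v)) = q
      generalize χ (f (g w)) = r
      revert p q r
      decide
    | true =>
      have hadj : ∀ u v, (HG m h π).Adj u v → G.Adj (f (g u)) (f (g v)) :=
        fun u v huv => hf.2 _ _ (hgH u v huv)
      have hχ : ∀ u v, (HG m h π).Adj u v → χ (f (g u)) = χ (f (g v)) := by
        intro u v huv
        have := hfc _ _ (hgH u v huv)
        rwa [decide_eq_true_iff] at this
      obtain ⟨i, a, hi0, hi⟩ := hY f hf
      obtain ⟨p, hp, q, hq, hpq⟩ := cross_parity Q k l L F s hL hl hs htype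
        (fun j => τ (f (g (pth m h a j)))) h' t ht i
        (td_zero G (Y i) T _ hi0) hi
        (fun j hj i' => by
          have h1 := td_lip G (Y i') T _ _ (hadj _ _ (pth_adj m h π a j (by omega)))
          rw [abs_sub_comm] at h1
          exact h1)
        hlen
      have hconst : ∀ j, j ≤ h → χ (f (g (pth m h a j))) = χ (f (g (pth m h a 0))) := by
        intro j
        induction j with
        | zero => intro _; rfl
        | succ j ih =>
          intro hj
          rw [← ih (by omega)]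
          exact (hχ _ _ (pth_adj m h π a j (by omega))).symm
      have h1 := (hconst p (by omega)).trans (hconst q (by omega)).symm
      simp only [χ, decide_eq_decide] at h1
      have e1 := Int.emod_two_eq (F (τ (f (g (pth m h a p)))) / (s + 1))
      have e2 := Int.emod_two_eq (F (τ (f (g (pth m h a q)))) / (s + 1))
      apply hpq
      rcases e1 with e1 | e1 <;> rcases e2 with e2 | e2
      · rw [e1, e2]
      · rw [e1, e2] at h1
        simp at h1
      · rw [e1, e2] at h1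
        simp at h1
      · rw [e1, e2]

end Pool.Agent.Helper57.DG
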